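import Pool.Agent.Lib.MP_8a52c3_lc.Ac0.OrApx

namespace Pool.Agent.Lib.MP_8a52c3_lc.Ac0

open Module

variable {F D V V₀ : Type} [Field F] [AddCommGroup V] [Module F V] [AddCommGroup V₀]
  [Module F V₀] {L : ℕ} {p : ℕ}

theorem Fm.depth_le_depthIn_succ (c : Option Bool) (A : Fm p) :
    A.depth ≤ Fm.depthIn c A + 1 := by
  cases A <;> simp [Fm.depth, Fm.depthIn]

theorem Fm.depthIn_le_depth (c : Option Bool) (A : Fm p) : Fm.depthIn c A ≤ A.depth := by
  cases A with
  | or A B =>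
    simp only [Fm.depth, Fm.depthIn]
    split_ifs <;> simp_all
  | and A B =>
    simp only [Fm.depth, Fm.depthIn]
    split_ifs <;> simp_all
  | _ => simp [Fm.depth, Fm.depthIn]

theorem Fm.depth_neg (A : Fm p) : (Fm.neg A).depth = A.depth := rfl

theorem Apx_depth_or (A B : Fm p) : (Fm.or A B).depth =
    max (Fm.depthIn (some true) A) (Fm.depthIn (some true) B) + 1 := rfl

theorem Apx_depth_and (A B : Fm p) : (Fm.and A B).depth =
    max (Fm.depthIn (some false) A) (Fm.depthIn (some false) B) + 1 := rfl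

theorem Fm.depth_or (A B : Fm p) :
    A.depth ≤ (Fm.or A B).depth ∧ B.depth ≤ (Fm.or A B).depth := by
  have h1 := Fm.depth_le_depthIn_succ (some true) A
  have h2 := Fm.depth_le_depthIn_succ (some true) B
  rw [Apx_depth_or]
  omega

theorem Fm.depth_and (A B : Fm p) :
    A.depth ≤ (Fm.and A B).depth ∧ B.depth ≤ (Fm.and A B).depth := by
  have h1 := Fm.depth_le_depthIn_succ (some false) A
  have h2 := Fm.depth_le_depthIn_succ (some false) B
  rw [Apx_depth_and]
  omega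

theorem Fm.depth_mod (i : ZMod p) (m : ℕ) (f : Fin m → Fm p) (j : Fin m) :
    (f j).depth + 1 ≤ (Fm.mod i m f).depth :=
  Nat.succ_le_succ (Finset.le_sup (f := fun j => Fm.depthIn none (f j)) (Finset.mem_univ j))

theorem Fm.one_le_size (A : Fm p) : 1 ≤ A.size := by
  cases A <;> simp [Fm.size]

variable (O : List (D → Bool) → D → Bool) (x : ℕ → D → Bool)

theorem orK_length_le (A : Fm p) : (orK O x A).length ≤ A.size := by
  induction A with
  | or A B ihA ihB =>
    change (orK O x A ++ orK O x B).length ≤ A.size + B.size + 1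
    rw [List.length_append]
    omega
  | _ => exact Fm.one_le_size _

theorem ndK_length_le (A : Fm p) : (ndK O x A).length ≤ A.size := by
  induction A with
  | and A B ihA ihB =>
    change (ndK O x A ++ ndK O x B).length ≤ A.size + B.size + 1
    rw [List.length_append]
    omega
  | _ => exact Fm.one_le_size _

theorem Apx_kappa [Fact p.Prime] {κ : ℕ} (hκ : p - 1 ≤ κ) : 1 ≤ κ := by
  have := (Fact.out : p.Prime).two_le
  omega

theorem Apx_leaf (M : PM F D V V₀ L) {k : ℕ} {a : D → Bool} (h : ind F a ∈ M.P k) :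
    ind F a ∈ M.P k ∧ (∀ g ∈ [a], ind F g ∈ M.P k) ∧
      ∀ g ∈ [fun z => !(a z)], ind F g ∈ M.P k :=
  ⟨h, List.forall_mem_singleton.2 h, List.forall_mem_singleton.2 (M.ind_not_mem h)⟩

theorem Apx_app (M : PM F D V V₀ L) {κ a b : ℕ} (h1 : 1 ≤ κ) {G H : List (D → Bool)}
    (hG : ∀ g ∈ G, ind F g ∈ M.P (κ ^ a)) (hH : ∀ g ∈ H, ind F g ∈ M.P (κ ^ b)) :
    ∀ g ∈ G ++ H, ind F g ∈ M.P (κ ^ max a b) :=
  List.forall_mem_append.2
    ⟨fun g hg => M.mono _ _ (Nat.pow_le_pow_right h1 (le_max_left a b)) (hG g hg),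
      fun g hg => M.mono _ _ (Nat.pow_le_pow_right h1 (le_max_right a b)) (hH g hg)⟩

/-- Degrees of the approximators. -/
theorem ap_mem (M : PM F D V V₀ L) [Fact p.Prime] [CharP F p] {κ ℓ : ℕ} (hO : OSpec M κ ℓ O)
    (hκ : p - 1 ≤ κ) (hx : ∀ i, ind F (x i) ∈ M.P 1) (A : Fm p) :
    ind F (ap O x A) ∈ M.P (κ ^ A.depth) ∧
      (∀ g ∈ orK O x A, ind F g ∈ M.P (κ ^ Fm.depthIn (some true) A)) ∧
      (∀ g ∈ ndK O x A, ind F g ∈ M.P (κ ^ Fm.depthIn (some false) A)) := by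
  have h1 := Apx_kappa hκ
  induction A with
  | var i => exact Apx_leaf M (hx i)
  | top => exact Apx_leaf M (a := fun _ => true) (M.one_mem' 1)
  | bot => exact Apx_leaf M (a := fun _ => false) (M.P 1).zero_mem
  | neg A ih => exact Apx_leaf M (M.ind_not_mem ih.1)
  | or A B ihA ihB =>
    have h2 := Apx_app M h1 ihA.2.1 ihB.2.1
    have h3 := hO.mem _ _ h2
    rw [← pow_succ'] at h3
    exact ⟨h3, h2, List.forall_mem_singleton.2 (M.ind_not_mem h3)⟩
  | and A B ihA ihB =>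
    have h2 := Apx_app M h1 ihA.2.2 ihB.2.2
    have h3 := hO.mem _ _ h2
    rw [← pow_succ'] at h3
    exact ⟨M.ind_not_mem h3, List.forall_mem_singleton.2 (M.ind_not_mem h3), h2⟩
  | mod i m f ih =>
    have h2 := M.cnt_mem p (fun j => ap O x (f j))
      (κ ^ Finset.univ.sup fun j => Fm.depthIn none (f j)) (fun j => M.mono _ _
        (Nat.pow_le_pow_right h1
          (Finset.le_sup (f := fun j => Fm.depthIn none (f j)) (Finset.mem_univ j))) (ih j).1) i
    have h3 := M.mono _ _ (Nat.mul_le_mul_right _ hκ) h2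
    rw [← pow_succ'] at h3
    exact Apx_leaf M h3

theorem Apx_node {s₀ s₁ s₂ e l a b n : ℕ} (h0 : s₀ * e ≤ l * n) (hl : l ≤ a + b + 1)
    (h1 : s₁ * e ≤ a ^ 2 * n) (h2 : s₂ * e ≤ b ^ 2 * n) :
    (s₀ + (s₁ + s₂)) * e ≤ (a + b + 1) ^ 2 * n := by
  have h3 : l + a ^ 2 + b ^ 2 ≤ (a + b + 1) ^ 2 := by nlinarith
  calc (s₀ + (s₁ + s₂)) * e = s₀ * e + s₁ * e + s₂ * e := by ring
    _ ≤ l * n + a ^ 2 * n + b ^ 2 * n := Nat.add_le_add (Nat.add_le_add h0 h1) h2
    _ = (l + a ^ 2 + b ^ 2) * n := by ring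
    _ ≤ _ := Nat.mul_le_mul_right _ h3

theorem Apx_deg {κ m d L : ℕ} (h1 : 1 ≤ κ) (hm : m + 1 ≤ d) (hL : 4 * κ ^ d ≤ L) :
    2 * (κ * κ ^ m + κ ^ m) ≤ L := by
  have h2 := Nat.pow_le_pow_right h1 hm
  have h3 := Nat.pow_le_pow_right h1 ((Nat.le_succ m).trans hm)
  rw [← pow_succ']
  omega

/-- Total rank of the extension axioms of a formula. -/
theorem ext_rank (M : PM F D V V₀ L) [Fact p.Prime] [CharP F p] {κ ℓ : ℕ} (hO : OSpec M κ ℓ O)
    (hκ : p - 1 ≤ κ) (hx : ∀ i, ind F (x i) ∈ M.P 1) (d : ℕ) (hL : 4 * κ ^ d ≤ L) (A : Fm p)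
    (hA : A.depth ≤ d) :
    ((ext O x A).map M.rk).sum * 2 ^ ℓ ≤ A.size ^ 2 * finrank F V := by
  have h1 := Apx_kappa hκ
  induction A with
  | var i => simp [ext]
  | top => simp [ext]
  | bot => simp [ext]
  | neg A ih =>
    exact (ih hA).trans (Nat.mul_le_mul_right _ (Nat.pow_le_pow_left (Nat.le_succ _) 2))
  | or A B ihA ihB =>
    rw [ext, List.map_append, List.map_append, List.sum_append, List.sum_append]
    exact Apx_node (hO.rank _ _ (ap_mem O x M hO hκ hx (Fm.or A B)).2.1 (Apx_deg h1 hA hL))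
      (orK_length_le O x (Fm.or A B)) (ihA ((Fm.depth_or A B).1.trans hA))
      (ihB ((Fm.depth_or A B).2.trans hA))
  | and A B ihA ihB =>
    rw [ext, List.map_append, List.map_append, List.sum_append, List.sum_append]
    exact Apx_node (hO.rank _ _ (ap_mem O x M hO hκ hx (Fm.and A B)).2.2 (Apx_deg h1 hA hL))
      (ndK_length_le O x (Fm.and A B)) (ihA ((Fm.depth_and A B).1.trans hA))
      (ihB ((Fm.depth_and A B).2.trans hA))
  | mod i m f ih =>
    rw [ext, List.map_flatten, List.sum_flatten, List.map_ofFn, List.map_ofFn, List.sum_ofFn,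
      Finset.sum_mul]
    calc _ ≤ ∑ j, (f j).size ^ 2 * finrank F V := Finset.sum_le_sum fun j _ =>
          ih j ((Nat.le_succ _).trans ((Fm.depth_mod i m f j).trans hA))
      _ = (∑ j, (f j).size ^ 2) * finrank F V := (Finset.sum_mul _ _ _).symm
      _ ≤ _ := Nat.mul_le_mul_right _
          ((Finset.sum_sq_le_sq_sum_of_nonneg fun _ _ => Nat.zero_le _).trans
            (Nat.pow_le_pow_left (Nat.le_succ _) 2))

end Pool.Agent.Lib.MP_8a52c3_lc.Ac0
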