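import Pool.Agent.Lib.MP_8a52c3_lc.Ac0.Chain

namespace Pool.Agent.Lib.MP_8a52c3_lc.Ac0

open Matrix Filter
open scoped BigOperators

open Classical in
theorem EvA_aux {ι : Type} [Fintype ι] [Nonempty ι] (g Λ : ι → ℝ) (P : ι → Prop) {N C ε : ℝ}
    (hN : 0 < N) (hC : 0 < C) (hε : 0 < ε) (h0 : ∀ i, 0 ≤ Λ i)
    (hP : ∀ i, ¬P i → g i ^ 2 ≤ N ^ 2 / 4 + ε⁻¹ * Λ i) (h1 : 𝔼 i, g i = N)
    (h2 : 𝔼 i, Λ i ≤ ε / 2 * N ^ 2) (h3 : 𝔼 i, (g i ^ 2) ^ 2 ≤ N ^ 4 * C) :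
    1 / (16 * C) ≤ pb P := by
  have e1 : 𝔼 i, g i ^ 2 ≤ 𝔼 i, ((if P i then g i ^ 2 else 0) + (N ^ 2 / 4 + ε⁻¹ * Λ i)) := by
    refine Finset.expect_le_expect fun i _ => ?_
    split_ifs with h
    · have := h0 i
      have : 0 ≤ N ^ 2 / 4 + ε⁻¹ * Λ i := by positivity
      linarith
    · rw [zero_add]
      exact hP i h
  rw [Finset.expect_add_distrib, Finset.expect_add_distrib, Fintype.expect_const,
    ← Finset.mul_expect] at e1
  have e2 := sq_expect_le g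
  rw [h1] at e2
  have e3 : ε⁻¹ * 𝔼 i, Λ i ≤ N ^ 2 / 2 := by
    refine (mul_le_mul_of_nonneg_left h2 (inv_pos.2 hε).le).trans (le_of_eq ?_)
    field_simp
  have e4 : N ^ 2 / 4 ≤ 𝔼 i, if P i then g i ^ 2 else 0 := by linarith
  have e5 := (pow_le_pow_left₀ (by positivity) e4 2).trans (cs_event (fun i => g i ^ 2) P)
  have e6 := e5.trans (mul_le_mul_of_nonneg_right h3 (pb_nonneg P))
  rw [div_le_iff₀ (by positivity)]
  have e7 : N ^ 4 * 1 ≤ N ^ 4 * (pb P * (16 * C)) := by linarith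
  exact le_of_mul_le_mul_left e7 (by positivity)

/-- With constant probability the long product is almost of rank one and not small. -/
theorem evA_prob (q : ℕ) [NeZero q] (hq : 2 ≤ q) {ε : ℝ} (hε : 0 < ε) :
    ∃ h : ℕ, 1 ≤ h ∧ ∃ c : ℝ, 0 < c ∧ ∀ n : ℕ, 1 ≤ n →
      c ≤ pb fun J : JT q (h * n) n =>
        Lam (PJ J) ≤ ε * fro (PJ J) ^ 4 ∧ (n : ℝ) / 2 ≤ fro (PJ J) ^ 2 := by
  obtain ⟨h, hh1, hh⟩ : ∃ h : ℕ, 1 ≤ h ∧ Real.exp (-(h : ℝ)) ≤ ε / 2 := by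
    refine ⟨⌈2 / ε⌉₊ + 1, Nat.le_add_left _ _, ?_⟩
    have h1 := Nat.le_ceil (2 / ε)
    have h2 := Real.add_one_le_exp ((⌈2 / ε⌉₊ + 1 : ℕ) : ℝ)
    rw [Real.exp_neg, inv_le_comm₀ (Real.exp_pos _) (half_pos hε), inv_div]
    push_cast at h2 ⊢
    linarith
  refine ⟨h, hh1, 1 / (16 * Real.exp (Ck 4 * h)), by positivity, fun n hn => ?_⟩
  have hn1 : (1 : ℝ) ≤ n := by exact_mod_cast hn
  have hn0 : (0 : ℝ) < n := by linarith
  refine EvA_aux (fun J => fro (PJ J) ^ 2) (fun J => Lam (PJ J)) _ hn0 (Real.exp_pos _) hε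
    (fun J => Lam_nonneg _) (fun J hJ => ?_) (exp_fro_sq hq) ?_ ?_
  · have h0 := Lam_nonneg (PJ J)
    rcases not_and_or.1 hJ with h1 | h1
    · have h2 : (fro (PJ J) ^ 2) ^ 2 ≤ ε⁻¹ * Lam (PJ J) := by
        rw [le_inv_mul_iff₀ hε, ← pow_mul]
        exact (not_le.1 h1).le
      have : (0 : ℝ) ≤ (n : ℝ) ^ 2 / 4 := by positivity
      linarith
    · have h2 := pow_le_pow_left₀ (sq_nonneg _) (not_le.1 h1).le 2
      have : 0 ≤ ε⁻¹ * Lam (PJ J) := by positivity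
      linarith
  · refine (exp_Lam hq hn).trans (mul_le_mul_of_nonneg_right (le_trans ?_ hh) (sq_nonneg _))
    have h0 : (0 : ℝ) ≤ 1 - 1 / (n : ℝ) := by
      rw [sub_nonneg, div_le_one hn0]
      exact hn1
    rw [mul_comm, pow_mul]
    refine (pow_le_pow_left₀ (pow_nonneg h0 _) (Real.one_sub_div_pow_le_exp_neg hn1) h).trans ?_
    rw [← Real.exp_nat_mul, mul_neg_one]
  · have h1 := exp_fro8 (s := h * n) hq hn
    have e : Ck 4 * ((h * n : ℕ) : ℝ) / n = Ck 4 * h := by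
      push_cast
      field_simp
    rw [e] at h1
    simp only [← pow_mul]
    exact h1

end Pool.Agent.Lib.MP_8a52c3_lc.Ac0
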