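import Pool.Agent.Lib.MP_8a52c3_lc.Ac0.Chain

namespace Pool.Agent.Lib.MP_8a52c3_lc.Ac0

open Matrix Filter
open scoped BigOperators

theorem EvBP_one {q s n : ℕ} [NeZero q] (hq : 2 ≤ q) (hn : 1 ≤ n) {η : ℝ} (hη : 0 < η)
    (i l : ℕ) (hl : l < s) (α : JT q s n → Fin n → ℂ)
    (hα : ∀ (J : JT q s n) (l : Fin s) (M : Fin n → Fin n → ZMod q), i ≤ l.val →
      α (Function.update J l M) = α J) (h1 : ∀ J, nrm (α J) ≤ 1) (a : Fin n)
    (u w : Fin (n + 1)) :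
    pb (fun J : JT q s n => i ≤ l ∧ η < ‖rowI (XJ J l) a u w ⬝ᵥ (pr (XJ J) i l *ᵥ α J)‖) ≤
      Mk 32 / (n : ℝ) ^ 32 * Real.exp (Ck 32 * s / n) / η ^ (2 * 32) := by
  have hM := Mk_pos 32
  by_cases hi : i ≤ l
  · refine le_trans (pb_mono fun J hJ => ?_) ((markov
      (fun J : JT q s n => ‖rowI (XJ J l) a u w ⬝ᵥ (pr (XJ J) i l *ᵥ α J)‖ ^ (2 * 32))
      (fun J => by positivity) (pow_pos hη (2 * 32))).trans ?_)
    · exact pow_le_pow_left₀ hη.le hJ.2.le _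
    · exact div_le_div_of_nonneg_right (chain_elem hq hn i l hi hl α hα h1 32 a u w)
        (by positivity)
  · have : pb (fun J : JT q s n =>
        i ≤ l ∧ η < ‖rowI (XJ J l) a u w ⬝ᵥ (pr (XJ J) i l *ᵥ α J)‖) = 0 := by
      simp [pb, hi]
    rw [this]
    positivity

theorem EvBP_col {q s n : ℕ} [NeZero q] (hn : 1 ≤ n) (J : JT q s n) (i : Fin s) (b : Fin n)
    (j : Fin (n + 1)) : nrm (colP (XJ J i) b j) ≤ 1 := by
  have n0 : (0 : ℝ) < n := by exact_mod_cast hn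
  have h1 : ∀ a, ‖colP (XJ J i) b j a‖ ≤ 1 / Real.sqrt n := by
    intro a
    unfold colP
    split_ifs
    · rw [XJ, dif_pos i.isLt, norm_mat]
    · rw [norm_zero]
      positivity
  have h2 := nrm_sq_le_card h1
  rw [Fintype.card_fin, div_pow, one_pow, Real.sq_sqrt n0.le, mul_one_div_cancel n0.ne'] at h2
  exact (pow_le_one_iff_of_nonneg (nrm_nonneg _) two_ne_zero).1 h2

theorem EvBP_union {q s n : ℕ} [NeZero q] (hq : 2 ≤ q) (hn : 1 ≤ n) {η : ℝ} (hη : 0 < η) :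
    pb (fun J : JT q s n => ¬ EvB η s (XJ J)) ≤
      16 * (s : ℝ) ^ 2 * (n : ℝ) ^ 5 *
        (Mk 32 / (n : ℝ) ^ 32 * Real.exp (Ck 32 * s / n) / η ^ (2 * 32)) := by
  set β := Mk 32 / (n : ℝ) ^ 32 * Real.exp (Ck 32 * s / n) / η ^ (2 * 32) with hβ
  have hM := Mk_pos 32
  have β0 : 0 ≤ β := by positivity
  have n1 : (1 : ℝ) ≤ n := by exact_mod_cast hn
  let P₁ : Fin s × Fin n × Fin (n + 1) × Fin (n + 1) × Fin s × Fin n → JT q s n → Prop :=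
    fun k J => k.2.2.2.2.1.val ≤ k.1.val ∧ η < ‖rowI (XJ J k.1) k.2.1 k.2.2.1 k.2.2.2.1 ⬝ᵥ
      (pr (XJ J) k.2.2.2.2.1 k.1 *ᵥ Pi.single k.2.2.2.2.2 1)‖
  let P₂ : Fin s × Fin n × Fin (n + 1) × Fin (n + 1) × Fin s × Fin n × Fin (n + 1) →
      JT q s n → Prop :=
    fun k J => k.2.2.2.2.1.val + 1 ≤ k.1.val ∧ η < ‖rowI (XJ J k.1) k.2.1 k.2.2.1 k.2.2.2.1 ⬝ᵥ
      (pr (XJ J) (k.2.2.2.2.1 + 1) k.1 *ᵥ colP (XJ J k.2.2.2.2.1) k.2.2.2.2.2.1 k.2.2.2.2.2.2)‖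
  have h1 : ∀ k, pb (P₁ k) ≤ β := fun k =>
    EvBP_one hq hn hη _ _ k.1.isLt (fun _ => Pi.single k.2.2.2.2.2 1) (fun _ _ _ _ => rfl)
      (fun _ => by rw [nrm_single, norm_one]) _ _ _
  have h2 : ∀ k, pb (P₂ k) ≤ β := fun k =>
    EvBP_one hq hn hη _ _ k.1.isLt
      (fun J => colP (XJ J k.2.2.2.2.1) k.2.2.2.2.2.1 k.2.2.2.2.2.2)
      (fun J l M hl => by rw [XJ_update_ne J l M (by omega)])
      (fun J => EvBP_col hn J _ _ _) _ _ _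
  have cov : ∀ J : JT q s n, ¬ EvB η s (XJ J) → (∃ k, P₁ k J) ∨ ∃ k, P₂ k J := by
    intro J hJ
    by_contra hcon
    rw [not_or, not_exists, not_exists] at hcon
    refine hJ fun l hl a u w i hi => ⟨fun c => ?_, fun i' hi' b j => ?_⟩
    · by_contra hlt
      exact hcon.1 (⟨l, hl⟩, a, u, w, ⟨i, by omega⟩, c) ⟨hi, not_le.1 hlt⟩
    · by_contra hlt
      subst hi'
      exact hcon.2 (⟨l, hl⟩, a, u, w, ⟨i', by omega⟩, b, j) ⟨hi, not_le.1 hlt⟩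
  have b1 := pb_exists_le_card P₁ h1
  have b2 := pb_exists_le_card P₂ h2
  simp only [Fintype.card_prod, Fintype.card_fin] at b1 b2
  push_cast at b1 b2
  have m1 : (n : ℝ) + 1 ≤ 2 * n := by linarith
  have m2 : (1 : ℝ) ≤ 2 * n := by linarith
  have c1 : (s : ℝ) * (n * ((n + 1) * ((n + 1) * (s * n)))) ≤ 8 * (s : ℝ) ^ 2 * (n : ℝ) ^ 5 := by
    calc (s : ℝ) * (n * ((n + 1) * ((n + 1) * (s * n))))
        = s * (n * ((n + 1) * ((n + 1) * (s * (n * 1))))) := by ring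
      _ ≤ s * (n * ((2 * n) * ((2 * n) * (s * (n * (2 * n)))))) := by gcongr
      _ = _ := by ring
  have c2 : (s : ℝ) * (n * ((n + 1) * ((n + 1) * (s * (n * (n + 1)))))) ≤
      8 * (s : ℝ) ^ 2 * (n : ℝ) ^ 5 := by
    calc (s : ℝ) * (n * ((n + 1) * ((n + 1) * (s * (n * (n + 1))))))
        ≤ s * (n * ((2 * n) * ((2 * n) * (s * (n * (2 * n)))))) := by gcongr
      _ = _ := by ring
  have d1 := mul_le_mul_of_nonneg_right c1 β0
  have d2 := mul_le_mul_of_nonneg_right c2 β0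
  have e := (pb_mono cov).trans (pb_or_le _ _)
  linarith

/-- With high probability all elementary quantities are small. -/
theorem evB_prob (q : ℕ) [NeZero q] (hq : 2 ≤ q) (h : ℕ) {c : ℝ} (hc : 0 < c) :
    ∀ᶠ n : ℕ in atTop,
      pb (fun J : JT q (h * n) n => ¬ EvB ((n : ℝ) ^ (-(3 / 8 : ℝ))) (h * n) (XJ J)) ≤ c := by
  filter_upwards [eventually_ge_atTop 1, tendsto_natCast_atTop_atTop.eventually_ge_atTop
    (16 * (h : ℝ) ^ 2 * Mk 32 * Real.exp (Ck 32 * h) / c)] with n hn hn2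
  have n0 : (0 : ℝ) < n := by exact_mod_cast hn
  refine (EvBP_union hq hn (Real.rpow_pos_of_pos n0 _)).trans ?_
  have e1 : ((n : ℝ) ^ (-(3 / 8 : ℝ))) ^ (2 * 32) = ((n : ℝ) ^ 24)⁻¹ := by
    rw [← Real.rpow_natCast, ← Real.rpow_mul n0.le, ← Real.rpow_natCast, ← Real.rpow_neg n0.le]
    norm_num
  have e2 : Ck 32 * ((h * n : ℕ) : ℝ) / n = Ck 32 * h := by
    push_cast
    field_simp
  rw [e1, e2]
  have e3 : 16 * ((h * n : ℕ) : ℝ) ^ 2 * (n : ℝ) ^ 5 *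
      (Mk 32 / (n : ℝ) ^ 32 * Real.exp (Ck 32 * h) / ((n : ℝ) ^ 24)⁻¹) =
      16 * (h : ℝ) ^ 2 * Mk 32 * Real.exp (Ck 32 * h) / n := by
    push_cast
    field_simp
  rw [e3, div_le_iff₀ n0]
  rw [div_le_iff₀ hc] at hn2
  linarith

end Pool.Agent.Lib.MP_8a52c3_lc.Ac0
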