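import Pool.Agent.Lib.MP_8a52c3_lc.Ac0.Fib
import Pool.Agent.Lib.MP_8a52c3_lc.Ac0.EvA
import Pool.Agent.Lib.MP_8a52c3_lc.Ac0.EvBP

namespace Pool.Agent.Lib.MP_8a52c3_lc.Ac0

open Matrix Filter
open scoped BigOperators

/-- Part III: the ball event has constant probability. -/
theorem ball_prob (q : ℕ) [NeZero q] (hq : 2 ≤ q) {η δ : ℝ} (hη : 0 < η) (hδ : 0 < δ) :
    ∃ h : ℕ, 1 ≤ h ∧ ∃ c : ℝ, 0 < c ∧ ∀ᶠ n : ℕ in atTop, ∀ L : ℕ, L ^ 40 ≤ n →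
      c ≤ pb (Ball η δ L : Gam q (h * n) n → Prop) := by
  obtain ⟨ε, hε, hfib⟩ := ball_fibre q hq hη hδ
  obtain ⟨h, hh, c, hc, hA⟩ := evA_prob q hq hε
  have hM : 0 < 1 / (16 * Mk 2) := by
    have := Mk_pos 2
    positivity
  refine ⟨h, hh, c / 2 * (1 / (16 * Mk 2)), by positivity, ?_⟩
  filter_upwards [hfib h hh, evB_prob q hq h (half_pos hc), eventually_ge_atTop 1]
    with n h1 h2 h3 L hL
  have h4 := pb_and_ge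
    (fun J : JT q (h * n) n =>
      Lam (PJ J) ≤ ε * fro (PJ J) ^ 4 ∧ (n : ℝ) / 2 ≤ fro (PJ J) ^ 2)
    (fun J : JT q (h * n) n => EvB ((n : ℝ) ^ (-(3 / 8 : ℝ))) (h * n) (XJ J))
  have h5 := pb_prod_ge (Ball η δ L : Gam q (h * n) n → Prop)
    (fun J : JT q (h * n) n =>
      (Lam (PJ J) ≤ ε * fro (PJ J) ^ 4 ∧ (n : ℝ) / 2 ≤ fro (PJ J) ^ 2) ∧
        EvB ((n : ℝ) ^ (-(3 / 8 : ℝ))) (h * n) (XJ J)) hM.le
    (fun J hJ => h1 L hL J hJ.1.1 hJ.1.2 hJ.2)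
  have h6 := hA n h3
  refine le_trans (mul_le_mul_of_nonneg_right ?_ hM.le) h5
  linarith

end Pool.Agent.Lib.MP_8a52c3_lc.Ac0
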