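import Pool.Agent.Lib.MP_8a52c3_lc.Ac0.Sub

namespace Pool.Agent.Lib.MP_8a52c3_lc.Ac0

open Matrix Filter
open scoped BigOperators

variable {q n : ℕ} [NeZero q]

theorem norm_mat (M : Fin n → Fin n → ZMod q) (a b : Fin n) :
    ‖mat M a b‖ = 1 / Real.sqrt n := by
  rw [mat, Matrix.of_apply, norm_div, norm_ec, Complex.norm_real, Real.norm_eq_abs,
    abs_of_nonneg (Real.sqrt_nonneg _)]

theorem LamRec_row (hq : 2 ≤ q) (v : Fin n → ℂ) :
    𝔼 r : Fin n → ZMod q, ‖∑ a, ec (r a) / (Real.sqrt n : ℂ) * v a‖ ^ 2 =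
      (∑ a, ‖v a‖ ^ 2) / n := by
  have h := sub_sq hq fun a => v a / (Real.sqrt n : ℂ)
  have e : ∀ r : Fin n → ZMod q, ∑ a, ec (r a) / (Real.sqrt n : ℂ) * v a =
      ∑ a, ec (r a) * (v a / (Real.sqrt n : ℂ)) := fun r =>
    Finset.sum_congr rfl fun a _ => by ring
  simp only [e]
  rw [h, nrm_sq, Finset.sum_div]
  refine Finset.sum_congr rfl fun a _ => ?_
  rw [norm_div, div_pow, Complex.norm_real, Real.norm_eq_abs, sq_abs,
    Real.sq_sqrt (Nat.cast_nonneg n)]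

theorem row_sq (hq : 2 ≤ q) (v : Fin n → ℂ) :
    𝔼 M : Fin n → Fin n → ZMod q, nrm (mat M *ᵥ v) ^ 2 = nrm v ^ 2 := by
  have e : ∀ M : Fin n → Fin n → ZMod q, nrm (mat M *ᵥ v) ^ 2 =
      ∑ c, ‖∑ a, ec (M c a) / (Real.sqrt n : ℂ) * v a‖ ^ 2 := fun M => nrm_sq _
  simp only [e]
  rw [Finset.expect_sum_comm]
  have e2 : ∀ c : Fin n, 𝔼 M : Fin n → Fin n → ZMod q,
      ‖∑ a, ec (M c a) / (Real.sqrt n : ℂ) * v a‖ ^ 2 = (∑ a, ‖v a‖ ^ 2) / n := fun c =>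
    (expect_coord c fun r : Fin n → ZMod q =>
      ‖∑ a, ec (r a) / (Real.sqrt n : ℂ) * v a‖ ^ 2).trans (LamRec_row hq v)
  simp only [e2]
  rw [Finset.sum_const, Finset.card_univ, Fintype.card_fin, nsmul_eq_mul, nrm_sq]
  rcases Nat.eq_zero_or_pos n with rfl | hn
  · simp
  · have : (n : ℝ) ≠ 0 := by positivity
    field_simp

theorem LamRec_eq (P : Matrix (Fin n) (Fin n) ℂ) : Lam P = ∑ c, ∑ d,
    ((∑ b, ‖P c b‖ ^ 2) * (∑ b, ‖P d b‖ ^ 2) - ‖(P * Pᴴ) c d‖ ^ 2) := by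
  have e : fro P ^ 4 = fro P ^ 2 * fro P ^ 2 := by ring
  rw [Lam, e, fro_sq, fro_sq, Finset.sum_mul_sum, ← Finset.sum_sub_distrib]
  exact Finset.sum_congr rfl fun c _ => (Finset.sum_sub_distrib _ _).symm

theorem LamRec_cs (P : Matrix (Fin n) (Fin n) ℂ) (c d : Fin n) :
    ‖(P * Pᴴ) c d‖ ^ 2 ≤ (∑ b, ‖P c b‖ ^ 2) * ∑ b, ‖P d b‖ ^ 2 := by
  have h : ‖(P * Pᴴ) c d‖ ≤ nrm (P c) * nrm fun b => star (P d b) :=
    norm_dot_le (P c) fun b => star (P d b)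
  have h2 : nrm (fun b => star (P d b)) = nrm (P d) := nrm_congr_norm fun b => norm_star _
  rw [h2] at h
  rw [← nrm_sq (P c), ← nrm_sq (P d), ← mul_pow]
  exact pow_le_pow_left₀ (norm_nonneg _) h 2

theorem LamRec_diag (P : Matrix (Fin n) (Fin n) ℂ) (c : Fin n) :
    ‖(P * Pᴴ) c c‖ ^ 2 = (∑ b, ‖P c b‖ ^ 2) * ∑ b, ‖P c b‖ ^ 2 := by
  have h : (P * Pᴴ) c c = ((∑ b, ‖P c b‖ ^ 2 : ℝ) : ℂ) := by
    rw [Matrix.mul_apply, Complex.ofReal_sum]
    refine Finset.sum_congr rfl fun b _ => ?_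
    rw [Matrix.conjTranspose_apply, Complex.star_def, Complex.mul_conj, Complex.normSq_eq_norm_sq]
  rw [h, Complex.norm_real, Real.norm_eq_abs, sq_abs, sq]

theorem Lam_nonneg (P : Matrix (Fin n) (Fin n) ℂ) : 0 ≤ Lam P := by
  rw [LamRec_eq]
  exact Finset.sum_nonneg fun c _ => Finset.sum_nonneg fun d _ => sub_nonneg.2 (LamRec_cs P c d)

theorem Lam_one_le : Lam (1 : Matrix (Fin n) (Fin n) ℂ) ≤ (n : ℝ) ^ 2 := by
  have e : fro (1 : Matrix (Fin n) (Fin n) ℂ) ^ 4 = (n : ℝ) ^ 2 := by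
    rw [← fro_one_sq]
    ring
  rw [Lam, e]
  exact sub_le_self _ (sq_nonneg _)

theorem LamRec_two {α : Type} [Fintype α] [Nonempty α] {c d : Fin n} (h : c ≠ d)
    (f : α → α → ℝ) : 𝔼 M : Fin n → α, f (M c) (M d) = 𝔼 r', 𝔼 r, f r r' := by
  rw [expect_update c fun M : Fin n → α => f (M c) (M d)]
  simp only [Function.update_self, Function.update_of_ne h.symm]
  exact expect_coord d fun r' => 𝔼 r, f r r'

theorem LamRec_rows (hq : 2 ≤ q) (P : Matrix (Fin n) (Fin n) ℂ) :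
    𝔼 r : Fin n → ZMod q, ∑ b, ‖∑ a, ec (r a) / (Real.sqrt n : ℂ) * P a b‖ ^ 2 =
      fro P ^ 2 / n := by
  rw [Finset.expect_sum_comm, fro_sq, Finset.sum_comm, Finset.sum_div]
  exact Finset.sum_congr rfl fun b _ => LamRec_row hq fun a => P a b

theorem LamRec_off (hq : 2 ≤ q) (P : Matrix (Fin n) (Fin n) ℂ) {c d : Fin n} (h : c ≠ d) :
    𝔼 M : Fin n → Fin n → ZMod q, ((∑ b, ‖(mat M * P) c b‖ ^ 2) * (∑ b, ‖(mat M * P) d b‖ ^ 2) -
      ‖(mat M * P * (mat M * P)ᴴ) c d‖ ^ 2) = Lam P / (n : ℝ) ^ 2 := by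
  let R : (Fin n → ZMod q) → ℝ := fun r =>
    ∑ b, ‖∑ a, ec (r a) / (Real.sqrt n : ℂ) * P a b‖ ^ 2
  let H : (Fin n → ZMod q) → (Fin n → ZMod q) → ℝ := fun r r' =>
    ‖∑ a, ec (r a) / (Real.sqrt n : ℂ) *
      ∑ a', (P * Pᴴ) a a' * star (ec (r' a') / (Real.sqrt n : ℂ))‖ ^ 2
  have e1 : ∀ M : Fin n → Fin n → ZMod q,
      (∑ b, ‖(mat M * P) c b‖ ^ 2) * (∑ b, ‖(mat M * P) d b‖ ^ 2) = R (M c) * R (M d) :=
    fun M => rfl
  have e2 : ∀ M : Fin n → Fin n → ZMod q,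
      ‖(mat M * P * (mat M * P)ᴴ) c d‖ ^ 2 = H (M c) (M d) := fun M => by
    have : mat M * P * (mat M * P)ᴴ = mat M * (P * Pᴴ * (mat M)ᴴ) := by
      rw [Matrix.conjTranspose_mul]
      simp only [Matrix.mul_assoc]
    rw [this]
    rfl
  have hR : 𝔼 r, R r = fro P ^ 2 / n := LamRec_rows hq P
  have hH : ∀ r', 𝔼 r, H r r' = (∑ a, ‖∑ a', ec (r' a') / (Real.sqrt n : ℂ) *
      star ((P * Pᴴ) a a')‖ ^ 2) / n := fun r' => by
    refine (LamRec_row hq _).trans ?_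
    congr 1
    refine Finset.sum_congr rfl fun a _ => ?_
    rw [← norm_star, star_sum]
    congr 2
    refine Finset.sum_congr rfl fun a' _ => ?_
    rw [star_mul, star_star]
  have hH' : 𝔼 r', 𝔼 r, H r r' = fro (P * Pᴴ) ^ 2 / n / n := by
    simp only [hH]
    rw [← Finset.expect_div, Finset.expect_sum_comm]
    congr 1
    rw [fro_sq, Finset.sum_div]
    refine Finset.sum_congr rfl fun a _ => ?_
    rw [LamRec_row hq fun a' => star ((P * Pᴴ) a a')]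
    simp only [norm_star]
  simp only [e1, e2]
  rw [Finset.expect_sub_distrib, LamRec_two h fun r r' => R r * R r', LamRec_two h H, hH']
  simp only [← Finset.expect_mul, ← Finset.mul_expect, hR]
  rw [Lam]
  ring

/-- Exact contraction of the second exterior power. -/
theorem lam_rec (hq : 2 ≤ q) (hn : 1 ≤ n) (P : Matrix (Fin n) (Fin n) ℂ) :
    𝔼 M : Fin n → Fin n → ZMod q, Lam (mat M * P) = (1 - 1 / (n : ℝ)) * Lam P := by
  simp only [LamRec_eq (mat _ * P)]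
  rw [Finset.expect_sum_comm]
  have e : ∀ c : Fin n, 𝔼 M : Fin n → Fin n → ZMod q, ∑ d,
      ((∑ b, ‖(mat M * P) c b‖ ^ 2) * (∑ b, ‖(mat M * P) d b‖ ^ 2) -
        ‖(mat M * P * (mat M * P)ᴴ) c d‖ ^ 2) = ((n : ℝ) - 1) * (Lam P / (n : ℝ) ^ 2) := by
    intro c
    rw [Finset.expect_sum_comm, ← Finset.add_sum_erase _ _ (Finset.mem_univ c),
      Finset.sum_congr rfl fun d hd => LamRec_off hq P (Finset.ne_of_mem_erase hd).symm]
    simp only [LamRec_diag, sub_self, Finset.expect_const_zero, zero_add]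
    rw [Finset.sum_const, Finset.card_erase_of_mem (Finset.mem_univ c), Finset.card_univ,
      Fintype.card_fin, nsmul_eq_mul, Nat.cast_sub hn, Nat.cast_one]
  simp only [e]
  rw [Finset.sum_const, Finset.card_univ, Fintype.card_fin, nsmul_eq_mul]
  have : (n : ℝ) ≠ 0 := by positivity
  field_simp

end Pool.Agent.Lib.MP_8a52c3_lc.Ac0
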