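import Pool.Agent.Lib.MP_8a52c3_lc.Ac0.GDefs

/-! The equation lemmas of `pr` are generated here, once for all files. -/

namespace Pool.Agent.Lib.MP_8a52c3_lc.Ac0

theorem pr_eqns : True := by
  have := @pr.eq_def
  have := @pr.eq_1
  have := @pr.eq_2
  trivial

end Pool.Agent.Lib.MP_8a52c3_lc.Ac0
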