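import Pool.Agent.Lib.MP_8a52c3_lc.Ac0.Mom
import Pool.Agent.Lib.MP_8a52c3_lc.Ac0.PrEq
import Pool.Agent.Lib.MP_8a52c3_lc.Ac0.LamRec

namespace Pool.Agent.Lib.MP_8a52c3_lc.Ac0

open Matrix Filter
open scoped BigOperators

variable {q s n : ℕ} [NeZero q]

theorem pr_of_le (X : ℕ → Matrix (Fin n) (Fin n) ℂ) {i j : ℕ} (h : j ≤ i) : pr X i j = 1 := by
  cases j with
  | zero => rfl
  | succ j => rw [pr, if_neg (by omega)]

theorem pr_succ (X : ℕ → Matrix (Fin n) (Fin n) ℂ) {i j : ℕ} (h : i ≤ j) :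
    pr X i (j + 1) = X j * pr X i j := by
  rw [pr, if_pos h]

theorem pr_congr {X Y : ℕ → Matrix (Fin n) (Fin n) ℂ} (i j : ℕ) (h : ∀ l < j, X l = Y l) :
    pr X i j = pr Y i j := by
  induction j with
  | zero => rfl
  | succ j ih =>
    rw [pr, pr, h j (Nat.lt_succ_self j), ih fun l hl => h l (Nat.lt_succ_of_lt hl)]

theorem XJ_update_self (J : JT q s n) (l : Fin s) (M : Fin n → Fin n → ZMod q) :
    XJ (Function.update J l M) l.val = mat M := by
  rw [XJ, dif_pos l.isLt]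
  simp only [Fin.eta, Function.update_self]

theorem XJ_update_ne (J : JT q s n) (l : Fin s) (M : Fin n → Fin n → ZMod q) {l' : ℕ}
    (h : l' ≠ l.val) : XJ (Function.update J l M) l' = XJ J l' := by
  unfold XJ
  split_ifs with h'
  · rw [Function.update_of_ne fun e => h (congrArg Fin.val e)]
  · rfl

theorem Chain_pr_update (J : JT q s n) (l : Fin s) (M : Fin n → Fin n → ZMod q) (i : ℕ) :
    pr (XJ (Function.update J l M)) i l.val = pr (XJ J) i l.val :=
  pr_congr _ _ fun _ hl => XJ_update_ne J l M hl.ne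

/-- Resampling the last layer. -/
theorem Chain_step (i : ℕ) (l : Fin s) (α : JT q s n → Fin n → ℂ)
    (hα : ∀ (J : JT q s n) (M : Fin n → Fin n → ZMod q), α (Function.update J l M) = α J)
    (G : Matrix (Fin n) (Fin n) ℂ → Matrix (Fin n) (Fin n) ℂ → (Fin n → ℂ) → ℝ) :
    𝔼 J : JT q s n, G (XJ J l.val) (pr (XJ J) i l.val) (α J) =
      𝔼 J : JT q s n, 𝔼 M : Fin n → Fin n → ZMod q, G (mat M) (pr (XJ J) i l.val) (α J) := by
  rw [expect_update l]
  simp only [XJ_update_self, Chain_pr_update, hα]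

theorem Chain_mom (hq : 2 ≤ q) (hn : 1 ≤ n) (i j : ℕ) (hj : j ≤ s) (α : JT q s n → Fin n → ℂ)
    (hα : ∀ (J : JT q s n) (l : Fin s) (M : Fin n → Fin n → ZMod q), i ≤ l.val →
      α (Function.update J l M) = α J) (h1 : ∀ J, nrm (α J) ≤ 1) (k : ℕ) :
    𝔼 J : JT q s n, nrm (pr (XJ J) i j *ᵥ α J) ^ (2 * k) ≤ Real.exp (Ck k * j / n) := by
  have base : ∀ j : ℕ, j ≤ i →
      𝔼 J : JT q s n, nrm (pr (XJ J) i j *ᵥ α J) ^ (2 * k) ≤ Real.exp (Ck k * j / n) := by
    intro j hj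
    refine Finset.expect_le Finset.univ_nonempty fun J _ => ?_
    rw [pr_of_le _ hj, one_mulVec]
    have := Ck_nonneg k
    exact (pow_le_one₀ (nrm_nonneg _) (h1 J)).trans (Real.one_le_exp (by positivity))
  induction j with
  | zero => exact base 0 (Nat.zero_le _)
  | succ j ih =>
    rcases le_or_gt i j with hij | hij
    · have e := Chain_step i ⟨j, hj⟩ α (fun J M => hα J _ M hij)
        fun X P v => nrm (X *ᵥ (P *ᵥ v)) ^ (2 * k)
      simp only [pr_succ _ hij, ← mulVec_mulVec]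
      rw [e]
      refine (Finset.expect_le_expect fun J _ => row_mom hq hn _ k).trans ?_
      rw [← Finset.mul_expect]
      refine (mul_le_mul_of_nonneg_left (ih (by omega)) (Real.exp_pos _).le).trans ?_
      rw [← Real.exp_add]
      refine le_of_eq (congrArg _ ?_)
      push_cast
      ring
    · exact base _ hij

theorem chain_mom (hq : 2 ≤ q) (hn : 1 ≤ n) (i j : ℕ) (hj : j ≤ s) (α : JT q s n → Fin n → ℂ)
    (hα : ∀ (J : JT q s n) (l : Fin s) (M : Fin n → Fin n → ZMod q), i ≤ l.val →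
      α (Function.update J l M) = α J) (h1 : ∀ J, nrm (α J) ≤ 1) (k : ℕ) :
    𝔼 J : JT q s n, nrm (pr (XJ J) i j *ᵥ α J) ^ (2 * k) ≤ Real.exp (Ck k * s / n) := by
  refine (Chain_mom hq hn i j hj α hα h1 k).trans (Real.exp_le_exp.2 ?_)
  have := Ck_nonneg k
  gcongr

theorem chain_elem (hq : 2 ≤ q) (hn : 1 ≤ n) (i l : ℕ) (hi : i ≤ l) (hl : l < s)
    (α : JT q s n → Fin n → ℂ)
    (hα : ∀ (J : JT q s n) (l : Fin s) (M : Fin n → Fin n → ZMod q), i ≤ l.val →
      α (Function.update J l M) = α J) (h1 : ∀ J, nrm (α J) ≤ 1) (k : ℕ) (a : Fin n)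
    (u w : Fin (n + 1)) :
    𝔼 J : JT q s n, ‖rowI (XJ J l) a u w ⬝ᵥ (pr (XJ J) i l *ᵥ α J)‖ ^ (2 * k) ≤
      Mk k / (n : ℝ) ^ k * Real.exp (Ck k * s / n) := by
  have e := Chain_step i ⟨l, hl⟩ α (fun J M => hα J _ M hi)
    fun X P v => ‖rowI X a u w ⬝ᵥ (P *ᵥ v)‖ ^ (2 * k)
  rw [e]
  refine (Finset.expect_le_expect fun J _ => rowI_mom hq hn _ k a u w).trans ?_
  rw [← Finset.mul_expect]
  have := (Mk_pos k).le
  exact mul_le_mul_of_nonneg_left (chain_mom hq hn i l hl.le α hα h1 k) (by positivity)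

theorem exp_fro_sq (hq : 2 ≤ q) : 𝔼 J : JT q s n, fro (PJ J) ^ 2 = n := by
  have key : ∀ j ≤ s, 𝔼 J : JT q s n, fro (pr (XJ J) 0 j) ^ 2 = n := by
    intro j
    induction j with
    | zero =>
      intro _
      simp only [pr_of_le _ le_rfl, fro_one_sq]
      exact Fintype.expect_const _
    | succ j ih =>
      intro hj
      have e := Chain_step (q := q) (n := n) 0 ⟨j, hj⟩ (fun _ => 0) (fun _ _ => rfl)
        fun X P _ => fro (X * P) ^ 2
      simp only [pr_succ _ (Nat.zero_le j)]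
      rw [e, ← ih (by omega)]
      refine Finset.expect_congr rfl fun J _ => ?_
      simp only [fro_sq_cols, ← mulVec_mulVec]
      rw [Finset.expect_sum_comm]
      exact Finset.sum_congr rfl fun b _ => row_sq hq _
  exact key s le_rfl

theorem exp_Lam (hq : 2 ≤ q) (hn : 1 ≤ n) :
    𝔼 J : JT q s n, Lam (PJ J) ≤ (1 - 1 / (n : ℝ)) ^ s * (n : ℝ) ^ 2 := by
  have h0 : (0 : ℝ) ≤ 1 - 1 / (n : ℝ) := by
    have : (1 : ℝ) ≤ n := by exact_mod_cast hn
    rw [sub_nonneg, div_le_one (by linarith)]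
    exact this
  have key : ∀ j ≤ s, 𝔼 J : JT q s n, Lam (pr (XJ J) 0 j) ≤
      (1 - 1 / (n : ℝ)) ^ j * (n : ℝ) ^ 2 := by
    intro j
    induction j with
    | zero =>
      intro _
      refine Finset.expect_le Finset.univ_nonempty fun J _ => ?_
      rw [pr_of_le _ le_rfl, pow_zero, one_mul]
      exact Lam_one_le
    | succ j ih =>
      intro hj
      have e := Chain_step (q := q) (n := n) 0 ⟨j, hj⟩ (fun _ => 0) (fun _ _ => rfl)
        fun X P _ => Lam (X * P)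
      simp only [pr_succ _ (Nat.zero_le j)]
      rw [e]
      simp only [lam_rec hq hn]
      rw [← Finset.mul_expect, pow_succ', mul_assoc]
      exact mul_le_mul_of_nonneg_left (ih (by omega)) h0
  exact key s le_rfl

theorem exp_fro8 (hq : 2 ≤ q) (hn : 1 ≤ n) :
    𝔼 J : JT q s n, fro (PJ J) ^ 8 ≤ (n : ℝ) ^ 4 * Real.exp (Ck 4 * s / n) := by
  have h1 : ∀ J : JT q s n, fro (PJ J) ^ 8 ≤
      (n : ℝ) ^ 3 * ∑ b, nrm (pr (XJ J) 0 s *ᵥ Pi.single b 1) ^ (2 * 4) := by
    intro J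
    have h2 := pow_sum_le_card_mul_sum_pow (s := Finset.univ)
      (f := fun b : Fin n => nrm (PJ J *ᵥ Pi.single b 1) ^ 2) (fun b _ => sq_nonneg _) 3
    rw [← fro_sq_cols, Finset.card_univ, Fintype.card_fin, ← pow_mul] at h2
    simp only [← pow_mul] at h2
    exact h2
  refine (Finset.expect_le_expect fun J _ => h1 J).trans ?_
  rw [← Finset.mul_expect, Finset.expect_sum_comm, pow_succ (n : ℝ) 3, mul_assoc]
  refine mul_le_mul_of_nonneg_left ?_ (by positivity)
  refine (Finset.sum_le_sum fun b _ => chain_mom hq hn 0 s le_rfl (fun _ => Pi.single b 1)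
    (fun _ _ _ _ => rfl) (fun _ => by rw [nrm_single, norm_one]) 4).trans ?_
  rw [Finset.sum_const, Finset.card_univ, Fintype.card_fin, nsmul_eq_mul]

end Pool.Agent.Lib.MP_8a52c3_lc.Ac0
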