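import Pool.Agent.Lib.MP_8a52c3_lc.Ac0.GDefs

namespace Pool.Agent.Lib.MP_8a52c3_lc.Ac0

open Matrix Filter
open scoped BigOperators

variable {F Z : Type} {q : ℕ} [Field F] [Fintype Z] [DecidableEq Z] [NeZero q]

theorem hammingNorm_add_le' (m m' : Z → ZMod q) :
    hammingNorm (m + m') ≤ hammingNorm m + hammingNorm m' := by
  refine le_trans (Finset.card_le_card fun z hz => ?_) (Finset.card_union_le _ _)
  simp only [Finset.mem_union, Finset.mem_filter, Finset.mem_univ, true_and, Pi.add_apply] at hz ⊢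
  by_contra h
  rw [not_or, not_not, not_not] at h
  exact hz (by rw [h.1, h.2, add_zero])

theorem hammingNorm_single_le (z : Z) (c : ZMod q) :
    hammingNorm (Pi.single z c : Z → ZMod q) ≤ 1 := by
  refine (Finset.card_le_card (t := {z}) fun y hy => ?_).trans (Finset.card_singleton z).le
  rw [Finset.mem_singleton]
  by_contra h
  exact (Finset.mem_filter.1 hy).2 (by simp [h])

theorem hammingNorm_neg' (m : Z → ZMod q) : hammingNorm (-m) = hammingNorm m := by
  simp [hammingNorm]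

/-- The character of a coefficient vector. -/
def Chr_hom (ζ : AddChar (ZMod q) F) (m : Z → ZMod q) : Multiplicative (Z → ZMod q) →* F where
  toFun x := ζ (m ⬝ᵥ x.toAdd)
  map_one' := by simp
  map_mul' x y := by simp [dotProduct_add, AddChar.map_add_eq_mul]

/-- The characters form a basis. -/
theorem exists_chr_basis (ζ : AddChar (ZMod q) F) (hζ : Function.Injective ζ) :
    ∃ b : Module.Basis (Z → ZMod q) F ((Z → ZMod q) → F), ∀ m x, b m x = ζ (m ⬝ᵥ x) := by
  have h1 : Function.Injective (Chr_hom ζ : (Z → ZMod q) → _) := fun m m' h => by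
    funext z
    have h2 : ζ (m ⬝ᵥ Pi.single z 1) = ζ (m' ⬝ᵥ Pi.single z 1) :=
      DFunLike.congr_fun h (Multiplicative.ofAdd (Pi.single z 1))
    simpa using hζ h2
  have h2 : LinearIndependent F fun (m : Z → ZMod q) (x : Z → ZMod q) => ζ (m ⬝ᵥ x) :=
    (linearIndependent_monoidHom (Multiplicative (Z → ZMod q)) F).comp _ h1
  exact ⟨basisOfLinearIndependentOfCardEqFinrank h2 (by simp), fun m x => by simp⟩

/-- Fourier expansion of the indicator of `x z = c`. -/
theorem ind_eq_sum (ζ : AddChar (ZMod q) F) (hζ : Function.Injective ζ) (hq : (q : F) ≠ 0)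
    (z : Z) (c : ZMod q) :
    ind F (fun x : Z → ZMod q => decide (x z = c)) =
      ∑ j : ZMod q, ((q : F)⁻¹ * ζ (-(j * c))) •
        fun x : Z → ZMod q => ζ ((Pi.single z j : Z → ZMod q) ⬝ᵥ x) := by
  funext x
  have h1 := AddChar.sum_mulShift (x z - c) (AddChar.zmod_char_primitive_of_eq_one_only_at_zero q ζ
    fun a ha => AddChar.injective_iff.1 hζ ha)
  have h2 : ∀ j : ZMod q, (q : F)⁻¹ * ζ (-(j * c)) * ζ (j * x z) = (q : F)⁻¹ * ζ (j * (x z - c)) :=
    fun j => by rw [mul_assoc, ← AddChar.map_add_eq_mul]; congr 2; ring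
  simp only [Finset.sum_apply, Pi.smul_apply, smul_eq_mul, single_dotProduct, h2,
    ← Finset.mul_sum, h1, ind, decide_eq_true_eq, sub_eq_zero, ZMod.card]
  split_ifs
  · exact (inv_mul_cancel₀ hq).symm
  · simp

theorem Chr_field (p q : ℕ) [Fact p.Prime] [NeZero q] (h : ¬ p ∣ q) :
    ∃ (F : Type) (_ : Field F) (_ : CharP F p) (ζ : AddChar (ZMod q) F),
      Function.Injective ζ ∧ (q : F) ≠ 0 := by
  have h1 : ((q : ℕ) : AlgebraicClosure (ZMod p)) ≠ 0 := fun h1 =>
    h ((CharP.cast_eq_zero_iff _ p q).1 h1)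
  have : NeZero ((q : ℕ) : AlgebraicClosure (ZMod p)) := ⟨h1⟩
  obtain ⟨ζ, hζ⟩ := HasEnoughRootsOfUnity.exists_primitiveRoot (AlgebraicClosure (ZMod p)) q
  exact ⟨AlgebraicClosure (ZMod p), inferInstance, inferInstance, _,
    AddChar.injective_iff.2 fun a ha =>
      ((AddChar.zmodChar_primitive_of_primitive_root q hζ).zmod_char_eq_one_iff q a).1 ha, h1⟩

/-- For every prime `p` there is `q ∈ {2, 3}` and a field of characteristic `p` with a faithful
character of `ZMod q`. -/
theorem exists_field (p : ℕ) [Fact p.Prime] :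
    ∃ (q : ℕ) (_ : NeZero q), 2 ≤ q ∧ q ≤ 3 ∧ ∃ (F : Type) (_ : Field F) (_ : CharP F p)
      (ζ : AddChar (ZMod q) F), Function.Injective ζ ∧ (q : F) ≠ 0 := by
  by_cases h : p = 2
  · exact ⟨3, inferInstance, by norm_num, le_rfl, Chr_field p 3 (by rw [h]; norm_num)⟩
  · exact ⟨2, inferInstance, le_rfl, by norm_num, Chr_field p 2 fun h1 =>
      h ((Nat.prime_dvd_prime_iff_eq Fact.out Nat.prime_two).1 h1)⟩

end Pool.Agent.Lib.MP_8a52c3_lc.Ac0
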