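import Pool.Agent.Lib.MP_8a52c3_lc.Ac0.PMDefs

namespace Pool.Agent.Lib.MP_8a52c3_lc.Ac0

open Module

variable {F D V V₀ : Type} [Field F] [AddCommGroup V] [Module F V] [AddCommGroup V₀]
  [Module F V₀] {L : ℕ}

theorem ind_not (a : D → Bool) : ind F (fun x => !(a x)) = 1 - ind F a := by
  funext x
  cases h : a x <;> simp [ind, h]

theorem ind_and (a b : D → Bool) : ind F (fun x => a x && b x) = ind F a * ind F b := by
  funext x
  cases h : a x <;> cases h' : b x <;> simp [ind, h, h']

theorem ind_or (a b : D → Bool) :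
    ind F (fun x => a x || b x) = ind F a + ind F b - ind F a * ind F b := by
  funext x
  cases h : a x <;> cases h' : b x <;> simp [ind, h, h']

theorem ind_mul_self (a : D → Bool) : ind F a * ind F a = ind F a := by
  funext x
  cases h : a x <;> simp [ind, h]

namespace PM

variable (M : PM F D V V₀ L)

theorem one_mem' (k : ℕ) : (1 : D → F) ∈ M.P k := by
  exact M.mono 0 k (Nat.zero_le k) M.one_mem

theorem pow_mem {k : ℕ} {f : D → F} (hf : f ∈ M.P k) (j : ℕ) : f ^ j ∈ M.P (j * k) := by
  induction j with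
  | zero => rw [pow_zero]; exact M.one_mem' _
  | succ j ih => rw [pow_succ, Nat.succ_mul]; exact M.mul_mem _ _ _ _ ih hf

theorem ann_mul {a b : ℕ} {f g : D → F} {v : V₀} (hg : g ∈ M.P a) (hf : f ∈ M.P b)
    (hab : a + b ≤ L) (h0 : M.Φ f v = 0) : M.Φ (g * f) v = 0 := by
  obtain ⟨T, hT⟩ := M.op a g hg
  rw [hT b f hf hab, h0, map_zero]

theorem ind_not_mem {k : ℕ} {a : D → Bool} (ha : ind F a ∈ M.P k) :
    ind F (fun x => !(a x)) ∈ M.P k := by
  rw [ind_not]
  exact (M.P k).sub_mem (M.one_mem' k) ha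

theorem ind_and_mem {k l : ℕ} {a b : D → Bool} (ha : ind F a ∈ M.P k) (hb : ind F b ∈ M.P l) :
    ind F (fun x => a x && b x) ∈ M.P (k + l) := by
  rw [ind_and]
  exact M.mul_mem _ _ _ _ ha hb

theorem ind_or_mem {k l : ℕ} {a b : D → Bool} (ha : ind F a ∈ M.P k) (hb : ind F b ∈ M.P l) :
    ind F (fun x => a x || b x) ∈ M.P (k + l) := by
  rw [ind_or]
  exact (M.P _).sub_mem ((M.P _).add_mem (M.mono _ _ (Nat.le_add_right k l) ha)
    (M.mono _ _ (Nat.le_add_left l k) hb)) (M.mul_mem _ _ _ _ ha hb)

/-- Cover lemma. -/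
theorem cover (v : V₀) (k : ℕ) (Ds : List (D → Bool)) (f : D → Bool) (hf : ind F f ∈ M.P k)
    (hD : ∀ d ∈ Ds, M.Kill v k d) (hcov : ∀ x, f x = true → ∃ d ∈ Ds, d x = true)
    (hL : (Ds.length + 1) * k ≤ L) : M.Φ (ind F f) v = 0 := by
  have key : ∀ (Ds : List (D → Bool)) (f : D → Bool) (m : ℕ), ind F f ∈ M.P m →
      (∀ d ∈ Ds, M.Kill v k d) → (∀ x, f x = true → ∃ d ∈ Ds, d x = true) →
      Ds.length * k + m ≤ L → M.Φ (ind F f) v = 0 := by
    intro Ds
    induction Ds with
    | nil =>
      intro f m _ _ hc _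
      have : ind F f = 0 := by
        funext x
        have h : ¬ f x = true := fun h => by simpa using hc x h
        simp [ind, h]
      rw [this, map_zero, LinearMap.zero_apply]
    | cons d Ds ih =>
      intro f m hf hD hc hL
      have hd := hD d List.mem_cons_self
      rw [List.length_cons, Nat.succ_mul] at hL
      have e : ind F f = ind F f * ind F d + ind F (fun x => f x && !(d x)) := by
        rw [ind_and, ind_not]; ring
      have h1 := M.ann_mul hf hd.1 (by omega) hd.2
      have h2 := ih (fun x => f x && !(d x)) (m + k) (M.ind_and_mem hf (M.ind_not_mem hd.1))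
        (fun d' hd' => hD d' (List.mem_cons_of_mem _ hd')) (fun x hx => by
          simp only [Bool.and_eq_true, Bool.not_eq_true'] at hx
          obtain ⟨d', h3, h4⟩ := hc x hx.1
          rcases List.mem_cons.1 h3 with rfl | h3
          · rw [hx.2] at h4; exact absurd h4 Bool.false_ne_true
          · exact ⟨d', h3, h4⟩) (by omega)
      rw [e, map_add, LinearMap.add_apply, h1, h2, add_zero]
  exact key Ds f k hf hD hcov (by rw [Nat.succ_mul] at hL; exact hL)

/-- Rank lemma: orthogonal idempotents have independent images. -/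
theorem rank_sum [FiniteDimensional F V] {ι : Type} [Fintype ι] (E : ι → D → Bool) (k : ℕ)
    (hE : ∀ i, ind F (E i) ∈ M.P k) (hk : 2 * k ≤ L)
    (hdisj : ∀ i j, i ≠ j → ∀ x, E i x = true → E j x = false) :
    ∑ i, M.rk (E i) ≤ finrank F V := by
  classical
  let S : (∀ i, LinearMap.range (M.Φ (ind F (E i)))) →ₗ[F] V :=
    ∑ i, (LinearMap.range (M.Φ (ind F (E i)))).subtype ∘ₗ LinearMap.proj i
  have hS : Function.Injective S := by
    rw [injective_iff_map_eq_zero]
    intro w hw
    funext i
    obtain ⟨T, hT⟩ := M.op k _ (hE i)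
    have h1 : ∀ j, T (w j) = if j = i then (w j : V) else 0 := by
      intro j
      obtain ⟨u, hu⟩ := (w j).2
      rw [← hu, ← hT k _ (hE j) (by omega)]
      split_ifs with h
      · rw [h, ind_mul_self]
      · have : ind F (E i) * ind F (E j) = 0 := by
          funext x
          cases hx : E i x
          · simp [ind, hx]
          · simp [ind, hdisj i j (Ne.symm h) x hx]
        rw [this, map_zero, LinearMap.zero_apply]
    have h2 := congrArg T hw
    simp only [S, LinearMap.sum_apply, LinearMap.comp_apply, LinearMap.proj_apply,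
      Submodule.subtype_apply, map_sum, h1, map_zero, Finset.sum_ite_eq', Finset.mem_univ,
      if_true] at h2
    exact Subtype.ext h2
  have h := LinearMap.finrank_le_finrank_of_injective hS
  rwa [Module.finrank_pi_fintype] at h

theorem exists_kernel [FiniteDimensional F V₀] (Es : List (D → Bool))
    (h : (Es.map M.rk).sum < finrank F V₀) :
    ∃ v : V₀, v ≠ 0 ∧ ∀ E ∈ Es, M.Φ (ind F E) v = 0 := by
  have key : ∀ Es : List (D → Bool), ∃ W : Submodule F V₀,
      finrank F V₀ ≤ finrank F W + (Es.map M.rk).sum ∧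
        ∀ v ∈ W, ∀ E ∈ Es, M.Φ (ind F E) v = 0 := by
    intro Es
    induction Es with
    | nil => exact ⟨⊤, by simp, by simp⟩
    | cons E Es ih =>
      obtain ⟨W, h1, h2⟩ := ih
      refine ⟨W ⊓ LinearMap.ker (M.Φ (ind F E)), ?_, fun v hv E' hE' => ?_⟩
      · have h3 := Submodule.finrank_sup_add_finrank_inf_eq W (LinearMap.ker (M.Φ (ind F E)))
        have h4 := LinearMap.finrank_range_add_finrank_ker (M.Φ (ind F E))
        have h5 := Submodule.finrank_le (W ⊔ LinearMap.ker (M.Φ (ind F E)))
        rw [List.map_cons, List.sum_cons]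
        unfold rk at *
        omega
      · rcases List.mem_cons.1 hE' with rfl | hE'
        · exact hv.2
        · exact h2 v hv.1 E' hE'
  obtain ⟨W, h1, h2⟩ := key Es
  have h3 : W ≠ ⊥ := by
    rintro rfl
    rw [finrank_bot] at h1
    omega
  obtain ⟨v, hv, h0⟩ := W.exists_mem_ne_zero_of_ne_bot h3
  exact ⟨v, h0, h2 v hv⟩

end PM

end Pool.Agent.Lib.MP_8a52c3_lc.Ac0
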