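import Pool.Agent.Lib.MP_8a52c3_lc.Ac0.Chr
import Pool.Agent.Lib.MP_8a52c3_lc.Ac0.PMBasic

namespace Pool.Agent.Lib.MP_8a52c3_lc.Ac0

open Matrix Filter
open scoped BigOperators

theorem Cnf_ind_false {F D : Type} [Field F] {a : D → Bool} (h : ∀ y, a y ≠ true) :
    ind F a = 0 := by
  funext y
  simp [ind, h y]

theorem Cnf_falsif_iff {D : Type} (x : ℕ → D → Bool) (C : List (ℕ × Bool)) (y : D) :
    falsif x C y = true ↔ ∀ l ∈ C, x l.1 y ≠ l.2 := by
  simp [falsif]

theorem Cnf_falsif_mem {F D V V₀ : Type} {L : ℕ} [Field F] [AddCommGroup V] [Module F V]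
    [AddCommGroup V₀] [Module F V₀] (M : PM F D V V₀ L) (x : ℕ → D → Bool)
    (hx : ∀ i, ind F (x i) ∈ M.P 1) (C : List (ℕ × Bool)) :
    ind F (falsif x C) ∈ M.P C.length := by
  induction C with
  | nil =>
    have : ind F (falsif x []) = 1 := by
      funext y
      simp [ind, falsif]
    rw [this]
    exact M.one_mem
  | cons l C ih =>
    have e : falsif x (l :: C) = fun y => (x l.1 y != l.2) && falsif x C y := by
      funext y
      simp [falsif]
    have h1 : ind F (fun y => x l.1 y != l.2) ∈ M.P 1 := by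
      obtain ⟨i, b⟩ := l
      cases b
      · have : (fun y => x i y != false) = x i := by
          funext y
          simp
        simpa only [this] using hx i
      · have : (fun y => x i y != true) = fun y => !(x i y) := by
          funext y
          simp
        simpa only [this] using M.ind_not_mem (hx i)
    rw [e, List.length_cons, add_comm]
    exact M.ind_and_mem h1 ih

/-- From an inconsistent system of equations of width `4` to an unsatisfiable 4-CNF. -/
theorem eq_cnf {F Z V V₀ : Type} {q L : ℕ} [Field F] [Fintype Z] [DecidableEq Z] [NeZero q]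
    [AddCommGroup V] [Module F V] [AddCommGroup V₀] [Module F V₀]
    (ζ : AddChar (ZMod q) F) (hζ : Function.Injective ζ) (hq4 : q ≤ 4) (hL : 8 ≤ L)
    (M : PM F (Z → ZMod q) V V₀ L) (E : Set ((Z → ZMod q) × ZMod q)) (hM : EqPM ζ M E)
    (hw : ∀ e ∈ E, hammingNorm e.1 ≤ 4) (huns : ∀ x : Z → ZMod q, ∃ e ∈ E, e.1 ⬝ᵥ x ≠ e.2) :
    ∃ (x : ℕ → (Z → ZMod q) → Bool) (Fc : Set (List (ℕ × Bool))),
      (∀ i, ind F (x i) ∈ M.P 1) ∧
      (∀ C ∈ Fc, C.length ≤ 4 ∧ (∀ l ∈ C, l.1 < Fintype.card Z * q) ∧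
        ∀ v, M.Φ (ind F (falsif x C)) v = 0) ∧
      ∀ a : ℕ → Bool, ∃ C ∈ Fc, ∀ l ∈ C, a l.1 ≠ l.2 := by
  classical
  let enc : Z × ZMod q ≃ Fin (Fintype.card Z * q) :=
    Fintype.equivFinOfCardEq (by rw [Fintype.card_prod, ZMod.card])
  let N : Z × ZMod q → ℕ := fun e => (enc e).val
  have Ninj : Function.Injective N := fun e e' h => enc.injective (Fin.ext h)
  have Nlt : ∀ e, N e < Fintype.card Z * q := fun e => (enc e).isLt
  let x : ℕ → (Z → ZMod q) → Bool := fun i y => decide (∃ e, N e = i ∧ y e.1 = e.2)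
  have key : ∀ e y, x (N e) y = decide (y e.1 = e.2) := by
    intro e y
    refine decide_eq_decide.2 ⟨?_, fun h => ⟨e, rfl, h⟩⟩
    rintro ⟨e', h1, h2⟩
    rwa [Ninj h1] at h2
  have hx : ∀ i, ind F (x i) ∈ M.P 1 := by
    intro i
    by_cases h : ∃ e, N e = i
    · obtain ⟨e, rfl⟩ := h
      have : x (N e) = fun y => decide (y e.1 = e.2) := funext (key e)
      rw [this]
      exact hM.var_mem e.1 e.2
    · rw [Cnf_ind_false]
      · exact zero_mem _
      · intro y hy
        obtain ⟨e, he, -⟩ := of_decide_eq_true hy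
        exact h ⟨e, he⟩
  refine ⟨x, {C | C.length ≤ 4 ∧ (∀ l ∈ C, l.1 < Fintype.card Z * q) ∧
    ∀ v, M.Φ (ind F (falsif x C)) v = 0}, hx, fun C hC => hC, fun a => ?_⟩
  by_contra hcon
  have hsat : ∀ C : List (ℕ × Bool), C.length ≤ 4 → (∀ l ∈ C, l.1 < Fintype.card Z * q) →
      (∀ v, M.Φ (ind F (falsif x C)) v = 0) → ∃ l ∈ C, a l.1 = l.2 := by
    intro C h1 h2 h3
    by_contra h4
    exact hcon ⟨C, ⟨h1, h2, h3⟩, fun l hl e => h4 ⟨l, hl, e⟩⟩
  have hval : ∀ z : Z, ∃ c : ZMod q, a (N (z, c)) = true := by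
    intro z
    obtain ⟨l, hl, e⟩ := hsat
      ((Finset.univ : Finset (ZMod q)).toList.map fun c => (N (z, c), true))
      (by rw [List.length_map, Finset.length_toList, Finset.card_univ, ZMod.card]; exact hq4)
      (by
        intro l hl
        obtain ⟨c, -, rfl⟩ := List.mem_map.1 hl
        exact Nlt _)
      (by
        intro v
        rw [Cnf_ind_false, map_zero, LinearMap.zero_apply]
        intro y hy
        refine (Cnf_falsif_iff _ _ _).1 hy (N (z, y z), true)
          (List.mem_map.2 ⟨y z, by simp, rfl⟩) ?_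
        rw [key]
        simp)
    obtain ⟨c, -, rfl⟩ := List.mem_map.1 hl
    exact ⟨c, e⟩
  choose x₀ hx₀ using hval
  obtain ⟨e, he, hne⟩ := huns x₀
  set C : List (ℕ × Bool) := (Finset.univ.filter fun z => e.1 z ≠ 0).toList.map
    fun z => (N (z, x₀ z), false) with hC
  have hlen : C.length ≤ 4 := by
    rw [hC, List.length_map, Finset.length_toList]
    have := hw e he
    unfold hammingNorm at this
    convert this
  have hdot : ∀ y, falsif x C y = true → e.1 ⬝ᵥ y = e.1 ⬝ᵥ x₀ := by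
    intro y hy
    refine Finset.sum_congr rfl fun z _ => ?_
    by_cases hz : e.1 z = 0
    · rw [hz, zero_mul, zero_mul]
    · have := (Cnf_falsif_iff _ _ _).1 hy (N (z, x₀ z), false)
        (List.mem_map.2 ⟨z, by simpa using hz, rfl⟩)
      rw [key] at this
      have h2 : y z = x₀ z := by simpa using this
      rw [h2]
  have hd : ζ (e.1 ⬝ᵥ x₀) - ζ e.2 ≠ 0 := sub_ne_zero.2 fun h => hne (hζ h)
  have hfac : ind F (falsif x C) = (ζ (e.1 ⬝ᵥ x₀) - ζ e.2)⁻¹ •
      (ind F (falsif x C) * fun y => ζ (e.1 ⬝ᵥ y) - ζ e.2) := by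
    funext y
    simp only [Pi.smul_apply, Pi.mul_apply, ind, smul_eq_mul]
    split_ifs with hy
    · rw [hdot y hy, one_mul, inv_mul_cancel₀ hd]
    · simp
  have hf : (fun y : Z → ZMod q => ζ (e.1 ⬝ᵥ y) - ζ e.2) ∈ M.P 4 := by
    have h1 := M.mono _ _ (hw e he) (hM.chr_mem e.1)
    have h2 := (M.P 4).smul_mem (ζ e.2) (M.one_mem' 4)
    have h3 := (M.P 4).sub_mem h1 h2
    convert h3 using 1
    funext y
    simp
  obtain ⟨l, hl, el⟩ := hsat C hlen
    (by
      intro l hl
      obtain ⟨z, -, rfl⟩ := List.mem_map.1 hl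
      exact Nlt _)
    (by
      intro v
      rw [hfac, map_smul, LinearMap.smul_apply,
        M.ann_mul (M.mono _ _ hlen (Cnf_falsif_mem M x hx C)) hf hL (hM.kill e he v), smul_zero])
  obtain ⟨z, -, rfl⟩ := List.mem_map.1 hl
  rw [hx₀ z] at el
  exact Bool.noConfusion el

end Pool.Agent.Lib.MP_8a52c3_lc.Ac0
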