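import Pool.Agent.Lib.MP_8a52c3_lc.Ac0.Chr

namespace Pool.Agent.Lib.MP_8a52c3_lc.Ac0

open Matrix Filter
open scoped BigOperators

section aux

variable {F Z A : Type} {q L : ℕ} [Field F] [Fintype Z] [AddCommGroup A]

/-- The character attached to `m`. -/
def CocPM_chr (ζ : AddChar (ZMod q) F) (m : Z → ZMod q) : (Z → ZMod q) → F :=
  fun x => ζ (m ⬝ᵥ x)

theorem CocPM_chr_mul (ζ : AddChar (ZMod q) F) (m m' : Z → ZMod q) :
    CocPM_chr ζ m * CocPM_chr ζ m' = CocPM_chr ζ (m + m') := by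
  funext x
  simp only [CocPM_chr, Pi.mul_apply, add_dotProduct, AddChar.map_add_eq_mul]

theorem CocPM_chr_zero (ζ : AddChar (ZMod q) F) : CocPM_chr ζ (0 : Z → ZMod q) = 1 := by
  funext x
  simp [CocPM_chr]

/-- Functions of degree at most `k`. -/
def CocPM_P (ζ : AddChar (ZMod q) F) (k : ℕ) : Submodule F ((Z → ZMod q) → F) :=
  Submodule.span F {f | ∃ m : Z → ZMod q, hammingNorm m ≤ k ∧ f = CocPM_chr ζ m}

open Classical in
/-- The action of a character on the small space. -/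
noncomputable def CocPM_U (ζ : AddChar (ZMod q) F) {Ω : A → Prop} (C : Coc q Z A Ω L)
    (m : Z → ZMod q) : ({α // Ω α} → F) →ₗ[F] (A → F) where
  toFun v β := if h : Ω (β - C.π m) then ζ (C.a ⟨_, h⟩ m) * v ⟨_, h⟩ else 0
  map_add' v v' := by
    funext β
    simp only [Pi.add_apply]
    split_ifs
    · ring
    · simp
  map_smul' c v := by
    funext β
    simp only [Pi.smul_apply, smul_eq_mul, RingHom.id_apply]
    split_ifs
    · ring
    · simp

/-- The action of a character on the large space. -/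
noncomputable def CocPM_T (ζ : AddChar (ZMod q) F) {Ω : A → Prop} (C : Coc q Z A Ω L)
    (m : Z → ZMod q) : (A → F) →ₗ[F] (A → F) where
  toFun f β := ζ (C.w (β - C.π m) m) * f (β - C.π m)
  map_add' f f' := by
    funext β
    simp only [Pi.add_apply]
    ring
  map_smul' c f := by
    funext β
    simp only [Pi.smul_apply, smul_eq_mul, RingHom.id_apply]
    ring

theorem CocPM_U_pos (ζ : AddChar (ZMod q) F) {Ω : A → Prop} (C : Coc q Z A Ω L)
    (m : Z → ZMod q) (v : {α // Ω α} → F) (β : A) (α : {α // Ω α}) (h : α.1 = β - C.π m) :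
    CocPM_U ζ C m v β = ζ (C.a α m) * v α := by
  obtain ⟨α, hα⟩ := α
  simp only at h
  subst h
  simp only [CocPM_U, LinearMap.coe_mk, AddHom.coe_mk, dif_pos hα]

theorem CocPM_U_neg (ζ : AddChar (ZMod q) F) {Ω : A → Prop} (C : Coc q Z A Ω L)
    (m : Z → ZMod q) (v : {α // Ω α} → F) (β : A) (h : ¬Ω (β - C.π m)) :
    CocPM_U ζ C m v β = 0 := by
  simp only [CocPM_U, LinearMap.coe_mk, AddHom.coe_mk, dif_neg h]

theorem CocPM_TU (ζ : AddChar (ZMod q) F) {Ω : A → Prop} (C : Coc q Z A Ω L)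
    (m m' : Z → ZMod q) (h1 : hammingNorm m ≤ L) (h2 : hammingNorm (m' + m) ≤ L)
    (v : {α // Ω α} → F) : CocPM_U ζ C (m' + m) v = CocPM_T ζ C m' (CocPM_U ζ C m v) := by
  funext β
  have e : β - C.π (m' + m) = β - C.π m' - C.π m := by rw [map_add, sub_sub]
  show _ = ζ (C.w (β - C.π m') m') * CocPM_U ζ C m v (β - C.π m')
  by_cases h : Ω (β - C.π (m' + m))
  · rw [CocPM_U_pos ζ C (m' + m) v β ⟨_, h⟩ rfl, CocPM_U_pos ζ C m v _ ⟨_, h⟩ e,
      C.tri _ m m' h1 h2, AddChar.map_add_eq_mul]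
    have : β - C.π (m' + m) + C.π m = β - C.π m' := by rw [e, sub_add_cancel]
    simp only [this]
    ring
  · rw [CocPM_U_neg ζ C _ v β h, CocPM_U_neg ζ C _ v _ (by rwa [← e]), mul_zero]

end aux

/-- Cocycle data give a truncated module. -/
theorem coc_PM {F Z A : Type} {q L : ℕ} [Field F] [Fintype Z] [DecidableEq Z] [NeZero q]
    [AddCommGroup A] [Finite A] (ζ : AddChar (ZMod q) F) (hζ : Function.Injective ζ)
    (hq : (q : F) ≠ 0) (Ω : A → Prop) (C : Coc q Z A Ω L) (E : Set ((Z → ZMod q) × ZMod q))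
    (hE : ∀ e ∈ E, C.π e.1 = 0 ∧ ∀ α, C.a α e.1 = e.2) :
    ∃ M : PM F (Z → ZMod q) (A → F) ({α // Ω α} → F) L, EqPM ζ M E := by
  obtain ⟨b, hb⟩ := exists_chr_basis (Z := Z) ζ hζ
  have hb' : ∀ m, CocPM_chr ζ m = b m := fun m => funext fun x => (hb m x).symm
  set Φ : ((Z → ZMod q) → F) →ₗ[F] ({α // Ω α} → F) →ₗ[F] (A → F) :=
    b.constr F (CocPM_U ζ C) with hΦ
  have hΦ' : ∀ m, Φ (CocPM_chr ζ m) = CocPM_U ζ C m := fun m => by
    rw [hb', hΦ, Module.Basis.constr_basis]
  have hmem : ∀ (m : Z → ZMod q) k, hammingNorm m ≤ k → CocPM_chr ζ m ∈ CocPM_P ζ k :=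
    fun m k h => Submodule.subset_span ⟨m, h, rfl⟩
  have hone : ∀ (v : {α // Ω α} → F) (α : {α // Ω α}), Φ 1 v α.1 = v α := by
    intro v α
    rw [← CocPM_chr_zero ζ, hΦ', CocPM_U_pos ζ C 0 v _ α (by simp), C.a_zero]
    simp
  refine ⟨⟨CocPM_P ζ, ?_, ?_, ?_, Φ, ?_, ?_⟩, ?_, ?_, ?_⟩
  · rw [← CocPM_chr_zero ζ]
    exact hmem 0 0 (by simp)
  · intro a c h
    exact Submodule.span_mono fun f ⟨m, h1, h2⟩ => ⟨m, h1.trans h, h2⟩
  · intro a c f g hf hg
    induction hf using Submodule.span_induction with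
    | mem f hf =>
      obtain ⟨m, h1, rfl⟩ := hf
      induction hg using Submodule.span_induction with
      | mem g hg =>
        obtain ⟨m', h2, rfl⟩ := hg
        rw [CocPM_chr_mul]
        exact hmem _ _ ((hammingNorm_add_le' m m').trans (add_le_add h1 h2))
      | zero => simp
      | add g g' _ _ h h' => rw [mul_add]; exact add_mem h h'
      | smul r g _ h => rw [mul_smul_comm]; exact Submodule.smul_mem _ r h
    | zero => simp
    | add f f' _ _ h h' => rw [add_mul]; exact add_mem h h'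
    | smul r f _ h => rw [smul_mul_assoc]; exact Submodule.smul_mem _ r h
  · intro v hv
    funext α
    rw [← hone v α, hv]
    rfl
  · intro a g hg
    induction hg using Submodule.span_induction with
    | mem g hg =>
      obtain ⟨m', h1, rfl⟩ := hg
      refine ⟨CocPM_T ζ C m', fun c f hf hL v => ?_⟩
      induction hf using Submodule.span_induction with
      | mem f hf =>
        obtain ⟨m, h2, rfl⟩ := hf
        rw [CocPM_chr_mul, hΦ', hΦ']
        exact CocPM_TU ζ C m m' (by omega)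
          ((hammingNorm_add_le' m' m).trans (by omega)) v
      | zero => simp
      | add f f' _ _ h h' => simp only [mul_add, map_add, LinearMap.add_apply, h, h']
      | smul r f _ h => simp only [mul_smul_comm, map_smul, LinearMap.smul_apply, h]
    | zero => exact ⟨0, fun c f _ _ v => by simp⟩
    | add g g' _ _ h h' =>
      obtain ⟨T, hT⟩ := h
      obtain ⟨T', hT'⟩ := h'
      exact ⟨T + T', fun c f hf hL v => by
        simp only [add_mul, map_add, LinearMap.add_apply, hT c f hf hL, hT' c f hf hL]⟩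
    | smul r g _ h =>
      obtain ⟨T, hT⟩ := h
      exact ⟨r • T, fun c f hf hL v => by
        simp only [smul_mul_assoc, map_smul, LinearMap.smul_apply, hT c f hf hL]⟩
  · intro z c
    show _ ∈ CocPM_P ζ 1
    rw [ind_eq_sum ζ hζ hq z c]
    exact Submodule.sum_mem _ fun j _ =>
      Submodule.smul_mem _ _ (hmem _ 1 (hammingNorm_single_le z j))
  · intro m
    exact hmem m _ le_rfl
  · intro e he v
    obtain ⟨h1, h2⟩ := hE e he
    have e1 : (fun x => ζ (e.1 ⬝ᵥ x) - ζ e.2) = CocPM_chr ζ e.1 - ζ e.2 • CocPM_chr ζ 0 := by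
      funext x
      simp [CocPM_chr]
    show Φ _ v = 0
    rw [e1, map_sub, map_smul, hΦ', hΦ']
    funext β
    simp only [LinearMap.sub_apply, LinearMap.smul_apply, Pi.sub_apply, Pi.smul_apply,
      smul_eq_mul, Pi.zero_apply]
    by_cases h : Ω β
    · rw [CocPM_U_pos ζ C e.1 v β ⟨β, h⟩ (by simp [h1]),
        CocPM_U_pos ζ C 0 v β ⟨β, h⟩ (by simp), h2, C.a_zero]
      simp
    · rw [CocPM_U_neg ζ C e.1 v β (by simpa [h1] using h),
        CocPM_U_neg ζ C 0 v β (by simpa using h)]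
      simp

end Pool.Agent.Lib.MP_8a52c3_lc.Ac0
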