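import Pool.Agent.Lib.MP_8a52c3_lc.Ac0.GDefs

namespace Pool.Agent.Lib.MP_8a52c3_lc.Ac0

open Matrix Filter
open scoped BigOperators

variable {q s n : ℕ}

theorem dl_add (τ τ' : Vx s n → ZMod q) : dl (τ + τ') = (dl τ + dl τ' : Gam q s n) := by
  refine Prod.ext ?_ ?_
  · funext l a b
    simp only [dl, Pi.add_apply, Prod.fst_add]
    ring
  · funext A
    simp only [dl, Pi.add_apply, Prod.snd_add, Finset.sum_add_distrib]
    ring

theorem phi_add (m m' : Zv q s n → ZMod q) : phi (m + m') = phi m + phi m' := by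
  have h : ∀ (P : Prop) [Decidable P] (x y : ZMod q),
      (if P then x + y else 0) = (if P then x else 0) + if P then y else 0 := by
    intro P _ x y
    split_ifs <;> simp
  refine Prod.ext ?_ ?_
  · funext l a b
    simp only [phi, Pi.add_apply, Prod.fst_add, h, Finset.sum_add_distrib]
    ring
  · funext A
    simp only [phi, Pi.add_apply, Prod.snd_add, h, Finset.sum_add_distrib]

/-- Gauge transformations as a homomorphism. -/
def dlh (q s n : ℕ) : (Vx s n → ZMod q) →+ Gam q s n := AddMonoidHom.mk' dl dl_add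

/-- `phi` as a homomorphism. -/
def phih (q s n : ℕ) : (Zv q s n → ZMod q) →+ Gam q s n := AddMonoidHom.mk' phi phi_add

theorem dlh_apply (τ : Vx s n → ZMod q) : dlh q s n τ = dl τ := rfl

theorem phih_apply (m : Zv q s n → ZMod q) : phih q s n m = phi m := rfl

theorem phi_zero : phi (0 : Zv q s n → ZMod q) = 0 := (phih q s n).map_zero

/-- Gauge classes. -/
abbrev Cls (q s n : ℕ) : Type := Gam q s n ⧸ (dlh q s n).range

end Pool.Agent.Lib.MP_8a52c3_lc.Ac0
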