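import Pool.Agent.Lib.MP_8a52c3_lc.Ac0.Nrm
import Pool.Agent.Lib.MP_8a52c3_lc.Ac0.PrEq
import Pool.Agent.Lib.MP_8a52c3_lc.Ac0.Hom

namespace Pool.Agent.Lib.MP_8a52c3_lc.Ac0

open Matrix Filter
open scoped BigOperators

variable {q s n : ℕ} [NeZero q]

theorem Cov_pr (J : JT q s n) (τ : Vx s n → ZMod q) (j : ℕ) (hj : j < s + 1) (a b : Fin n) :
    pr (XJ (J + (dl τ : Gam q s n).1)) 0 j a b =
      ec (τ (⟨j, hj⟩, a)) * pr (XJ J) 0 j a b * ec (-τ (0, b)) := by
  induction j generalizing a with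
  | zero =>
    simp only [pr]
    by_cases hab : a = b
    · subst hab
      rw [Matrix.one_apply_eq, mul_one]
      exact (ec_mul_neg _).symm
    · simp [Matrix.one_apply_ne hab]
  | succ j ih =>
    have hjs : j < s := by omega
    simp only [pr, Nat.zero_le, if_true, Matrix.mul_apply]
    rw [Finset.mul_sum, Finset.sum_mul]
    refine Finset.sum_congr rfl fun c _ => ?_
    rw [ih (by omega) c]
    simp only [XJ, dif_pos hjs, mat, Matrix.of_apply, Pi.add_apply, dl, sub_eq_add_neg, ec_add]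
    have h := ec_mul_neg (τ ((⟨j, hjs⟩ : Fin s).castSucc, c))
    have e1 : (⟨j, hjs⟩ : Fin s).castSucc = ⟨j, by omega⟩ := rfl
    have e2 : (⟨j, hjs⟩ : Fin s).succ = ⟨j + 1, hj⟩ := rfl
    rw [e1] at h
    rw [e1, e2]
    linear_combination (ec (J ⟨j, hjs⟩ a c) * ec (τ (⟨j + 1, hj⟩, a)) / (Real.sqrt n : ℂ) *
      pr (XJ J) 0 j c b * ec (-τ (0, b))) * h

theorem PJ_gauge (J : JT q s n) (τ : Vx s n → ZMod q) (a b : Fin n) :
    PJ (J + (dl τ : Gam q s n).1) a b =
      ec (τ (Fin.last s, a)) * PJ J a b * ec (-τ (0, b)) :=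
  Cov_pr J τ s (Nat.lt_succ_self s) a b

theorem Th_gauge (g : Gam q s n) (τ : Vx s n → ZMod q) (B : Fin q → Fin n) :
    Th (g + dl τ) B = Th g B * ∏ i, ec (-τ (0, B i)) := by
  simp only [Th, ThP, Prod.fst_add, Prod.snd_add, PJ_gauge, Finset.sum_mul]
  refine Finset.sum_congr rfl fun A _ => ?_
  have h := ec_mul_neg (∑ i, τ (Fin.last s, A i))
  rw [Finset.prod_mul_distrib, Finset.prod_mul_distrib, ← ec_sum]
  simp only [Pi.add_apply, dl, ec_add]
  linear_combination (ec (g.2 A) * (∏ i, PJ g.1 (A i) (B i)) * ∏ i, ec (-τ (0, B i))) * h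

theorem act_add (l₀ : Fin s) (b₀ : Fin n) (γ γ' : Gam q s n) (t : Fin n → ℂ) :
    act l₀ b₀ (γ + γ') t = act l₀ b₀ γ (act l₀ b₀ γ' t) := by
  funext b
  simp only [act, Prod.fst_add, Pi.add_apply]
  rw [← mul_assoc, ← ec_add]
  congr 2
  ring

theorem act_zero (l₀ : Fin s) (b₀ : Fin n) (t : Fin n → ℂ) :
    act l₀ b₀ (0 : Gam q s n) t = t := by
  funext b
  simp [act, ec_zero]

theorem act_dl (l₀ : Fin s) (hl₀ : l₀.val = 0) (b₀ : Fin n) (τ : Vx s n → ZMod q)
    (t : Fin n → ℂ) (b : Fin n) :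
    act l₀ b₀ (dl τ : Gam q s n) t b = ec (τ (0, b₀) - τ (0, b)) * t b := by
  have e : l₀.castSucc = 0 := Fin.ext hl₀
  simp only [act, dl, e]
  congr 2
  ring

theorem good_gauge (l₀ : Fin s) (hl₀ : l₀.val = 0) (b₀ : Fin n) {η : ℝ} (g : Gam q s n)
    (τ : Vx s n → ZMod q) (t : Fin n → ℂ) (h : Good η (Th g) t) :
    Good η (Th (g + dl τ)) (act l₀ b₀ (dl τ : Gam q s n) t) := by
  obtain ⟨h1, μ, hμ, h2⟩ := h
  refine ⟨?_, μ, hμ, le_of_eq_of_le ?_ h2⟩
  · rw [← h1]
    refine nrm_congr_norm fun b => ?_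
    rw [act_dl l₀ hl₀, norm_mul, norm_ec, one_mul]
  · refine nrm_congr_norm fun B => ?_
    have e : ∏ i, act l₀ b₀ (dl τ : Gam q s n) t (B i) =
        (∏ i, t (B i)) * ∏ i, ec (-τ (0, B i)) := by
      simp only [act_dl l₀ hl₀, sub_eq_add_neg, ec_add, Finset.prod_mul_distrib,
        Finset.prod_const, Finset.card_univ, Fintype.card_fin, ec_pow_self, one_mul]
      ring
    rw [Th_gauge, e, ← mul_assoc, ← sub_mul, norm_mul, norm_prod]
    simp only [norm_ec, Finset.prod_const_one, mul_one]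

/-- The equivariant section. -/
theorem exists_section (l₀ : Fin s) (hl₀ : l₀.val = 0) (b₀ : Fin n) (η : ℝ) :
    ∃ T : Gam q s n → Fin n → ℂ,
      (∀ (g : Gam q s n) (τ : Vx s n → ZMod q),
        T (g + dl τ) = act l₀ b₀ (dl τ : Gam q s n) (T g)) ∧
      ∀ g : Gam q s n, (∃ t, Good η (Th g) t) → Good η (Th g) (T g) := by
  classical
  let S : Cls q s n → Fin n → ℂ := fun α =>
    if h : ∃ t, Good η (Th (Quotient.out α : Gam q s n)) t then h.choose else 0
  refine ⟨fun g => act l₀ b₀ (g - Quotient.out (QuotientAddGroup.mk g : Cls q s n))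
    (S (QuotientAddGroup.mk g)), fun g τ => ?_, fun g hg => ?_⟩
  · have e : (QuotientAddGroup.mk (g + dl τ) : Cls q s n) = QuotientAddGroup.mk g :=
      QuotientAddGroup.mk_add_of_mem g ⟨τ, rfl⟩
    simp only [e]
    rw [← act_add]
    congr 1
    abel
  · obtain ⟨t, ht⟩ := hg
    set o : Gam q s n := Quotient.out (QuotientAddGroup.mk g : Cls q s n) with ho
    have h1 : (QuotientAddGroup.mk g : Cls q s n) = QuotientAddGroup.mk o :=
      (QuotientAddGroup.out_eq' _).symm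
    obtain ⟨σ, hσ⟩ := QuotientAddGroup.eq.1 h1
    obtain ⟨σ', hσ'⟩ := QuotientAddGroup.eq.1 h1.symm
    rw [dlh_apply] at hσ hσ'
    have e1 : o = g + dl σ := by rw [hσ]; abel
    have e2 : g = o + dl σ' := by rw [hσ']; abel
    have e3 : g - o = dl σ' := by rw [hσ']; abel
    have hex : ∃ t, Good η (Th o) t := ⟨_, e1 ▸ good_gauge l₀ hl₀ b₀ g σ t ht⟩
    have hS : Good η (Th o) (S (QuotientAddGroup.mk g)) := by
      simp only [S]
      rw [dif_pos hex]
      exact hex.choose_spec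
    have := good_gauge l₀ hl₀ b₀ o σ' _ hS
    rw [← e2, ← e3] at this
    exact this

/-- A vertex gauge transformation multiplies a delocalised vector by its charge, up to `2 c`. -/
theorem act_vertex (l₀ : Fin s) (hl₀ : l₀.val = 0) (b₀ : Fin n) (v : Vx s n) (t : Fin n → ℂ)
    {c : ℝ} (hc : ∀ b, ‖t b‖ ≤ c) :
    nrm (act l₀ b₀ (dl (Pi.single v 1) : Gam q s n) t - ec (chg (q := q) b₀ v) • t) ≤ 2 * c := by
  have h0 : (Pi.single v 1 : Vx s n → ZMod q) (0, b₀) = chg b₀ v := by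
    unfold chg
    rw [Pi.single_apply]
    simp only [eq_comm]
  have e : act l₀ b₀ (dl (Pi.single v 1) : Gam q s n) t - ec (chg (q := q) b₀ v) • t =
      Pi.single v.2 (ec (chg (q := q) b₀ v) *
        (ec (-(Pi.single v 1 : Vx s n → ZMod q) (0, v.2)) - 1) * t v.2) := by
    funext b
    rw [Pi.sub_apply, act_dl l₀ hl₀, h0, Pi.smul_apply, smul_eq_mul, sub_eq_add_neg (chg b₀ v),
      ec_add]
    by_cases hb : b = v.2
    · subst hb
      rw [Pi.single_eq_same]
      ring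
    · have : ((0, b) : Vx s n) ≠ v := fun h => hb (by rw [← h])
      rw [Pi.single_eq_of_ne hb, Pi.single_eq_of_ne this, neg_zero, ec_zero]
      ring
  rw [e, nrm_single, norm_mul, norm_mul, norm_ec, one_mul]
  exact mul_le_mul (norm_ec_sub_one_le _) (hc _) (norm_nonneg _) (by norm_num)

end Pool.Agent.Lib.MP_8a52c3_lc.Ac0
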