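import Pool.Agent.Lib.MP_8a52c3_lc.Ac0.Nrm

namespace Pool.Agent.Lib.MP_8a52c3_lc.Ac0

open Matrix Filter
open scoped BigOperators

section aux

variable {q N : ℕ} [NeZero q]

/-- Telescoping increments. -/
noncomputable def Dec_g (f : Fin N → ZMod q) (j : Fin N) : ℂ :=
  (ec (f j) - 1) * ∏ j' ∈ Finset.univ.filter (fun j' => j < j'), ec (f j')

/-- Indicator of a nonzero value. -/
noncomputable def Dec_i (c : ZMod q) : ℝ := if c ≠ 0 then 1 else 0

omit [NeZero q] in
theorem Dec_i_nonneg (c : ZMod q) : 0 ≤ Dec_i c := by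
  unfold Dec_i
  split_ifs <;> norm_num

theorem Dec_g_le (f : Fin N → ZMod q) (j : Fin N) : ‖Dec_g f j‖ ≤ 2 * Dec_i (f j) := by
  unfold Dec_g Dec_i
  rw [norm_mul, norm_prod]
  simp only [norm_ec, Finset.prod_const_one, mul_one]
  split_ifs with h
  · rw [mul_one]
    exact norm_ec_sub_one_le _
  · rw [not_not.1 h, ec_zero]
    simp

theorem Dec_tel (f : Fin N → ZMod q) (b : ℕ) :
    ec (∑ j : Fin N, if b < j.val then f j else 0) - 1 =
      ∑ j : Fin N, if b < j.val then Dec_g f j else 0 := by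
  rw [← Finset.sum_filter, ← Finset.sum_filter, ec_sum]
  have h := Finset.prod_add_ordered (Finset.univ.filter fun j : Fin N => b < j.val)
    (fun j => ec (f j)) (fun j => 1 - ec (f j))
  simp only [add_sub_cancel, Finset.prod_const_one, mul_one] at h
  have e : ∑ j ∈ Finset.univ.filter (fun j : Fin N => b < j.val), Dec_g f j =
      -∑ j ∈ Finset.univ.filter (fun j : Fin N => b < j.val), (1 - ec (f j)) *
        ∏ j' ∈ (Finset.univ.filter fun j : Fin N => b < j.val).filter (fun j' => j < j'),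
          ec (f j') := by
    rw [← Finset.sum_neg_distrib]
    refine Finset.sum_congr rfl fun j hj => ?_
    have hj' : b < j.val := (Finset.mem_filter.1 hj).2
    have e2 : (Finset.univ.filter fun j : Fin N => b < j.val).filter (fun j' => j < j') =
        Finset.univ.filter (fun j' => j < j') := by
      ext j'
      simp only [Finset.mem_filter, Finset.mem_univ, true_and, and_iff_right_iff_imp]
      intro h'
      exact hj'.trans h'
    rw [e2, Dec_g]
    ring
  rw [e]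
  linear_combination -h

theorem Dec_tel_le (f : Fin N → ZMod q) (b : ℕ) :
    ‖ec (∑ j : Fin N, if b < j.val then f j else 0) - 1‖ ≤ 2 * ∑ j, Dec_i (f j) := by
  rw [Dec_tel, Finset.mul_sum]
  refine (norm_sum_le _ _).trans (Finset.sum_le_sum fun j _ => ?_)
  split_ifs
  · exact Dec_g_le f j
  · rw [norm_zero]
    exact mul_nonneg (by norm_num) (Dec_i_nonneg _)

end aux

section layer

variable {q n : ℕ} [NeZero q]

/-- The mixed coefficient. -/
noncomputable def Dec_x (ρ κ : Fin n → Fin (n + 1) → ZMod q) (a b : Fin n) : ℂ :=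
  (ec (∑ j : Fin (n + 1), if b.val < j.val then ρ a j else 0) - 1) *
    (ec (∑ j : Fin (n + 1), if a.val < j.val then κ b j else 0) - 1)

/-- The row coefficients. -/
noncomputable def Dec_c (ρ κ : Fin n → Fin (n + 1) → ZMod q) (a : Fin n) (u w : Fin (n + 1)) :
    ℂ :=
  (if u = 0 then Dec_g (ρ a) w else 0) +
    ∑ b : Fin n, if u = b.castSucc ∧ w = b.succ then Dec_x ρ κ a b else 0

theorem Dec_pair (F : Fin n → ℂ) (G : Fin (n + 1) → Fin (n + 1) → ℂ) :
    ∑ u, ∑ w, (∑ b : Fin n, if u = b.castSucc ∧ w = b.succ then F b else 0) * G u w =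
      ∑ b : Fin n, F b * G b.castSucc b.succ := by
  simp only [Finset.sum_mul]
  have e : ∀ u : Fin (n + 1), ∑ w, ∑ b : Fin n,
      (if u = b.castSucc ∧ w = b.succ then F b else 0) * G u w =
      ∑ b : Fin n, ∑ w, (if u = b.castSucc ∧ w = b.succ then F b else 0) * G u w :=
    fun u => Finset.sum_comm
  simp only [e]
  rw [Finset.sum_comm]
  refine Finset.sum_congr rfl fun b _ => ?_
  simp [ite_and]

theorem Dec_layer (M : Fin n → Fin n → ZMod q) (ρ κ : Fin n → Fin (n + 1) → ZMod q) :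
    mat (fun a b => M a b + ((∑ j : Fin (n + 1), if b.val < j.val then ρ a j else 0) +
        ∑ j : Fin (n + 1), if a.val < j.val then κ b j else 0)) - mat M =
      (∑ a, ∑ u, ∑ w, Dec_c ρ κ a u w • vecMulVec (Pi.single a 1) (rowI (mat M) a u w)) +
        ∑ b, ∑ j, Dec_g (κ b) j • vecMulVec (colP (mat M) b j) (Pi.single b 1) := by
  ext a b
  have h1 : (∑ a, ∑ u, ∑ w, Dec_c ρ κ a u w •
      vecMulVec (Pi.single a 1) (rowI (mat M) a u w) : Matrix (Fin n) (Fin n) ℂ) a b =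
      ∑ u, ∑ w, Dec_c ρ κ a u w * rowI (mat M) a u w b := by
    simp only [Matrix.sum_apply, Matrix.smul_apply, vecMulVec_apply, smul_eq_mul]
    rw [Finset.sum_eq_single a]
    · simp
    · intro a' _ ha'
      simp [Pi.single_eq_of_ne ha'.symm]
    · simp
  have h2 : (∑ b, ∑ j, Dec_g (κ b) j •
      vecMulVec (colP (mat M) b j) (Pi.single b 1) : Matrix (Fin n) (Fin n) ℂ) a b =
      ∑ j, Dec_g (κ b) j * colP (mat M) b j a := by
    simp only [Matrix.sum_apply, Matrix.smul_apply, vecMulVec_apply, smul_eq_mul]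
    rw [Finset.sum_eq_single b]
    · simp
    · intro b' _ hb'
      simp [Pi.single_eq_of_ne hb'.symm]
    · simp
  have h3 : ∑ j, Dec_g (κ b) j * colP (mat M) b j a =
      (ec (∑ j : Fin (n + 1), if a.val < j.val then κ b j else 0) - 1) * mat M a b := by
    rw [Dec_tel, Finset.sum_mul]
    refine Finset.sum_congr rfl fun j _ => ?_
    unfold colP
    split_ifs <;> simp
  have h4 : ∑ u : Fin (n + 1), ∑ w, (if u = 0 then Dec_g (ρ a) w else 0) *
      rowI (mat M) a u w b =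
      (ec (∑ j : Fin (n + 1), if b.val < j.val then ρ a j else 0) - 1) * mat M a b := by
    rw [Dec_tel, Finset.sum_mul, Finset.sum_eq_single 0]
    · refine Finset.sum_congr rfl fun j _ => ?_
      unfold rowI
      simp only [if_true, Fin.val_zero, zero_le, true_and]
      split_ifs <;> simp
    · intro u _ hu
      simp [hu]
    · simp
  have h5 : ∑ u : Fin (n + 1), ∑ w, (∑ b' : Fin n,
      if u = b'.castSucc ∧ w = b'.succ then Dec_x ρ κ a b' else 0) * rowI (mat M) a u w b =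
      Dec_x ρ κ a b * mat M a b := by
    rw [Dec_pair (Dec_x ρ κ a) fun u w => rowI (mat M) a u w b, Finset.sum_eq_single b]
    · simp [rowI]
    · intro b' _ hb'
      have : ¬ (b'.val ≤ b.val ∧ b.val < b'.val + 1) := fun h => hb' (Fin.ext (by omega))
      simp only [rowI, Fin.val_castSucc, Fin.val_succ, if_neg this, mul_zero]
    · simp
  rw [Matrix.add_apply, h1, h2, h3]
  simp only [Dec_c, add_mul, Finset.sum_add_distrib]
  rw [h4, h5]
  simp only [Matrix.sub_apply, mat, Matrix.of_apply, ec_add, Dec_x]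
  ring

theorem Dec_weight (ρ κ : Fin n → Fin (n + 1) → ZMod q) :
    (∑ a, ∑ u, ∑ w, ‖Dec_c ρ κ a u w‖) + ∑ b, ∑ j, ‖Dec_g (κ b) j‖ ≤
      2 * (∑ a, ∑ j, Dec_i (ρ a j)) + 2 * (∑ b, ∑ j, Dec_i (κ b j)) +
        4 * ((∑ a, ∑ j, Dec_i (ρ a j)) * ∑ b, ∑ j, Dec_i (κ b j)) := by
  have h1 : ∀ τ : Fin n → Fin (n + 1) → ZMod q,
      ∑ b, ∑ j, ‖Dec_g (τ b) j‖ ≤ 2 * ∑ b, ∑ j, Dec_i (τ b j) := by
    intro τ
    simp only [Finset.mul_sum]
    exact Finset.sum_le_sum fun b _ => Finset.sum_le_sum fun j _ => Dec_g_le _ _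
  have h2 : ∀ a, ∑ u, ∑ w, ‖Dec_c ρ κ a u w‖ ≤
      (∑ w, ‖Dec_g (ρ a) w‖) + ∑ b, ‖Dec_x ρ κ a b‖ := by
    intro a
    have e1 : ∑ w, ‖Dec_g (ρ a) w‖ =
        ∑ u : Fin (n + 1), ∑ w, if u = 0 then ‖Dec_g (ρ a) w‖ else 0 := by
      rw [Finset.sum_comm]
      simp
    have e2 : ∑ b, ‖Dec_x ρ κ a b‖ = ∑ u : Fin (n + 1), ∑ w : Fin (n + 1), ∑ b : Fin n,
        if u = b.castSucc ∧ w = b.succ then ‖Dec_x ρ κ a b‖ else 0 := by
      have e : ∀ u : Fin (n + 1), (∑ w : Fin (n + 1), ∑ b : Fin n,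
          if u = b.castSucc ∧ w = b.succ then ‖Dec_x ρ κ a b‖ else 0) =
          ∑ b : Fin n, ∑ w : Fin (n + 1),
            if u = b.castSucc ∧ w = b.succ then ‖Dec_x ρ κ a b‖ else 0 :=
        fun u => Finset.sum_comm
      simp only [e]
      rw [Finset.sum_comm]
      refine Finset.sum_congr rfl fun b _ => ?_
      simp [ite_and]
    rw [e1, e2, ← Finset.sum_add_distrib]
    refine Finset.sum_le_sum fun u _ => ?_
    rw [← Finset.sum_add_distrib]
    refine Finset.sum_le_sum fun w _ => ?_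
    refine (norm_add_le _ _).trans (add_le_add ?_ ?_)
    · split_ifs <;> simp
    · refine (norm_sum_le _ _).trans (Finset.sum_le_sum fun b _ => ?_)
      split_ifs <;> simp
  have h3 : ∑ a, ∑ b, ‖Dec_x ρ κ a b‖ ≤
      4 * ((∑ a, ∑ j, Dec_i (ρ a j)) * ∑ b, ∑ j, Dec_i (κ b j)) := by
    rw [Finset.sum_mul_sum, Finset.mul_sum]
    refine Finset.sum_le_sum fun a _ => ?_
    rw [Finset.mul_sum]
    refine Finset.sum_le_sum fun b _ => ?_
    rw [Dec_x, norm_mul]
    refine (mul_le_mul (Dec_tel_le _ _) (Dec_tel_le _ _) (norm_nonneg _)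
      (mul_nonneg (by norm_num) (Finset.sum_nonneg fun j _ => Dec_i_nonneg _))).trans
      (le_of_eq (by ring))
  have h4 : ∑ a, ∑ u, ∑ w, ‖Dec_c ρ κ a u w‖ ≤
      (∑ a, ∑ w, ‖Dec_g (ρ a) w‖) + ∑ a, ∑ b, ‖Dec_x ρ κ a b‖ := by
    rw [← Finset.sum_add_distrib]
    exact Finset.sum_le_sum fun a _ => h2 a
  linarith [h1 ρ, h1 κ]

end layer

theorem Dec_count {q s n : ℕ} (m : Zv q s n → ZMod q) :
    (∑ l : Fin s, ∑ a, ∑ j, Dec_i (m (.inl (l, a, j)))) +
      (∑ l : Fin s, ∑ b, ∑ j, Dec_i (m (.inr (.inl (l, b, j))))) ≤ hammingNorm m := by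
  have e : (hammingNorm m : ℝ) = ∑ z, Dec_i (m z) := by
    simp only [hammingNorm, Dec_i, Finset.card_filter]
    push_cast
    rfl
  rw [e, Fintype.sum_sum_type, Fintype.sum_sum_type]
  simp only [Fintype.sum_prod_type]
  have : 0 ≤ ∑ i : Fin q, ∑ a : Fin n, ∑ j : Fin (n ^ q + 1),
      Dec_i (m (.inr (.inr (i, a, j)))) :=
    Finset.sum_nonneg fun _ _ => Finset.sum_nonneg fun _ _ => Finset.sum_nonneg fun _ _ =>
      Dec_i_nonneg _
  linarith

/-- A point of the ball differs from the centre by few elementary pieces. -/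
theorem decomp {q s n : ℕ} [NeZero q] (J : JT q s n) (m : Zv q s n → ZMod q) {L : ℕ}
    (hm : hammingNorm m ≤ L) :
    Decomp (6 * (L : ℝ) ^ 2) s (XJ J) (XJ (J + (phi m).1)) := by
  refine ⟨fun l => if h : l < s then
      Dec_c (fun a j => m (.inl (⟨l, h⟩, a, j))) (fun b j => m (.inr (.inl (⟨l, h⟩, b, j))))
      else 0,
    fun l b => if h : l < s then Dec_g (fun j => m (.inr (.inl (⟨l, h⟩, b, j)))) else 0,
    fun l h => ?_, ?_⟩
  · simp only [XJ, dif_pos h]
    exact Dec_layer (J ⟨l, h⟩) _ _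
  · rw [Finset.sum_range]
    simp only [Fin.is_lt, dif_pos, Fin.eta]
    set R : Fin s → ℝ := fun l => ∑ a, ∑ j, Dec_i (m (.inl (l, a, j))) with hR
    set C : Fin s → ℝ := fun l => ∑ b, ∑ j, Dec_i (m (.inr (.inl (l, b, j)))) with hC
    have hR0 : ∀ l, 0 ≤ R l := fun l =>
      Finset.sum_nonneg fun _ _ => Finset.sum_nonneg fun _ _ => Dec_i_nonneg _
    have hC0 : ∀ l, 0 ≤ C l := fun l =>
      Finset.sum_nonneg fun _ _ => Finset.sum_nonneg fun _ _ => Dec_i_nonneg _
    refine (Finset.sum_le_sum (g := fun l => 2 * R l + 2 * C l + 4 * (R l * ∑ l', C l'))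
      fun l _ => ?_).trans ?_
    · refine (Dec_weight (fun a j => m (.inl (l, a, j)))
        (fun b j => m (.inr (.inl (l, b, j))))).trans ?_
      have : C l ≤ ∑ l', C l' :=
        Finset.single_le_sum (f := C) (fun l' _ => hC0 l') (Finset.mem_univ l)
      have := mul_le_mul_of_nonneg_left this (hR0 l)
      simp only [hR, hC] at this ⊢
      linarith
    · simp only [Finset.sum_add_distrib, ← Finset.mul_sum, ← Finset.sum_mul]
      have h1 : ∑ l, R l + ∑ l, C l ≤ L := (Dec_count m).trans (Nat.cast_le.2 hm)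
      have h2 : 0 ≤ ∑ l, R l := Finset.sum_nonneg fun l _ => hR0 l
      have h3 : 0 ≤ ∑ l, C l := Finset.sum_nonneg fun l _ => hC0 l
      have h4 : (L : ℝ) ≤ (L : ℝ) ^ 2 := by exact_mod_cast Nat.le_self_pow two_ne_zero L
      nlinarith [sq_nonneg (∑ l, R l - ∑ l, C l)]

end Pool.Agent.Lib.MP_8a52c3_lc.Ac0
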