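import Pool.Agent.Lib.MP_8a52c3_lc.Ac0.Nrm
import Pool.Agent.Lib.MP_8a52c3_lc.Ac0.PrEq

namespace Pool.Agent.Lib.MP_8a52c3_lc.Ac0

open Matrix Filter
open scoped BigOperators

variable {n : ℕ}

theorem Duh_pr_succ (X : ℕ → Matrix (Fin n) (Fin n) ℂ) {i j : ℕ} (h : i ≤ j) :
    pr X i (j + 1) = X j * pr X i j := by
  rw [pr, if_pos h]

theorem Duh_pr_self (X : ℕ → Matrix (Fin n) (Fin n) ℂ) (j : ℕ) : pr X j j = 1 := by
  cases j with
  | zero => rfl
  | succ j => rw [pr, if_neg (by omega)]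

theorem pr_duhamel (X X' : ℕ → Matrix (Fin n) (Fin n) ℂ) (j : ℕ) :
    pr X' 0 j = pr X 0 j +
      ∑ l ∈ Finset.range j, pr X (l + 1) j * (X' l - X l) * pr X' 0 l := by
  induction j with
  | zero => simp [pr]
  | succ j ih =>
    have e : ∑ l ∈ Finset.range j, pr X (l + 1) (j + 1) * (X' l - X l) * pr X' 0 l =
        X j * ∑ l ∈ Finset.range j, pr X (l + 1) j * (X' l - X l) * pr X' 0 l := by
      rw [Finset.mul_sum]
      refine Finset.sum_congr rfl fun l hl => ?_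
      rw [Duh_pr_succ X (Nat.succ_le_of_lt (Finset.mem_range.1 hl))]
      simp only [Matrix.mul_assoc]
    rw [Finset.sum_range_succ, e, Duh_pr_self, Duh_pr_succ X (Nat.zero_le j),
      Duh_pr_succ X' (Nat.zero_le j), ← add_assoc, ← Matrix.mul_add, ← ih, Matrix.one_mul,
      Matrix.sub_mul]
    abel

/-- A seminorm of a decomposed matrix is bounded by the weight. -/
theorem Duh_weight (N : Matrix (Fin n) (Fin n) ℂ → ℝ)
    (hadd : ∀ A B, N (A + B) ≤ N A + N B) (hsmul : ∀ (c : ℂ) A, N (c • A) = ‖c‖ * N A)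
    (hsum : ∀ (κ : Type) [Fintype κ] (f : κ → Matrix (Fin n) (Fin n) ℂ),
      N (∑ k, f k) ≤ ∑ k, N (f k))
    (γ : Fin n → Fin (n + 1) → Fin (n + 1) → ℂ) (γ' : Fin n → Fin (n + 1) → ℂ)
    (A : Fin n → Fin (n + 1) → Fin (n + 1) → Matrix (Fin n) (Fin n) ℂ)
    (B : Fin n → Fin (n + 1) → Matrix (Fin n) (Fin n) ℂ) {M : ℝ}
    (hA : ∀ a u w, N (A a u w) ≤ M) (hB : ∀ b j, N (B b j) ≤ M) :
    N ((∑ a, ∑ u, ∑ w, γ a u w • A a u w) + ∑ b, ∑ j, γ' b j • B b j) ≤
      M * ((∑ a, ∑ u, ∑ w, ‖γ a u w‖) + ∑ b, ∑ j, ‖γ' b j‖) := by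
  refine (hadd _ _).trans ?_
  rw [mul_add]
  refine add_le_add ?_ ?_
  · rw [Finset.mul_sum]
    refine (hsum _ _).trans (Finset.sum_le_sum fun a _ => ?_)
    rw [Finset.mul_sum]
    refine (hsum _ _).trans (Finset.sum_le_sum fun u _ => ?_)
    rw [Finset.mul_sum]
    refine (hsum _ _).trans (Finset.sum_le_sum fun w _ => ?_)
    rw [hsmul, mul_comm M]
    exact mul_le_mul_of_nonneg_left (hA a u w) (norm_nonneg _)
  · rw [Finset.mul_sum]
    refine (hsum _ _).trans (Finset.sum_le_sum fun b _ => ?_)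
    rw [Finset.mul_sum]
    refine (hsum _ _).trans (Finset.sum_le_sum fun j _ => ?_)
    rw [hsmul, mul_comm M]
    exact mul_le_mul_of_nonneg_left (hB b j) (norm_nonneg _)

theorem Duh_dot_rank (ξ x y v : Fin n → ℂ) :
    ξ ⬝ᵥ (vecMulVec x y *ᵥ v) = (ξ ⬝ᵥ x) * (y ⬝ᵥ v) := by
  rw [vecMulVec_mulVec, op_smul_eq_smul, dotProduct_smul, smul_eq_mul, mul_comm]

theorem Duh_scalar (ξ v : Fin n → ℂ) (Y : Matrix (Fin n) (Fin n) ℂ)
    (γ : Fin n → Fin (n + 1) → Fin (n + 1) → ℂ) (γ' : Fin n → Fin (n + 1) → ℂ) {M : ℝ}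
    (hA : ∀ a u w, ‖ξ ⬝ᵥ Pi.single a 1‖ * ‖rowI Y a u w ⬝ᵥ v‖ ≤ M)
    (hB : ∀ b j, ‖ξ ⬝ᵥ colP Y b j‖ * ‖v b‖ ≤ M) :
    ‖ξ ⬝ᵥ (((∑ a, ∑ u, ∑ w, γ a u w • vecMulVec (Pi.single a 1) (rowI Y a u w)) +
        ∑ b, ∑ j, γ' b j • vecMulVec (colP Y b j) (Pi.single b 1)) *ᵥ v)‖ ≤
      M * ((∑ a, ∑ u, ∑ w, ‖γ a u w‖) + ∑ b, ∑ j, ‖γ' b j‖) := by
  refine Duh_weight (fun D => ‖ξ ⬝ᵥ (D *ᵥ v)‖) ?_ ?_ ?_ γ γ' _ _ ?_ ?_
  · intro A B
    rw [add_mulVec, dotProduct_add]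
    exact norm_add_le _ _
  · intro c A
    rw [smul_mulVec, dotProduct_smul, norm_smul]
  · intro κ _ f
    rw [sum_mulVec, dotProduct_sum]
    exact norm_sum_le _ _
  · intro a u w
    rw [Duh_dot_rank, norm_mul]
    exact hA a u w
  · intro b j
    rw [Duh_dot_rank, norm_mul, single_one_dotProduct]
    exact hB b j

theorem Duh_matrix (P Q Y : Matrix (Fin n) (Fin n) ℂ)
    (γ : Fin n → Fin (n + 1) → Fin (n + 1) → ℂ) (γ' : Fin n → Fin (n + 1) → ℂ) {M : ℝ}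
    (hA : ∀ a u w, nrm (P *ᵥ Pi.single a 1) * nrm (rowI Y a u w ᵥ* Q) ≤ M)
    (hB : ∀ b j, nrm (P *ᵥ colP Y b j) * nrm (Pi.single b 1 ᵥ* Q) ≤ M) :
    fro (P * ((∑ a, ∑ u, ∑ w, γ a u w • vecMulVec (Pi.single a 1) (rowI Y a u w)) +
        ∑ b, ∑ j, γ' b j • vecMulVec (colP Y b j) (Pi.single b 1)) * Q) ≤
      M * ((∑ a, ∑ u, ∑ w, ‖γ a u w‖) + ∑ b, ∑ j, ‖γ' b j‖) := by
  refine Duh_weight (fun D => fro (P * D * Q)) ?_ ?_ ?_ γ γ' _ _ ?_ ?_
  · intro A B
    rw [Matrix.mul_add, Matrix.add_mul]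
    exact fro_add_le _ _
  · intro c A
    rw [Matrix.mul_smul, Matrix.smul_mul, fro_smul]
  · intro κ _ f
    rw [Finset.mul_sum, Finset.sum_mul]
    exact fro_sum_le _ _
  · intro a u w
    rw [mul_vecMulVec, vecMulVec_mul, fro_vecMulVec]
    exact hA a u w
  · intro b j
    rw [mul_vecMulVec, vecMulVec_mul, fro_vecMulVec]
    exact hB b j

theorem Duh_full (Y : Matrix (Fin n) (Fin n) ℂ) (a : Fin n) (v : Fin n → ℂ) :
    (Y *ᵥ v) a = rowI Y a 0 (Fin.last n) ⬝ᵥ v := by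
  have : rowI Y a 0 (Fin.last n) = Y a := by
    funext b
    simp [rowI]
  rw [this]
  rfl

theorem Duh_entry (Y : Matrix (Fin n) (Fin n) ℂ) (a b : Fin n) :
    Y a b = (Y *ᵥ Pi.single b 1) a := by
  simp

theorem Duh_single_le (a b : Fin n) : ‖(Pi.single a 1 : Fin n → ℂ) b‖ ≤ 1 := by
  rw [Pi.single_apply]
  split_ifs <;> simp

/-- Stability of the long product under elementary perturbations. -/
theorem duhamel {s : ℕ} (hs : 1 ≤ s) {η W : ℝ} (hη : 0 ≤ η) (hW : 0 ≤ W)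
    (X X' : ℕ → Matrix (Fin n) (Fin n) ℂ) (hB : EvB η s X) (hD : Decomp W s X X')
    (hsm : (1 + W) ^ 2 * η ≤ 1) :
    (∀ a b, ‖pr X 0 s a b‖ ≤ η) ∧ (∀ a b, ‖pr X' 0 s a b‖ ≤ (1 + W) ^ 2 * η) ∧
      fro (pr X' 0 s - pr X 0 s) ^ 2 ≤
        W ^ 2 * (n * η ^ 2 + 1) * (n * ((1 + W) ^ 2 * η) ^ 2 + 1) := by
  obtain ⟨γ, γ', hdec, hwt⟩ := hD
  set wt : ℕ → ℝ := fun l => (∑ a, ∑ u, ∑ w, ‖γ l a u w‖) + ∑ b, ∑ j, ‖γ' l b j‖ with hwtdef
  have wt0 : ∀ l, 0 ≤ wt l := fun l => by simp only [hwtdef]; positivity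
  have wtle : ∀ j ≤ s, ∑ l ∈ Finset.range j, wt l ≤ W := fun j hj =>
    (Finset.sum_le_sum_of_subset_of_nonneg (Finset.range_mono hj) fun l _ _ => wt0 l).trans hwt
  have wt1 : ∀ l < s, wt l ≤ W := fun l hl =>
    (Finset.single_le_sum (fun l _ => wt0 l) (Finset.mem_range.2 hl)).trans hwt
  have k0 : η ≤ (1 + W) * η := by nlinarith
  have k1 : (1 + W) * η ≤ (1 + W) ^ 2 * η := by nlinarith [mul_nonneg hW hη]
  have k2 : (1 + W) * η ≤ 1 := k1.trans hsm
  have k3 : 0 ≤ (1 + W) * η := hη.trans k0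
  have ent : ∀ l < s, ∀ a b, ‖X l a b‖ ≤ η := fun l hl a b => by
    have := (hB l hl a 0 (Fin.last n) l le_rfl).1 b
    rwa [Duh_pr_self, one_mulVec, ← Duh_full, ← Duh_entry] at this
  have col : ∀ l < s, ∀ b j a, ‖colP (X l) b j a‖ ≤ η := fun l hl b j a => by
    unfold colP
    split_ifs
    · exact ent l hl a b
    · simpa using hη
  -- one step for basis covectors
  have stepT : ∀ (c : Fin n) (j : ℕ), j < s →
      (∀ a u w, ‖rowI (X j) a u w ⬝ᵥ (pr X' 0 j *ᵥ Pi.single c 1)‖ ≤ (1 + W) * η) →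
      (∀ a, ‖(pr X' 0 j *ᵥ Pi.single c 1) a‖ ≤ 1) →
      ∀ a, ‖(pr X' 0 (j + 1) *ᵥ Pi.single c 1) a‖ ≤ (1 + W) ^ 2 * η := by
    intro c j hj hS hT a
    set v := pr X' 0 j *ᵥ Pi.single c 1 with hv
    have e : (pr X' 0 (j + 1) *ᵥ Pi.single c 1) a =
        rowI (X j) a 0 (Fin.last n) ⬝ᵥ v + Pi.single a 1 ⬝ᵥ ((X' j - X j) *ᵥ v) := by
      rw [Duh_pr_succ X' (Nat.zero_le j), ← mulVec_mulVec, ← hv, ← Duh_full,
        single_one_dotProduct, sub_mulVec, Pi.sub_apply]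
      ring
    have h2 : ‖Pi.single a 1 ⬝ᵥ ((X' j - X j) *ᵥ v)‖ ≤ (1 + W) * η * wt j := by
      rw [hdec j hj]
      refine Duh_scalar _ _ _ _ _ (fun a' u w => ?_) fun b j' => ?_
      · rw [single_one_dotProduct]
        calc _ ≤ 1 * ((1 + W) * η) :=
              mul_le_mul (Duh_single_le _ _) (hS a' u w) (norm_nonneg _) zero_le_one
          _ = _ := one_mul _
      · rw [single_one_dotProduct]
        calc _ ≤ (1 + W) * η * 1 :=
              mul_le_mul ((col j hj b j' a).trans k0) (hT b) (norm_nonneg _) k3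
          _ = _ := mul_one _
    rw [e]
    refine (norm_add_le _ _).trans ?_
    have h3 := mul_le_mul_of_nonneg_left (wt1 j hj) k3
    have h4 := hS a 0 (Fin.last n)
    nlinarith
  have main : ∀ (c : Fin n) (j : ℕ), (j < s →
      ∀ a u w, ‖rowI (X j) a u w ⬝ᵥ (pr X' 0 j *ᵥ Pi.single c 1)‖ ≤ (1 + W) * η) ∧
      (j ≤ s → ∀ a, ‖(pr X' 0 j *ᵥ Pi.single c 1) a‖ ≤ 1) := by
    intro c j
    induction j using Nat.strong_induction_on with
    | _ j ih =>
      constructor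
      · intro hj a u w
        rw [pr_duhamel X X' j, add_mulVec, dotProduct_add, sum_mulVec, dotProduct_sum]
        refine (norm_add_le _ _).trans ?_
        have h1 := (hB j hj a u w 0 (Nat.zero_le j)).1 c
        have h2 : ‖∑ l ∈ Finset.range j, rowI (X j) a u w ⬝ᵥ
            ((pr X (l + 1) j * (X' l - X l) * pr X' 0 l) *ᵥ Pi.single c 1)‖ ≤ η * W := by
          refine (norm_sum_le _ _).trans (le_trans ?_ (mul_le_mul_of_nonneg_left (wtle j hj.le) hη))
          rw [Finset.mul_sum]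
          refine Finset.sum_le_sum fun l hl => ?_
          have hl' : l < j := Finset.mem_range.1 hl
          have hb := hB j hj a u w (l + 1) hl'
          rw [← mulVec_mulVec, ← mulVec_mulVec, dotProduct_mulVec, hdec l (hl'.trans hj)]
          refine Duh_scalar _ _ _ _ _ (fun a' u' w' => ?_) fun b j' => ?_
          · rw [← dotProduct_mulVec]
            calc _ ≤ η * 1 := mul_le_mul (hb.1 a')
                  (((ih l hl').1 (hl'.trans hj) a' u' w').trans k2) (norm_nonneg _) hη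
              _ = _ := mul_one _
          · rw [← dotProduct_mulVec]
            calc _ ≤ η * 1 := mul_le_mul (hb.2 l rfl b j')
                  ((ih l hl').2 (hl'.trans hj).le b) (norm_nonneg _) hη
              _ = _ := mul_one _
        linarith
      · intro hj a
        cases j with
        | zero =>
          rw [Duh_pr_self, one_mulVec]
          exact Duh_single_le _ _
        | succ j =>
          exact (stepT c j hj ((ih j (Nat.lt_succ_self j)).1 hj)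
            ((ih j (Nat.lt_succ_self j)).2 (Nat.le_of_succ_le hj)) a).trans hsm
  have T2 : ∀ j < s, ∀ a c, ‖pr X' 0 (j + 1) a c‖ ≤ (1 + W) ^ 2 * η := fun j hj a c => by
    rw [Duh_entry (pr X' 0 (j + 1))]
    exact stepT c j hj ((main c j).1 hj) ((main c j).2 hj.le) a
  obtain ⟨s, rfl⟩ : ∃ s', s = s' + 1 := ⟨s - 1, by omega⟩
  have hss := Nat.lt_succ_self s
  refine ⟨fun a b => ?_, T2 s hss, ?_⟩
  · rw [Duh_entry (pr X 0 (s + 1)), Duh_pr_succ X (Nat.zero_le s), ← mulVec_mulVec, Duh_full]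
    exact (hB s hss a 0 (Fin.last n) 0 (Nat.zero_le s)).1 b
  set τ := (1 + W) ^ 2 * η with hτ
  set A : ℝ := n * η ^ 2 + 1 with hA
  set B : ℝ := n * τ ^ 2 + 1 with hB'
  have A0 : 0 ≤ (n : ℝ) * η ^ 2 := by positivity
  have B0 : 0 ≤ (n : ℝ) * τ ^ 2 := by positivity
  have card : ∀ {v : Fin n → ℂ} {c : ℝ}, (∀ i, ‖v i‖ ≤ c) → nrm v ≤ √(n * c ^ 2 + 1) := by
    intro v c h
    have := nrm_sq_le_card h
    rw [Fintype.card_fin] at this
    exact Real.le_sqrt_of_sq_le (by linarith)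
  have unit : ∀ (a : Fin n) (c : ℝ), nrm (Pi.single a 1 : Fin n → ℂ) ≤ √(n * c ^ 2 + 1) := by
    intro a c
    rw [nrm_single, norm_one]
    refine Real.le_sqrt_of_sq_le ?_
    have : 0 ≤ (n : ℝ) * c ^ 2 := by positivity
    linarith
  have hfro : fro (pr X' 0 (s + 1) - pr X 0 (s + 1)) ≤ √A * √B * W := by
    rw [pr_duhamel X X' (s + 1), add_sub_cancel_left]
    refine (fro_sum_le _ _).trans
      (le_trans ?_ (mul_le_mul_of_nonneg_left hwt (by positivity)))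
    rw [Finset.mul_sum]
    refine Finset.sum_le_sum fun l hl => ?_
    have hl' : l < s + 1 := Finset.mem_range.1 hl
    rw [hdec l hl']
    refine Duh_matrix _ _ _ _ _ (fun a u w => ?_) fun b j => ?_
    · refine mul_le_mul ?_ (card fun c => ?_) (nrm_nonneg _) (Real.sqrt_nonneg _)
      · rcases Nat.lt_or_ge l s with h | h
        · refine card fun a' => ?_
          rw [Duh_pr_succ X (Nat.succ_le_of_lt h), ← mulVec_mulVec, Duh_full]
          exact (hB s hss a' 0 (Fin.last n) (l + 1) h).1 a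
        · obtain rfl : l = s := by omega
          rw [Duh_pr_self, one_mulVec]
          exact unit a η
      · rw [← dotProduct_single_one (rowI (X l) a u w ᵥ* pr X' 0 l) c, ← dotProduct_mulVec]
        exact ((main c l).1 hl' a u w).trans k1
    · refine mul_le_mul (card fun a' => ?_) ?_ (nrm_nonneg _) (Real.sqrt_nonneg _)
      · rcases Nat.lt_or_ge l s with h | h
        · rw [Duh_pr_succ X (Nat.succ_le_of_lt h), ← mulVec_mulVec, Duh_full]
          exact (hB s hss a' 0 (Fin.last n) (l + 1) h).2 l rfl b j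
        · obtain rfl : l = s := by omega
          rw [Duh_pr_self, one_mulVec]
          exact col l hl' b j a'
      · cases l with
        | zero =>
          rw [Duh_pr_self, vecMul_one]
          exact unit b τ
        | succ l =>
          refine card fun c => ?_
          rw [single_one_vecMul]
          exact T2 l (by omega) b c
  calc _ ≤ (√A * √B * W) ^ 2 := pow_le_pow_left₀ (fro_nonneg _) hfro 2
    _ = W ^ 2 * A * B := by
      rw [mul_pow, mul_pow, Real.sq_sqrt (by linarith), Real.sq_sqrt (by linarith)]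
      ring

end Pool.Agent.Lib.MP_8a52c3_lc.Ac0
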