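import Pool.Agent.Lib.MP_8a52c3_lc.Ac0.GDefs

namespace Pool.Agent.Lib.MP_8a52c3_lc.Ac0

open Matrix Filter
open scoped BigOperators

section ec

variable {q : ℕ} [NeZero q]

theorem ec_zero : ec (0 : ZMod q) = 1 := AddChar.map_zero_eq_one _

theorem ec_add (a b : ZMod q) : ec (a + b) = ec a * ec b := AddChar.map_add_eq_mul _ a b

theorem norm_ec (a : ZMod q) : ‖ec a‖ = 1 := by
  unfold ec
  rw [ZMod.stdAddChar_apply]
  exact Circle.norm_coe _

theorem Ec_mul_neg (a : ZMod q) : ec a * ec (-a) = 1 := by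
  rw [← ec_add, add_neg_cancel, ec_zero]

theorem ec_neg (a : ZMod q) : ec (-a) = (starRingEnd ℂ) (ec a) := by
  rw [← Complex.inv_eq_conj (norm_ec a)]
  exact eq_inv_of_mul_eq_one_right (Ec_mul_neg a)

theorem ec_mul_neg (a : ZMod q) : ec a * ec (-a) = 1 := Ec_mul_neg a

theorem ec_sum {κ : Type} (S : Finset κ) (f : κ → ZMod q) :
    ec (∑ k ∈ S, f k) = ∏ k ∈ S, ec (f k) := by
  classical
  induction S using Finset.induction_on with
  | empty => simp [ec_zero]
  | insert a S ha ih => rw [Finset.sum_insert ha, Finset.prod_insert ha, ec_add, ih]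

theorem ec_pow_self (a : ZMod q) : ec a ^ q = 1 := by
  unfold ec
  rw [← AddChar.map_nsmul_eq_pow, nsmul_eq_mul, ZMod.natCast_self, zero_mul,
    AddChar.map_zero_eq_one]

theorem ec_injective : Function.Injective (ec : ZMod q → ℂ) := ZMod.injective_stdAddChar

theorem sum_ec (hq : 2 ≤ q) : ∑ a : ZMod q, ec a = 0 := by
  have : Fact (1 < q) := ⟨hq⟩
  refine AddChar.sum_eq_zero_of_ne_one (ψ := ZMod.stdAddChar (N := q)) fun h => ?_
  have h1 : ec (1 : ZMod q) = ec (0 : ZMod q) := by
    unfold ec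
    rw [h]
    rfl
  exact one_ne_zero (ec_injective h1)

theorem norm_ec_sub_one_le (a : ZMod q) : ‖ec a - 1‖ ≤ 2 := by
  have := norm_sub_le (ec a) 1
  rw [norm_ec, norm_one] at this
  linarith

/-- Every `q`-th root of unity is a value of `ec`, in product form. -/
theorem prod_sub_ec (z : ℂ) : ∏ a : ZMod q, (z - ec a) = z ^ q - 1 := by
  classical
  have hq : 0 < q := NeZero.pos q
  have hζ := Complex.isPrimitiveRoot_exp q hq.ne'
  have himg : Finset.univ.image (ec : ZMod q → ℂ) = Polynomial.nthRootsFinset q (1 : ℂ) := by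
    refine Finset.eq_of_subset_of_card_le ?_ ?_
    · intro x hx
      obtain ⟨a, -, rfl⟩ := Finset.mem_image.1 hx
      exact (Polynomial.mem_nthRootsFinset hq _).2 (ec_pow_self a)
    · rw [hζ.card_nthRootsFinset, Finset.card_image_of_injective _ ec_injective, Finset.card_univ,
        ZMod.card]
  have h := congrArg (Polynomial.eval z) (Polynomial.X_pow_sub_one_eq_prod hq hζ)
  rw [← himg, Finset.prod_image fun a _ b _ e => ec_injective e, Polynomial.eval_prod] at h
  simpa using h.symm

end ec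

end Pool.Agent.Lib.MP_8a52c3_lc.Ac0
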