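import Pool.Agent.Lib.MP_8a52c3_lc.Ac0.Nrm

namespace Pool.Agent.Lib.MP_8a52c3_lc.Ac0

open Matrix Filter
open scoped BigOperators

variable {q n : ℕ}

theorem Ten_nrm_cons {ι : Type} [Fintype ι] (x : ι → ℂ) (y : (Fin q → ι) → ℂ) :
    nrm (fun B : Fin (q + 1) → ι => x (B 0) * y fun i => B i.succ) = nrm x * nrm y := by
  apply (pow_left_inj₀ (nrm_nonneg _) (mul_nonneg (nrm_nonneg _) (nrm_nonneg _)) two_ne_zero).mp
  rw [mul_pow, nrm_sq, nrm_sq, nrm_sq, Finset.sum_mul_sum, ← Finset.sum_product',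
    Finset.univ_product_univ, ← (Fin.consEquiv fun _ : Fin (q + 1) => ι).sum_comp]
  refine Finset.sum_congr rfl fun p _ => ?_
  simp [Fin.consEquiv, mul_pow]

theorem Ten_vec_diff {ι : Type} [Fintype ι] (u v : ι → ℂ) {R : ℝ} (hu : nrm u ≤ R)
    (hv : nrm v ≤ R) (q : ℕ) :
    nrm (fun B : Fin q → ι => ∏ i, u (B i) - ∏ i, v (B i)) ≤ q * nrm (u - v) * R ^ (q - 1) := by
  have hR : 0 ≤ R := (nrm_nonneg u).trans hu
  have hd := nrm_nonneg (u - v)
  induction q with
  | zero =>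
    have : (fun B : Fin 0 → ι => ∏ i, u (B i) - ∏ i, v (B i)) = 0 := by
      funext B; simp
    rw [this, nrm_zero]; simp
  | succ q ih =>
    have e : (fun B : Fin (q + 1) → ι => ∏ i, u (B i) - ∏ i, v (B i)) =
        (fun B : Fin (q + 1) → ι => (u - v) (B 0) *
          (fun C : Fin q → ι => ∏ i, u (C i)) fun i => B i.succ) +
        fun B : Fin (q + 1) → ι => v (B 0) *
          (fun C : Fin q → ι => ∏ i, u (C i) - ∏ i, v (C i)) fun i => B i.succ := by
      funext B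
      simp only [Fin.prod_univ_succ, Pi.add_apply, Pi.sub_apply]
      ring
    rw [e]
    refine (nrm_add_le _ _).trans ?_
    rw [Ten_nrm_cons (u - v) (fun C : Fin q → ι => ∏ i, u (C i)),
      Ten_nrm_cons v (fun C : Fin q → ι => ∏ i, u (C i) - ∏ i, v (C i)), nrm_tensor]
    have h1 : nrm u ^ q ≤ R ^ q := pow_le_pow_left₀ (nrm_nonneg u) hu q
    have h2 : R * (q * nrm (u - v) * R ^ (q - 1)) = q * nrm (u - v) * R ^ q := by
      rcases q with _ | q
      · simp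
      · simp only [Nat.add_sub_cancel]; ring
    calc _ ≤ nrm (u - v) * R ^ q + R * (q * nrm (u - v) * R ^ (q - 1)) :=
          add_le_add (mul_le_mul_of_nonneg_left h1 hd)
            (mul_le_mul hv ih (nrm_nonneg _) hR)
      _ = _ := by
          rw [h2, Nat.add_sub_cancel]; push_cast; ring

/-- Tensor powers of close matrices are close. -/
theorem tensor_diff (P Q : Matrix (Fin n) (Fin n) ℂ) {R : ℝ} (hP : fro P ≤ R) (hQ : fro Q ≤ R) :
    ∑ A : Fin q → Fin n, ∑ B : Fin q → Fin n, ‖∏ i, P (A i) (B i) - ∏ i, Q (A i) (B i)‖ ^ 2 ≤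
      (q * fro (P - Q) * R ^ (q - 1)) ^ 2 := by
  have h := Ten_vec_diff (fun e : Fin n × Fin n => P e.1 e.2) (fun e => Q e.1 e.2) hP hQ q
  have h2 := pow_le_pow_left₀ (nrm_nonneg _) h 2
  rw [nrm_sq] at h2
  refine le_trans (le_of_eq ?_) h2
  rw [← Finset.sum_product', Finset.univ_product_univ,
    ← (Equiv.arrowProdEquivProdArrow (Fin q) (fun _ => Fin n) fun _ => Fin n).sum_comp]
  rfl

/-- Mass of one slice of a tensor power. -/
theorem tensor_slice (P : Matrix (Fin n) (Fin n) ℂ) (i : Fin q) (a : Fin n) :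
    ∑ A : Fin q → Fin n with A i = a, ∑ B : Fin q → Fin n, ‖∏ i, P (A i) (B i)‖ ^ 2 =
      (∑ b, ‖P a b‖ ^ 2) * fro P ^ (2 * (q - 1)) := by
  have h1 : ∀ A : Fin q → Fin n, ∑ B : Fin q → Fin n, ‖∏ i, P (A i) (B i)‖ ^ 2 =
      ∏ j, ∑ b, ‖P (A j) b‖ ^ 2 := by
    intro A
    rw [Finset.prod_univ_sum, Fintype.piFinset_univ]
    refine Finset.sum_congr rfl fun B _ => ?_
    rw [norm_prod, Finset.prod_pow]
  have h2 : ∀ A : Fin q → Fin n, (if A i = a then ∏ j, ∑ b, ‖P (A j) b‖ ^ 2 else 0) =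
      ∏ j, (if j = i then (if A j = a then ∑ b, ‖P (A j) b‖ ^ 2 else 0)
        else ∑ b, ‖P (A j) b‖ ^ 2) := by
    intro A
    split_ifs with h
    · refine Finset.prod_congr rfl fun j _ => ?_
      split_ifs with h' h''
      · rfl
      · exact absurd (h' ▸ h) h''
      · rfl
    · symm
      refine Finset.prod_eq_zero (Finset.mem_univ i) ?_
      rw [if_pos rfl, if_neg h]
  have h3 := Finset.prod_univ_sum (fun _ : Fin q => (Finset.univ : Finset (Fin n)))
    fun j x => (if j = i then (if x = a then ∑ b, ‖P x b‖ ^ 2 else 0) else ∑ b, ‖P x b‖ ^ 2)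
  rw [Fintype.piFinset_univ] at h3
  simp only [h1]
  rw [Finset.sum_filter]
  simp only [h2]
  rw [← h3, ← Finset.mul_prod_erase _ _ (Finset.mem_univ i)]
  congr 1
  · simp
  · rw [Finset.prod_congr rfl (g := fun _ => fro P ^ 2), Finset.prod_const,
      Finset.card_erase_of_mem (Finset.mem_univ i), Finset.card_univ, Fintype.card_fin, pow_mul]
    intro j hj
    simp only [if_neg (Finset.ne_of_mem_erase hj)]
    exact (fro_sq P).symm

theorem Ten_point [NeZero q] (d : ZMod q) (x x' : ℂ) :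
    ‖ec d * x' - x‖ ^ 2 ≤ 8 * (if d ≠ 0 then ‖x'‖ ^ 2 else 0) + 2 * ‖x' - x‖ ^ 2 := by
  split_ifs with h
  · have e : ec d * x' - x = (ec d - 1) * x' + (x' - x) := by ring
    have h1 : ‖ec d * x' - x‖ ≤ 2 * ‖x'‖ + ‖x' - x‖ := by
      rw [e]
      refine (norm_add_le _ _).trans ?_
      rw [norm_mul]
      gcongr
      exact norm_ec_sub_one_le d
    have h2 := pow_le_pow_left₀ (norm_nonneg _) h1 2
    nlinarith [sq_nonneg (2 * ‖x'‖ - ‖x' - x‖)]
  · rw [not_not.mp h, ec_zero, one_mul]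
    nlinarith [sq_nonneg ‖x' - x‖]

/-- The coefficients of the perturbation of the tensor. -/
theorem tensor_pert [NeZero q] {s L : ℕ} (m : Zv q s n → ZMod q) (hm : hammingNorm m ≤ L)
    (P P' : Matrix (Fin n) (Fin n) ℂ) {R τ : ℝ} (hP : fro P ≤ R) (hP' : fro P' ≤ R)
    (hent : ∀ a b, ‖P' a b‖ ≤ τ) :
    ∑ A : Fin q → Fin n, ∑ B : Fin q → Fin n,
        ‖ec ((phi m).2 A) * ∏ i, P' (A i) (B i) - ∏ i, P (A i) (B i)‖ ^ 2 ≤
      (8 * L * (n * τ ^ 2) + 2 * q ^ 2 * fro (P' - P) ^ 2) * R ^ (2 * (q - 1)) := by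
  classical
  have hR : 0 ≤ R := (fro_nonneg P).trans hP
  obtain ⟨g, hg⟩ : ∃ g : (Fin q → Fin n) → ℝ,
      ∀ A, g A = ∑ B : Fin q → Fin n, ‖∏ i, P' (A i) (B i)‖ ^ 2 := ⟨_, fun _ => rfl⟩
  have hg0 : ∀ A, 0 ≤ g A := fun A => by rw [hg]; positivity
  let S : Finset (Fin q × Fin n × Fin (n ^ q + 1)) :=
    Finset.univ.filter fun t => m (.inr (.inr t)) ≠ 0
  have hS : S.card ≤ L := by
    refine le_trans ?_ hm
    unfold hammingNorm
    refine Finset.card_le_card_of_injOn (fun t => .inr (.inr t)) (fun t ht => ?_) ?_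
    · simpa [S] using ht
    · intro t _ t' _ h
      simpa using h
  have h1 : ∀ A : Fin q → Fin n, (if (phi m).2 A ≠ 0 then g A else 0) ≤
      ∑ t ∈ S, if A t.1 = t.2.1 then g A else 0 := by
    intro A
    have hnn : ∀ t ∈ S, 0 ≤ if A t.1 = t.2.1 then g A else 0 := fun t _ => by
      split_ifs
      · exact hg0 A
      · exact le_rfl
    split_ifs with h
    · simp only [phi] at h
      obtain ⟨i, -, hi⟩ := Finset.exists_ne_zero_of_sum_ne_zero h
      obtain ⟨j, -, hj⟩ := Finset.exists_ne_zero_of_sum_ne_zero hi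
      have hmem : (i, A i, j) ∈ S := by
        simp only [S, Finset.mem_filter, Finset.mem_univ, true_and]
        intro h0
        apply hj
        rw [h0, ite_self]
      simpa using Finset.single_le_sum hnn hmem
    · exact Finset.sum_nonneg hnn
  have h2 : ∀ t ∈ S, (∑ A : Fin q → Fin n, if A t.1 = t.2.1 then g A else 0) ≤
      n * τ ^ 2 * R ^ (2 * (q - 1)) := by
    intro t _
    rw [← Finset.sum_filter]
    simp only [hg]
    rw [tensor_slice]
    have a1 : ∑ b, ‖P' t.2.1 b‖ ^ 2 ≤ n * τ ^ 2 := by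
      have := nrm_sq_le_card (v := fun b => P' t.2.1 b) (hent t.2.1)
      rwa [nrm_sq, Fintype.card_fin] at this
    exact mul_le_mul a1 (pow_le_pow_left₀ (fro_nonneg _) hP' _)
      (pow_nonneg (fro_nonneg _) _) (by positivity)
  have h3 : (∑ A : Fin q → Fin n, if (phi m).2 A ≠ 0 then g A else 0) ≤
      L * (n * τ ^ 2 * R ^ (2 * (q - 1))) := by
    calc _ ≤ ∑ A : Fin q → Fin n, ∑ t ∈ S, if A t.1 = t.2.1 then g A else 0 :=
          Finset.sum_le_sum fun A _ => h1 A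
      _ = ∑ t ∈ S, ∑ A : Fin q → Fin n, if A t.1 = t.2.1 then g A else 0 := Finset.sum_comm
      _ ≤ S.card • (n * τ ^ 2 * R ^ (2 * (q - 1))) := Finset.sum_le_card_nsmul _ _ _ h2
      _ ≤ _ := by
          rw [nsmul_eq_mul]
          gcongr
  have h4 := tensor_diff (q := q) P' P hP' hP
  have h5 : ∀ A : Fin q → Fin n, ∑ B : Fin q → Fin n,
      ‖ec ((phi m).2 A) * ∏ i, P' (A i) (B i) - ∏ i, P (A i) (B i)‖ ^ 2 ≤
      8 * (if (phi m).2 A ≠ 0 then g A else 0) +
        2 * ∑ B : Fin q → Fin n, ‖∏ i, P' (A i) (B i) - ∏ i, P (A i) (B i)‖ ^ 2 := by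
    intro A
    refine (Finset.sum_le_sum fun B _ => Ten_point _ _ _).trans (le_of_eq ?_)
    rw [Finset.sum_add_distrib, ← Finset.mul_sum, ← Finset.mul_sum, hg]
    split_ifs <;> simp
  refine (Finset.sum_le_sum fun A _ => h5 A).trans ?_
  rw [Finset.sum_add_distrib, ← Finset.mul_sum, ← Finset.mul_sum]
  have e : (q * fro (P' - P) * R ^ (q - 1)) ^ 2 = q ^ 2 * fro (P' - P) ^ 2 * R ^ (2 * (q - 1)) := by
    rw [mul_comm 2 (q - 1), pow_mul]; ring
  rw [e] at h4
  linarith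

end Pool.Agent.Lib.MP_8a52c3_lc.Ac0
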