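import Pool.Agent.Lib.MP_8a52c3_lc.Ac0.Sub
import Pool.Agent.Lib.MP_8a52c3_lc.Ac0.Ten

namespace Pool.Agent.Lib.MP_8a52c3_lc.Ac0

open Matrix Filter
open scoped BigOperators

theorem EvK_root (q : ℕ) [NeZero q] {f : ℂ} (hf : f ≠ 0) :
    ∃ ω : ℂ, ‖ω‖ = 1 ∧ (‖f‖ : ℂ) * ω ^ q = f := by
  have h0 : (‖f‖ : ℂ) ≠ 0 := Complex.ofReal_ne_zero.2 (norm_ne_zero_iff.2 hf)
  obtain ⟨ω, hω⟩ := IsAlgClosed.exists_pow_nat_eq (f / (‖f‖ : ℂ)) (Nat.pos_of_ne_zero (NeZero.ne q))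
  refine ⟨ω, ?_, by rw [hω, mul_div_cancel₀ _ h0]⟩
  have h1 : ‖ω‖ ^ q = 1 := by
    rw [← norm_pow, hω, norm_div, Complex.norm_real, norm_norm, div_self (norm_ne_zero_iff.2 hf)]
  exact (pow_eq_one_iff_of_nonneg (norm_nonneg _) (NeZero.ne q)).1 h1

theorem EvK_exp {q n : ℕ} [NeZero q] (hq : 2 ≤ q)
    (c : (Fin q → Fin n) → (Fin q → Fin n) → ℂ) :
    𝔼 K : KT q n, nrm (fun B => ∑ A, ec (K A) * c A B) ^ 2 = ∑ A, ∑ B, ‖c A B‖ ^ 2 := by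
  simp only [nrm_sq]
  rw [Finset.expect_sum_comm, Finset.sum_comm]
  refine Finset.sum_congr rfl fun B _ => ?_
  rw [sub_sq hq fun A => c A B, nrm_sq]

theorem EvK_arith {η ε M Q R x y μ p : ℝ} (hη : 0 < η) (hε : 0 < ε) (hε1 : ε ≤ 1 / 2)
    (hp : 0 < p) (hμ : 0 < μ) (hx0 : 0 ≤ x) (hy0 : 0 ≤ y)
    (h : ε * (2 + 16 * M * Q) ≤ η ^ 2 / (2 * p)) (hx : x ≤ ε * R)
    (hy : y ^ 2 ≤ 8 * M * Q * ε * R ^ 2)
    (h2 : R ^ 2 / p / 2 ≤ μ ^ 2) : x + y ≤ η * μ := by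
  refine (pow_le_pow_iff_left₀ (by positivity) (by positivity) two_ne_zero).1 ?_
  have h3 : x ^ 2 ≤ ε * R ^ 2 := by
    have h4 := pow_le_pow_left₀ hx0 hx 2
    have h5 : ε ^ 2 ≤ ε := by nlinarith
    have h6 := mul_le_mul_of_nonneg_right h5 (sq_nonneg R)
    rw [mul_pow] at h4
    linarith
  have h7 := mul_le_mul_of_nonneg_right h (sq_nonneg R)
  have h8 := mul_le_mul_of_nonneg_left h2 (sq_nonneg η)
  have h9 : η ^ 2 / (2 * p) * R ^ 2 = η ^ 2 * (R ^ 2 / p / 2) := by field_simp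
  nlinarith [sq_nonneg (x - y)]

/-- The hyperedge part. -/
theorem evK (q : ℕ) [NeZero q] (hq : 2 ≤ q) {η : ℝ} (hη : 0 < η) :
    ∃ ε : ℝ, 0 < ε ∧ ε ≤ 1 / 2 ∧
      ∀ (n : ℕ) (P : Matrix (Fin n) (Fin n) ℂ) (t w : Fin n → ℂ), 0 < fro P → nrm t = 1 →
        fro (P - vecMulVec w t) ^ 2 ≤ ε * fro P ^ 2 → (1 - ε) * fro P ^ 2 ≤ nrm w ^ 2 →
        nrm w ≤ fro P →
        ∀ (ι : Type) [Fintype ι] (P' : ι → Matrix (Fin n) (Fin n) ℂ) (dK : ι → KT q n)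
          (ρ lam : ℝ), 0 ≤ ρ → 0 ≤ lam →
          (∀ m, ∑ A : Fin q → Fin n, ∑ B : Fin q → Fin n,
            ‖ec (dK m A) * ∏ i, P' m (A i) (B i) - ∏ i, P (A i) (B i)‖ ^ 2 ≤ ρ ^ 2) →
          lam * ρ ≤ ε * fro P ^ q →
          1 / (8 * Mk 2) -
              Fintype.card ι * (n : ℝ) ^ q * (4 * Real.exp (-(lam ^ 2 / 4))) ≤
            pb fun K : KT q n => ∃ t₁ : Fin n → ℂ, (∀ b, ‖t₁ b‖ = ‖t b‖) ∧
              ∀ m, Good η (ThP (P' m) (K + dK m)) t₁ := by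
  have hM := Mk_pos 2
  have hq0 : (0 : ℝ) < q := by exact_mod_cast (by omega : 0 < q)
  have hden : 0 < 2 + 16 * Mk 2 * (q : ℝ) ^ 2 := by positivity
  refine ⟨min (1 / 2) (η ^ 2 / (2 * 2 ^ q) / (2 + 16 * Mk 2 * (q : ℝ) ^ 2)),
    lt_min (by norm_num) (by positivity), min_le_left _ _, ?_⟩
  generalize hεd : min (1 / 2) (η ^ 2 / (2 * 2 ^ q) / (2 + 16 * Mk 2 * (q : ℝ) ^ 2)) = ε
  have hε : 0 < ε := hεd ▸ lt_min (by norm_num) (by positivity)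
  have hε1 : ε ≤ 1 / 2 := hεd ▸ min_le_left _ _
  have hε2 : ε * (2 + 16 * Mk 2 * (q : ℝ) ^ 2) ≤ η ^ 2 / (2 * 2 ^ q) :=
    (le_div_iff₀ hden).1 (hεd ▸ min_le_right _ _)
  intro n P t w hP ht hPQ hw1 hw2 ι _ P' dK ρ lam hρ hlam hd hl
  set R := fro P with hR
  have hw3 : R ^ 2 / 2 ≤ nrm w ^ 2 := by nlinarith [sq_nonneg R]
  have hm0 : (R ^ q) ^ 2 / 2 ^ q ≤ (nrm w ^ q) ^ 2 := by
    rw [← pow_mul, mul_comm, pow_mul, ← div_pow, ← pow_mul (nrm w), mul_comm q, pow_mul]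
    exact pow_le_pow_left₀ (by positivity) hw3 q
  have hm1 : 0 < (nrm w ^ q) ^ 2 := lt_of_lt_of_le (by positivity) hm0
  -- first event
  have e1 := paley_zygmund (fun K : KT q n => ‖∑ A, ec (K A) * ∏ i, w (A i)‖ ^ 2)
    (fun _ => sq_nonneg _) hm1 hM (by rw [sub_sq hq, nrm_tensor]) (by
      have h1 := sub_mom hq (fun A : Fin q → Fin n => ∏ i, w (A i)) 2
      rw [nrm_tensor] at h1
      simpa only [← pow_mul, mul_assoc] using h1)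
  -- second event
  have hQ : fro (vecMulVec w t) ≤ R := by rw [fro_vecMulVec, ht, mul_one]; exact hw2
  have ha : 0 < 8 * Mk 2 * (q : ℝ) ^ 2 * ε * (R ^ q) ^ 2 := by positivity
  have e2 := markov (fun K : KT q n => nrm (fun B : Fin q → Fin n => ∑ A, ec (K A) *
    (∏ i, P (A i) (B i) - ∏ i, vecMulVec w t (A i) (B i))) ^ 2) (fun _ => sq_nonneg _) ha
  rw [EvK_exp hq] at e2
  have e2' : (∑ A : Fin q → Fin n, ∑ B : Fin q → Fin n,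
      ‖∏ i, P (A i) (B i) - ∏ i, vecMulVec w t (A i) (B i)‖ ^ 2) /
      (8 * Mk 2 * (q : ℝ) ^ 2 * ε * (R ^ q) ^ 2) ≤ 1 / (8 * Mk 2) := by
    rw [div_le_div_iff₀ ha (by positivity)]
    have h1 := tensor_diff (q := q) P (vecMulVec w t) le_rfl hQ
    have h2 : R ^ q = R * R ^ (q - 1) := by
      rw [← pow_succ', Nat.sub_add_cancel (by omega)]
    have h3 := mul_le_mul_of_nonneg_left hPQ
      (show 0 ≤ (q : ℝ) ^ 2 * (R ^ (q - 1)) ^ 2 by positivity)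
    have h4 : (∑ A : Fin q → Fin n, ∑ B : Fin q → Fin n,
        ‖∏ i, P (A i) (B i) - ∏ i, vecMulVec w t (A i) (B i)‖ ^ 2) ≤
        (q : ℝ) ^ 2 * ε * (R ^ q) ^ 2 := by
      rw [h2]
      refine h1.trans ?_
      nlinarith
    nlinarith
  -- third event
  have e3 := pb_exists_le_card (fun (k : ι × (Fin q → Fin n)) (K : KT q n) =>
    lam * nrm (fun A : Fin q → Fin n =>
        ec (dK k.1 A) * ∏ i, P' k.1 (A i) (k.2 i) - ∏ i, P (A i) (k.2 i)) <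
      ‖∑ A, ec (K A) * (ec (dK k.1 A) * ∏ i, P' k.1 (A i) (k.2 i) - ∏ i, P (A i) (k.2 i))‖)
    (fun k => sub_tail hq _ hlam)
  rw [Fintype.card_prod, Fintype.card_fun, Fintype.card_fin, Fintype.card_fin] at e3
  push_cast at e3
  have f2 := pb_and_ge (fun K : KT q n => (nrm w ^ q) ^ 2 / 2 ≤ ‖∑ A, ec (K A) * ∏ i, w (A i)‖ ^ 2)
    (fun K => ¬8 * Mk 2 * (q : ℝ) ^ 2 * ε * (R ^ q) ^ 2 ≤ nrm (fun B : Fin q → Fin n =>
      ∑ A, ec (K A) * (∏ i, P (A i) (B i) - ∏ i, vecMulVec w t (A i) (B i))) ^ 2)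
  have f3 := pb_and_ge (fun K : KT q n =>
    (nrm w ^ q) ^ 2 / 2 ≤ ‖∑ A, ec (K A) * ∏ i, w (A i)‖ ^ 2 ∧
      ¬8 * Mk 2 * (q : ℝ) ^ 2 * ε * (R ^ q) ^ 2 ≤ nrm (fun B : Fin q → Fin n =>
        ∑ A, ec (K A) * (∏ i, P (A i) (B i) - ∏ i, vecMulVec w t (A i) (B i))) ^ 2)
    (fun K => ¬∃ k : ι × (Fin q → Fin n), lam * nrm (fun A : Fin q → Fin n =>
        ec (dK k.1 A) * ∏ i, P' k.1 (A i) (k.2 i) - ∏ i, P (A i) (k.2 i)) <
      ‖∑ A, ec (K A) * (ec (dK k.1 A) * ∏ i, P' k.1 (A i) (k.2 i) - ∏ i, P (A i) (k.2 i))‖)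
  simp only [not_not] at f2 f3
  have h8 : 1 / (4 * Mk 2) = 1 / (8 * Mk 2) + 1 / (8 * Mk 2) := by
    field_simp
    norm_num
  refine le_trans (by linarith) (f3.trans (pb_mono ?_))
  rintro K ⟨⟨k1, k2⟩, k3⟩
  set f : ℂ := ∑ A, ec (K A) * ∏ i, w (A i) with hf
  have hμ2 : (R ^ q) ^ 2 / 2 ^ q / 2 ≤ ‖f‖ ^ 2 := by linarith
  have hf0 : f ≠ 0 := by
    rintro h0
    rw [h0, norm_zero] at k1
    linarith
  obtain ⟨ω, hω1, hω2⟩ := EvK_root q hf0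
  have hn : ∀ b, ‖ω * t b‖ = ‖t b‖ := fun b => by rw [norm_mul, hω1, one_mul]
  refine ⟨fun b => ω * t b, hn, fun m => ⟨by rw [nrm_congr_norm hn, ht], ‖f‖,
    norm_pos_iff.2 hf0, ?_⟩⟩
  have e : (fun B : Fin q → Fin n => ThP (P' m) (K + dK m) B - (‖f‖ : ℂ) * ∏ i, ω * t (B i)) =
      (fun B : Fin q → Fin n => ∑ A, ec (K A) *
        (ec (dK m A) * ∏ i, P' m (A i) (B i) - ∏ i, P (A i) (B i))) +
      fun B : Fin q → Fin n => ∑ A, ec (K A) *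
        (∏ i, P (A i) (B i) - ∏ i, vecMulVec w t (A i) (B i)) := by
    funext B
    rw [Finset.prod_mul_distrib, Finset.prod_const, Finset.card_univ, Fintype.card_fin,
      ← mul_assoc, hω2, hf, Pi.add_apply, ThP, Finset.sum_mul, ← Finset.sum_sub_distrib,
      ← Finset.sum_add_distrib]
    refine Finset.sum_congr rfl fun A _ => ?_
    simp only [Pi.add_apply, ec_add, vecMulVec_apply, Finset.prod_mul_distrib]
    ring
  rw [e]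
  refine (nrm_add_le _ _).trans (EvK_arith hη hε hε1 (by positivity : (0 : ℝ) < 2 ^ q)
    (norm_pos_iff.2 hf0) (nrm_nonneg _) (nrm_nonneg _) hε2 (le_trans ?_ hl)
    (not_le.1 k2).le hμ2)
  refine (pow_le_pow_iff_left₀ (nrm_nonneg _) (mul_nonneg hlam hρ) two_ne_zero).1 ?_
  rw [nrm_sq, mul_pow]
  refine le_trans ?_ (mul_le_mul_of_nonneg_left (hd m) (sq_nonneg lam))
  rw [Finset.sum_comm, Finset.mul_sum]
  refine Finset.sum_le_sum fun B _ => ?_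
  rw [← nrm_sq (fun A : Fin q → Fin n => ec (dK m A) * ∏ i, P' m (A i) (B i) -
    ∏ i, P (A i) (B i)), ← mul_pow]
  exact pow_le_pow_left₀ (norm_nonneg _) (not_lt.1 fun h => k3 ⟨(m, B), h⟩) 2

end Pool.Agent.Lib.MP_8a52c3_lc.Ac0
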