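import Mathlib

/-!
Bounded-depth Frege systems with counting connectives modulo `p`.
-/

namespace Pool.Agent.Lib.MP_8a52c3_lc.Ac0

/-- Formulas: variables, constants, negation, binary disjunction and conjunction, and
`mod i m f`, the connective `MOD_{p,i}` applied to the `m` arguments `f 0, ..., f (m-1)`. -/
inductive Fm (p : ℕ) : Type
  | var : ℕ → Fm p
  | top : Fm p
  | bot : Fm p
  | neg : Fm p → Fm p
  | or : Fm p → Fm p → Fm p
  | and : Fm p → Fm p → Fm p
  | mod : ZMod p → (m : ℕ) → (Fin m → Fm p) → Fm p

namespace Fm

variable {p : ℕ}

/-- Truth value; `mod i m f` is true iff the number of true arguments is `i` modulo `p`. -/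
def eval (x : ℕ → Bool) : Fm p → Bool
  | var i => x i
  | top => true
  | bot => false
  | neg A => !(eval x A)
  | or A B => eval x A || eval x B
  | and A B => eval x A && eval x B
  | mod i _ f => decide ((∑ j, if eval x (f j) = true then (1 : ZMod p) else 0) = i)

/-- Number of symbols (nodes of the formula tree). -/
def size : Fm p → ℕ
  | var _ => 1
  | top => 1
  | bot => 1
  | neg A => size A + 1
  | or A B => size A + size B + 1
  | and A B => size A + size B + 1
  | mod _ _ f => (∑ j, size (f j)) + 1

/-- Depth below a parent that is a disjunction (`some true`), a conjunction (`some false`) or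
neither (`none`): consecutive disjunctions count once, consecutive conjunctions count once,
every counting connective counts once, negations are not counted. -/
def depthIn : Option Bool → Fm p → ℕ
  | _, var _ => 0
  | _, top => 0
  | _, bot => 0
  | _, neg A => depthIn none A
  | c, or A B =>
      max (depthIn (some true) A) (depthIn (some true) B) + if c = some true then 0 else 1
  | c, and A B =>
      max (depthIn (some false) A) (depthIn (some false) B) + if c = some false then 0 else 1
  | _, mod _ _ f => (Finset.univ.sup fun j => depthIn none (f j)) + 1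

/-- Depth of a formula. -/
def depth (A : Fm p) : ℕ := depthIn none A

/-- Simultaneous substitution of formulas for variables. -/
def subst (σ : ℕ → Fm p) : Fm p → Fm p
  | var i => σ i
  | top => top
  | bot => bot
  | neg A => neg (subst σ A)
  | or A B => or (subst σ A) (subst σ B)
  | and A B => and (subst σ A) (subst σ B)
  | mod i m f => mod i m fun j => subst σ (f j)

/-- Equivalence, as an abbreviation. -/
def equiv (A B : Fm p) : Fm p := and (or (neg A) B) (or (neg B) A)

/-- The literal `(i, true)` is the variable `i`, the literal `(i, false)` its negation. -/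
def lit (l : ℕ × Bool) : Fm p := if l.2 = true then var l.1 else neg (var l.1)

/-- A clause as a formula. -/
def clause : List (ℕ × Bool) → Fm p
  | [] => bot
  | [l] => lit l
  | l :: l' :: C => or (lit l) (clause (l' :: C))

end Fm

variable {p : ℕ}

/-- A schematic rule (premises, conclusion) is sound. -/
def Sound (r : List (Fm p) × Fm p) : Prop :=
  ∀ x : ℕ → Bool, (∀ A ∈ r.1, A.eval x = true) → r.2.eval x = true

/-- The defining axioms of the counting connectives. -/
def ModAx (A : Fm p) : Prop :=
  A = .mod 0 0 Fin.elim0 ∨ (∃ i : ZMod p, i ≠ 0 ∧ A = .neg (.mod i 0 Fin.elim0)) ∨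
    ∃ (i : ZMod p) (m : ℕ) (f : Fin (m + 1) → Fm p) (k : Fin (m + 1)),
      A = (Fm.mod i (m + 1) f).equiv
        (.or (.and (.mod i m fun j => f (k.succAbove j)) (.neg (f k)))
          (.and (.mod (i - 1) m fun j => f (k.succAbove j)) (f k)))

/-- The lines `L 0, ..., L (t-1)` form a refutation of the clause set `F` in the Frege system
with rules `R` and the counting axioms. -/
def Refutes (R : List (List (Fm p) × Fm p)) (F : Set (List (ℕ × Bool))) (t : ℕ)
    (L : ℕ → Fm p) : Prop :=
  (∀ k < t, (∃ C ∈ F, L k = Fm.clause C) ∨ ModAx (L k) ∨
      ∃ r ∈ R, ∃ σ : ℕ → Fm p, L k = r.2.subst σ ∧ ∀ B ∈ r.1, ∃ j < k, L j = B.subst σ) ∧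
    ∃ k < t, L k = .bot

end Pool.Agent.Lib.MP_8a52c3_lc.Ac0
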