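import Pool.Agent.Lib.MP_8a52c3_lc.Ac0.Nrm

namespace Pool.Agent.Lib.MP_8a52c3_lc.Ac0

open Matrix Filter
open scoped BigOperators

theorem card_Zv (q s n : ℕ) :
    Fintype.card (Zv q s n) = 2 * (s * (n * (n + 1))) + q * (n * (n ^ q + 1)) := by
  simp only [Zv, Fintype.card_sum, Fintype.card_prod, Fintype.card_fin]
  ring

theorem Num_card (q h n : ℕ) (hn : 1 ≤ n) :
    Fintype.card (Zv q (h * n) n) ≤ (4 * h + 2 * q) * n ^ (max 3 (q + 1)) := by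
  rw [card_Zv]
  have h1 : n ^ 3 ≤ n ^ (max 3 (q + 1)) := Nat.pow_le_pow_right hn (le_max_left _ _)
  have h2 : n ^ (q + 1) ≤ n ^ (max 3 (q + 1)) := Nat.pow_le_pow_right hn (le_max_right _ _)
  have h3 : 1 ≤ n ^ q := Nat.one_le_pow _ _ hn
  have h4 : n * (n * (n + 1)) ≤ 2 * n ^ 3 := by
    have : n + 1 ≤ 2 * n := by omega
    calc n * (n * (n + 1)) ≤ n * (n * (2 * n)) := by gcongr
      _ = 2 * n ^ 3 := by ring
  have h5 : n * (n ^ q + 1) ≤ 2 * n ^ (q + 1) := by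
    calc n * (n ^ q + 1) ≤ n * (2 * n ^ q) := by gcongr; omega
      _ = 2 * n ^ (q + 1) := by ring
  calc 2 * (h * n * (n * (n + 1))) + q * (n * (n ^ q + 1))
      = 2 * h * (n * (n * (n + 1))) + q * (n * (n ^ q + 1)) := by ring
    _ ≤ 2 * h * (2 * n ^ (max 3 (q + 1))) + q * (2 * n ^ (max 3 (q + 1))) :=
      Nat.add_le_add (Nat.mul_le_mul_left _ (by omega)) (Nat.mul_le_mul_left _ (by omega))
    _ = (4 * h + 2 * q) * n ^ (max 3 (q + 1)) := by ring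

theorem Num_exp {x A c : ℝ} {N L r q : ℕ} (hx : 1 ≤ x) (hA : 0 ≤ A) (hc : 0 < c)
    (hN : (N : ℝ) ≤ A * x ^ r) (hL : (L : ℝ) ≤ x) (h1 : 4 * (A + r + 40 * q + 1) ≤ x)
    (h2 : 4 / c ≤ x) :
    (N : ℝ) ^ L * (x ^ 40) ^ q * (4 * Real.exp (-((x ^ 2) ^ 2 / 4))) ≤ c := by
  have hx0 : 0 < x := by linarith
  have hxe : x ≤ Real.exp x := by linarith [Real.add_one_le_exp x]
  have hAe : A ≤ Real.exp (A * x) := by
    have := Real.add_one_le_exp (A * x)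
    nlinarith
  have a1 : (N : ℝ) ≤ Real.exp ((A + r) * x) := by
    refine hN.trans ?_
    rw [add_mul, Real.exp_add, Real.exp_nat_mul]
    gcongr
  have a2 : (N : ℝ) ^ L ≤ Real.exp ((A + r) * x ^ 2) := by
    refine (pow_le_pow_left₀ (Nat.cast_nonneg _) a1 L).trans ?_
    rw [← Real.exp_nat_mul]
    refine Real.exp_le_exp.2 ?_
    have : 0 ≤ (A + r) * x := by positivity
    nlinarith
  have a3 : (x ^ 40) ^ q ≤ Real.exp (40 * q * x ^ 2) := by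
    rw [← pow_mul]
    refine (pow_le_pow_left₀ hx0.le hxe _).trans ?_
    rw [← Real.exp_nat_mul]
    refine Real.exp_le_exp.2 ?_
    push_cast
    have : x ≤ x ^ 2 := by nlinarith
    gcongr
  have a4 : (A + r) * x ^ 2 + 40 * q * x ^ 2 + -((x ^ 2) ^ 2 / 4) ≤ -x := by
    set B : ℝ := A + r + 40 * q with hB
    have hB0 : 0 ≤ B := by positivity
    have b1 : x ≤ x ^ 2 := by nlinarith
    have b2 : (B + 1) * x ^ 2 ≤ x / 4 * x ^ 2 := by gcongr; linarith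
    have b3 : x * x ^ 2 ≤ x ^ 2 * x ^ 2 := by gcongr
    have e : (A + r) * x ^ 2 + 40 * q * x ^ 2 = B * x ^ 2 := by rw [hB]; ring
    rw [e]
    nlinarith
  have a5 : Real.exp (-x) ≤ c / 4 := by
    rw [Real.exp_neg, inv_le_comm₀ (Real.exp_pos _) (by positivity), inv_div]
    exact h2.trans hxe
  calc (N : ℝ) ^ L * (x ^ 40) ^ q * (4 * Real.exp (-((x ^ 2) ^ 2 / 4)))
      ≤ Real.exp ((A + r) * x ^ 2) * Real.exp (40 * q * x ^ 2) *
        (4 * Real.exp (-((x ^ 2) ^ 2 / 4))) := by gcongr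
    _ = 4 * Real.exp ((A + r) * x ^ 2 + 40 * q * x ^ 2 + -((x ^ 2) ^ 2 / 4)) := by
      rw [Real.exp_add, Real.exp_add]
      ring
    _ ≤ 4 * Real.exp (-x) := by gcongr
    _ ≤ c := by linarith

theorem Num_poly {x L ε D Q : ℝ} (hx : 49 ≤ x) (hL0 : 0 ≤ L) (hL : L ≤ x) (hε : 0 < ε)
    (hD : 0 ≤ D) (hQ : 0 ≤ Q) (h1 : 345888 ≤ x) (h2 : 2 * (D * (19208 + 345888 * Q)) / ε ^ 2 ≤ x)
    (h3 : 2 / ε ≤ x) {η W τ Fq : ℝ} (hη : η = (x ^ 15)⁻¹) (hW : W = 6 * L ^ 2)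
    (hτ : τ = (1 + W) ^ 2 * η)
    (hF : Fq = W ^ 2 * (x ^ 40 * η ^ 2 + 1) * (x ^ 40 * τ ^ 2 + 1)) :
    τ ≤ 1 ∧ Fq ≤ x ^ 40 / 2 ∧
      (x ^ 2) ^ 2 * (D * (8 * L * (x ^ 40 * τ ^ 2) + 2 * Q * Fq)) ≤ ε ^ 2 * (x ^ 40 / 2) ∧
      x ^ 40 * η ^ 2 ≤ ε * (x ^ 40 / 2) := by
  have hx1 : 1 ≤ x := by linarith
  have hx0 : 0 < x := by linarith
  have hp : ∀ a b : ℕ, a ≤ b → x ^ a ≤ x ^ b := fun a b hab => pow_le_pow_right₀ hx1 hab
  have hW0 : 0 ≤ W := by rw [hW]; positivity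
  have hW1 : W ≤ 6 * x ^ 2 := by rw [hW]; gcongr
  have hW2 : 1 + W ≤ 7 * x ^ 2 := by
    have := hp 0 2 (by norm_num)
    rw [pow_zero] at this
    linarith
  have hη0 : 0 ≤ η := by rw [hη]; positivity
  have hτ0 : 0 ≤ τ := by rw [hτ]; positivity
  have hτ1 : τ ≤ 49 / x ^ 11 := by
    rw [hτ]
    calc (1 + W) ^ 2 * η ≤ (7 * x ^ 2) ^ 2 * η := by gcongr
      _ = 49 / x ^ 11 := by rw [hη]; field_simp; norm_num
  have e1 : x ^ 40 * η ^ 2 = x ^ 10 := by rw [hη]; field_simp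
  have e2 : x ^ 40 * τ ^ 2 ≤ 2401 * x ^ 18 := by
    calc x ^ 40 * τ ^ 2 ≤ x ^ 40 * (49 / x ^ 11) ^ 2 := by gcongr
      _ = 2401 * x ^ 18 := by field_simp; norm_num
  have e3 : Fq ≤ 172944 * x ^ 32 := by
    have b1 := hp 0 10 (by norm_num)
    have b2 := hp 0 18 (by norm_num)
    rw [pow_zero] at b1 b2
    rw [hF, e1]
    calc W ^ 2 * (x ^ 10 + 1) * (x ^ 40 * τ ^ 2 + 1)
        ≤ (6 * x ^ 2) ^ 2 * (2 * x ^ 10) * (2402 * x ^ 18) := by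
          gcongr
          · linarith
          · linarith
      _ = 172944 * x ^ 32 := by ring
  have hF0 : 0 ≤ Fq := by rw [hF]; positivity
  refine ⟨hτ1.trans ?_, e3.trans ?_, ?_, ?_⟩
  · rw [div_le_one (by positivity)]
    have := hp 1 11 (by norm_num)
    rw [pow_one] at this
    linarith
  · have b1 := hp 33 40 (by norm_num)
    have b2 : 345888 * x ^ 32 ≤ x * x ^ 32 := by gcongr
    have b3 : x * x ^ 32 = x ^ 33 := by ring
    linarith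
  · have b1 : 8 * L * (x ^ 40 * τ ^ 2) ≤ 19208 * x ^ 32 := by
      calc 8 * L * (x ^ 40 * τ ^ 2) ≤ 8 * x * (2401 * x ^ 18) := by gcongr
        _ = 19208 * x ^ 19 := by ring
        _ ≤ 19208 * x ^ 32 := by gcongr; norm_num
    have b2 : 2 * Q * Fq ≤ 345888 * Q * x ^ 32 := by
      calc 2 * Q * Fq ≤ 2 * Q * (172944 * x ^ 32) := by gcongr
        _ = 345888 * Q * x ^ 32 := by ring
    rw [div_le_iff₀ (by positivity)] at h2
    calc (x ^ 2) ^ 2 * (D * (8 * L * (x ^ 40 * τ ^ 2) + 2 * Q * Fq))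
        ≤ (x ^ 2) ^ 2 * (D * (19208 * x ^ 32 + 345888 * Q * x ^ 32)) := by gcongr
      _ = 2 * (D * (19208 + 345888 * Q)) * (x ^ 36 / 2) := by ring
      _ ≤ x * ε ^ 2 * (x ^ 36 / 2) := by gcongr
      _ = ε ^ 2 * (x ^ 37 / 2) := by ring
      _ ≤ ε ^ 2 * (x ^ 40 / 2) := by gcongr; norm_num
  · rw [e1]
    rw [div_le_iff₀ hε] at h3
    calc x ^ 10 = 2 * (x ^ 10 / 2) := by ring
      _ ≤ x * ε * (x ^ 10 / 2) := by gcongr
      _ = ε * (x ^ 11 / 2) := by ring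
      _ ≤ ε * (x ^ 40 / 2) := by gcongr; norm_num

/-- The numerical inequalities used for the ball event. -/
theorem num_ball (q h : ℕ) {ε c : ℝ} (hε : 0 < ε) (hc : 0 < c) :
    ∀ᶠ n : ℕ in atTop, ∀ L : ℕ, L ^ 40 ≤ n → ∀ η W τ Fq lam : ℝ,
      η = (n : ℝ) ^ (-(3 / 8 : ℝ)) → W = 6 * (L : ℝ) ^ 2 → τ = (1 + W) ^ 2 * η →
      Fq = W ^ 2 * (n * η ^ 2 + 1) * (n * τ ^ 2 + 1) → lam = (n : ℝ) ^ (1 / 20 : ℝ) →
      τ ≤ 1 ∧ Fq ≤ n / 2 ∧
        lam ^ 2 * (4 ^ (q - 1) * (8 * L * (n * τ ^ 2) + 2 * q ^ 2 * Fq)) ≤ ε ^ 2 * (n / 2) ∧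
        n * η ^ 2 ≤ ε * (n / 2) ∧
        ((Fintype.card (Zv q (h * n) n) * q + 1 : ℕ) : ℝ) ^ L * (n : ℝ) ^ q *
          (4 * Real.exp (-(lam ^ 2 / 4))) ≤ c := by
  have ht : Tendsto (fun n : ℕ => (n : ℝ) ^ (1 / 40 : ℝ)) atTop atTop :=
    (tendsto_rpow_atTop (by norm_num)).comp tendsto_natCast_atTop_atTop
  set A : ℕ := (4 * h + 2 * q) * q + 1 with hA
  set r : ℕ := 40 * max 3 (q + 1) with hr
  filter_upwards [eventually_ge_atTop 1, ht.eventually_ge_atTop 345888,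
    ht.eventually_ge_atTop (2 * (4 ^ (q - 1) * (19208 + 345888 * (q : ℝ) ^ 2)) / ε ^ 2),
    ht.eventually_ge_atTop (2 / ε), ht.eventually_ge_atTop (4 * ((A : ℝ) + r + 40 * q + 1)),
    ht.eventually_ge_atTop (4 / c)] with n hn h1 h2 h3 h4 h5 L hL η W τ Fq lam hη hW hτ hF hlam
  set x : ℝ := (n : ℝ) ^ (1 / 40 : ℝ) with hx
  have hn0 : (0 : ℝ) ≤ n := Nat.cast_nonneg n
  have hxp : ∀ k : ℕ, x ^ k = (n : ℝ) ^ ((k : ℝ) / 40) := by
    intro k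
    rw [hx, ← Real.rpow_natCast, ← Real.rpow_mul hn0]
    congr 1
    ring
  have e40 : (n : ℝ) = x ^ 40 := by rw [hxp]; norm_num
  have e15 : η = (x ^ 15)⁻¹ := by rw [hxp, hη, Real.rpow_neg hn0]; norm_num
  have e2 : lam = x ^ 2 := by rw [hxp, hlam]; norm_num
  have hx0 : 0 ≤ x := by linarith
  have hLx : (L : ℝ) ≤ x := by
    refine le_of_pow_le_pow_left₀ (n := 40) (by norm_num) hx0 ?_
    rw [← e40]
    exact_mod_cast hL
  have hN : ((Fintype.card (Zv q (h * n) n) * q + 1 : ℕ) : ℝ) ≤ (A : ℝ) * x ^ r := by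
    rw [hr, pow_mul, ← e40]
    have b1 := Num_card q h n hn
    have b2 : 1 ≤ n ^ (max 3 (q + 1)) := Nat.one_le_pow _ _ hn
    have b3 : Fintype.card (Zv q (h * n) n) * q + 1 ≤ A * n ^ (max 3 (q + 1)) := by
      calc Fintype.card (Zv q (h * n) n) * q + 1
          ≤ (4 * h + 2 * q) * n ^ (max 3 (q + 1)) * q + n ^ (max 3 (q + 1)) := by gcongr
        _ = A * n ^ (max 3 (q + 1)) := by rw [hA]; ring
    exact_mod_cast b3
  have p1 := Num_exp (q := q) (by linarith : 1 ≤ x) (Nat.cast_nonneg A) hc hN hLx h4 h5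
  have p2 := Num_poly (Fq := Fq) (by linarith : 49 ≤ x) (Nat.cast_nonneg L) hLx hε
    (by positivity : (0 : ℝ) ≤ 4 ^ (q - 1)) (by positivity : (0 : ℝ) ≤ (q : ℝ) ^ 2) h1 h2 h3
    e15 hW hτ (by rw [← e40]; exact hF)
  rw [← e40, ← e2] at p1 p2
  exact ⟨p2.1, p2.2.1, p2.2.2.1, p2.2.2.2, p1⟩

/-- The number of Boolean variables. -/
theorem num_vars (q h : ℕ) (hq : q ≤ 3) :
    ∀ᶠ n : ℕ in atTop, Fintype.card (Zv q (h * n) n) * q ≤ n ^ 5 := by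
  filter_upwards [eventually_ge_atTop 1, eventually_ge_atTop ((4 * h + 2 * q) * q)] with n hn h1
  have b1 := Num_card q h n hn
  have b2 : n ^ (max 3 (q + 1)) ≤ n ^ 4 := Nat.pow_le_pow_right hn (by omega)
  calc Fintype.card (Zv q (h * n) n) * q ≤ (4 * h + 2 * q) * n ^ 4 * q := by
        gcongr
        exact b1.trans (by gcongr)
    _ = (4 * h + 2 * q) * q * n ^ 4 := by ring
    _ ≤ n * n ^ 4 := by gcongr
    _ = n ^ 5 := by ring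

end Pool.Agent.Lib.MP_8a52c3_lc.Ac0
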