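import Pool.Agent.Lib.MP_8a52c3_lc.Ac0.Nrm

namespace Pool.Agent.Lib.MP_8a52c3_lc.Ac0

open Matrix Filter
open scoped BigOperators

theorem TopV_rows {n : ℕ} (P : Matrix (Fin n) (Fin n) ℂ) : fro P ^ 2 = ∑ a, nrm (P a) ^ 2 := by
  rw [fro_sq]
  exact Finset.sum_congr rfl fun a _ => (nrm_sq (P a)).symm

theorem TopV_row {n : ℕ} (P : Matrix (Fin n) (Fin n) ℂ) {ε : ℝ} (hP : 0 < fro P)
    (hLam : Lam P ≤ ε * fro P ^ 4) : ∃ c, 0 < nrm (P c) ∧
      (1 - ε) * fro P ^ 2 * nrm (P c) ^ 2 ≤ nrm (P *ᵥ star (P c)) ^ 2 := by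
  by_contra hcon
  push Not at hcon
  have h1 : ∑ c, nrm (P *ᵥ star (P c)) ^ 2 = fro (P * Pᴴ) ^ 2 := by
    rw [fro_sq, Finset.sum_comm]
    exact Finset.sum_congr rfl fun c _ => nrm_sq _
  have h2 : ∑ c, (1 - ε) * fro P ^ 2 * nrm (P c) ^ 2 = (1 - ε) * fro P ^ 4 := by
    rw [← Finset.mul_sum, ← TopV_rows]
    ring
  have h3 : ∃ c, 0 < nrm (P c) := by
    by_contra h
    push Not at h
    have : fro P ^ 2 = 0 := by
      rw [TopV_rows]
      exact Finset.sum_eq_zero fun c _ => by rw [le_antisymm (h c) (nrm_nonneg _)]; ring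
    have := pow_pos hP 2
    linarith
  obtain ⟨c₀, hc₀⟩ := h3
  have h4 : ∑ c, nrm (P *ᵥ star (P c)) ^ 2 < ∑ c, (1 - ε) * fro P ^ 2 * nrm (P c) ^ 2 := by
    refine Finset.sum_lt_sum (fun c _ => ?_) ⟨c₀, Finset.mem_univ _, hcon c₀ hc₀⟩
    rcases (nrm_nonneg (P c)).eq_or_lt with h | h
    · rw [nrm_eq_zero h.symm, star_zero, Matrix.mulVec_zero, nrm_zero]
      simp
    · exact (hcon c h).le
  rw [h1, h2] at h4
  rw [Lam] at hLam
  linarith

theorem TopV_pyth {n : ℕ} (P : Matrix (Fin n) (Fin n) ℂ) {t : Fin n → ℂ} (ht : nrm t = 1) :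
    fro (P - vecMulVec (P *ᵥ star t) t) ^ 2 = fro P ^ 2 - nrm (P *ᵥ star t) ^ 2 := by
  rw [TopV_rows, TopV_rows, nrm_sq (P *ᵥ star t), ← Finset.sum_sub_distrib]
  refine Finset.sum_congr rfl fun a _ => ?_
  have e : (P - vecMulVec (P *ᵥ star t) t) a = P a - (P *ᵥ star t) a • t := by
    funext b
    simp [vecMulVec_apply]
  have e2 : star (P a) ⬝ᵥ t = star ((P *ᵥ star t) a) := by
    change _ = star (P a ⬝ᵥ star t)
    rw [star_dotProduct, dotProduct_comm]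
  rw [e, nrm_sub_sq, nrm_smul, ht, dotProduct_smul, e2, smul_eq_mul, Complex.star_def,
    Complex.mul_conj, Complex.ofReal_re, Complex.normSq_eq_norm_sq]
  ring

/-- An almost rank one matrix with small entries. -/
theorem topv {n : ℕ} (P : Matrix (Fin n) (Fin n) ℂ) {ε η : ℝ} (hε : 0 ≤ ε) (hP : 0 < fro P)
    (hLam : Lam P ≤ ε * fro P ^ 4) (hent : ∀ a b, ‖P a b‖ ≤ η) :
    ∃ t w : Fin n → ℂ, nrm t = 1 ∧ fro (P - vecMulVec w t) ^ 2 ≤ ε * fro P ^ 2 ∧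
      (1 - ε) * fro P ^ 2 ≤ nrm w ^ 2 ∧ nrm w ≤ fro P ∧
      ∀ b, ‖t b‖ * nrm w ≤ Real.sqrt n * η + Real.sqrt ε * fro P := by
  obtain ⟨c, hc, hc'⟩ := TopV_row P hP hLam
  set ρ : ℝ := nrm (P c) with hρ
  have hn : ‖((ρ⁻¹ : ℝ) : ℂ)‖ = ρ⁻¹ := by
    rw [Complex.norm_real, Real.norm_eq_abs, abs_of_pos (inv_pos.2 hc)]
  set t : Fin n → ℂ := ((ρ⁻¹ : ℝ) : ℂ) • P c with ht
  have ht1 : nrm t = 1 := by rw [ht, nrm_smul, hn, inv_mul_cancel₀ hc.ne']
  have hw : nrm (P *ᵥ star t) = ρ⁻¹ * nrm (P *ᵥ star (P c)) := by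
    rw [ht, star_smul, Matrix.mulVec_smul, nrm_smul, norm_star, hn]
  have h1 : (1 - ε) * fro P ^ 2 ≤ nrm (P *ᵥ star t) ^ 2 := by
    rw [hw, mul_pow, inv_pow, ← div_eq_inv_mul, le_div_iff₀ (pow_pos hc 2)]
    exact hc'
  have h2 : fro (P - vecMulVec (P *ᵥ star t) t) ^ 2 ≤ ε * fro P ^ 2 := by
    rw [TopV_pyth P ht1]
    linarith
  refine ⟨t, P *ᵥ star t, ht1, h2, h1, ?_, fun b => ?_⟩
  · have h := nrm_mulVec_le P (star t)
    rwa [nrm_congr_norm (u := star t) (v := t) fun i => norm_star _, ht1, mul_one] at h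
  · set w := P *ᵥ star t
    have hη : 0 ≤ η := (norm_nonneg _).trans (hent b b)
    have e : t b • w = (fun a => P a b) + -((P - vecMulVec w t) *ᵥ Pi.single b 1) := by
      funext a
      simp [vecMulVec_apply, mul_comm]
    have a1 : nrm (fun a => P a b) ≤ Real.sqrt n * η := by
      refine (pow_le_pow_iff_left₀ (nrm_nonneg _) (by positivity) two_ne_zero).1 ?_
      rw [mul_pow, Real.sq_sqrt (Nat.cast_nonneg n)]
      simpa using nrm_sq_le_card (v := fun a => P a b) fun a => hent a b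
    have a2 : fro (P - vecMulVec w t) ≤ Real.sqrt ε * fro P := by
      refine (pow_le_pow_iff_left₀ (fro_nonneg _) (by positivity) two_ne_zero).1 ?_
      rwa [mul_pow, Real.sq_sqrt hε]
    have a3 := nrm_mulVec_le (P - vecMulVec w t) (Pi.single b 1)
    rw [nrm_single, norm_one, mul_one] at a3
    rw [← nrm_smul, e]
    refine (nrm_add_le _ _).trans ?_
    rw [nrm_neg]
    linarith

end Pool.Agent.Lib.MP_8a52c3_lc.Ac0
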