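import Pool.Agent.Lib.MP_8a52c3_lc.Ac0.EvK
import Pool.Agent.Lib.MP_8a52c3_lc.Ac0.Num
import Pool.Agent.Lib.MP_8a52c3_lc.Ac0.Duh
import Pool.Agent.Lib.MP_8a52c3_lc.Ac0.Dec
import Pool.Agent.Lib.MP_8a52c3_lc.Ac0.TopV
import Pool.Agent.Lib.MP_8a52c3_lc.Ac0.Prob
import Pool.Agent.Lib.MP_8a52c3_lc.Ac0.Hom

namespace Pool.Agent.Lib.MP_8a52c3_lc.Ac0

open Matrix Filter
open scoped BigOperators

/-- For a good edge part the ball event has constant conditional probability. -/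
theorem ball_fibre (q : ℕ) [NeZero q] (hq : 2 ≤ q) {η δ : ℝ} (hη : 0 < η) (hδ : 0 < δ) :
    ∃ ε : ℝ, 0 < ε ∧ ∀ h : ℕ, 1 ≤ h → ∀ᶠ n : ℕ in atTop, ∀ L : ℕ, L ^ 40 ≤ n →
      ∀ J : JT q (h * n) n,
        Lam (PJ J) ≤ ε * fro (PJ J) ^ 4 → (n : ℝ) / 2 ≤ fro (PJ J) ^ 2 →
        EvB ((n : ℝ) ^ (-(3 / 8 : ℝ))) (h * n) (XJ J) →
        1 / (16 * Mk 2) ≤ pb fun K : KT q n => Ball η δ L ((J, K) : Gam q (h * n) n) := by
  classical
  obtain ⟨εK, hεK, hεK2, hK⟩ := evK q hq hη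
  have hM : 0 < 1 / (16 * Mk 2) := by
    have := Mk_pos 2
    positivity
  refine ⟨min εK (δ ^ 2 / 8), lt_min hεK (by positivity), fun h hh => ?_⟩
  set ε := min εK (δ ^ 2 / 8) with hεdef
  have hε : 0 < ε := lt_min hεK (by positivity)
  have hε1 : ε ≤ εK := min_le_left _ _
  have hε2 : ε ≤ δ ^ 2 / 8 := min_le_right _ _
  filter_upwards [num_ball q h hε hM, eventually_ge_atTop 1] with n hnum hn L hL J hLam hbig hB
  obtain ⟨n1, n2, n3, n4, n5⟩ := hnum L hL _ _ _ _ _ rfl rfl rfl rfl rfl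
  set η₀ : ℝ := (n : ℝ) ^ (-(3 / 8 : ℝ)) with hη₀
  set W : ℝ := 6 * (L : ℝ) ^ 2 with hW
  set τ : ℝ := (1 + W) ^ 2 * η₀ with hτ
  set Fq : ℝ := W ^ 2 * (n * η₀ ^ 2 + 1) * (n * τ ^ 2 + 1) with hFq
  set lam : ℝ := (n : ℝ) ^ (1 / 20 : ℝ) with hlam
  have hnpos : (0 : ℝ) < n := by exact_mod_cast hn
  have hη₀0 : 0 ≤ η₀ := by positivity
  have hW0 : 0 ≤ W := by positivity
  have hlam0 : 0 ≤ lam := by positivity
  have hs : 1 ≤ h * n := Nat.mul_pos hh hn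
  set R : ℝ := fro (PJ J) with hR
  have hR0 : 0 ≤ R := fro_nonneg _
  have hRpos : 0 < R := by
    rcases hR0.lt_or_eq with h1 | h1
    · exact h1
    · rw [← h1] at hbig
      linarith only [hbig, hnpos, zero_pow (M₀ := ℝ) two_ne_zero]
  have hduh : ∀ m : Zv q (h * n) n → ZMod q, hammingNorm m ≤ L →
      (∀ a b, ‖PJ J a b‖ ≤ η₀) ∧ (∀ a b, ‖PJ (J + (phi m).1) a b‖ ≤ τ) ∧
        fro (PJ (J + (phi m).1) - PJ J) ^ 2 ≤ Fq := fun m hm =>
    duhamel hs hη₀0 hW0 (XJ J) (XJ (J + (phi m).1)) hB (decomp J m hm) n1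
  have h0 : hammingNorm (0 : Zv q (h * n) n → ZMod q) ≤ L := by simp
  obtain ⟨t, w, ht, t1, t2, t3, t4⟩ := topv (PJ J) hε.le hRpos hLam (hduh 0 h0).1
  have hR2 : 0 ≤ R ^ 2 := sq_nonneg R
  -- delocalisation
  have htδ : ∀ b, ‖t b‖ ≤ δ := by
    intro b
    have a1 : Real.sqrt n * η₀ ≤ Real.sqrt ε * R := by
      refine (pow_le_pow_iff_left₀ (by positivity) (by positivity) two_ne_zero).1 ?_
      rw [mul_pow, mul_pow, Real.sq_sqrt hnpos.le, Real.sq_sqrt hε.le]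
      exact le_trans n4 (mul_le_mul_of_nonneg_left hbig hε.le)
    have a2 : ‖t b‖ * nrm w ≤ 2 * (Real.sqrt ε * R) := by linarith only [t4 b, a1]
    have a3 : (‖t b‖ * nrm w) ^ 2 ≤ (2 * (Real.sqrt ε * R)) ^ 2 :=
      pow_le_pow_left₀ (mul_nonneg (norm_nonneg _) (nrm_nonneg _)) a2 2
    have a4 : (2 * (Real.sqrt ε * R)) ^ 2 = 4 * ε * R ^ 2 := by
      rw [mul_pow, mul_pow, Real.sq_sqrt hε.le]
      ring
    have a5 : R ^ 2 / 2 ≤ nrm w ^ 2 := by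
      refine le_trans ?_ t2
      have : (1 / 2 : ℝ) ≤ 1 - ε := by linarith only [hε1, hεK2]
      calc R ^ 2 / 2 = 1 / 2 * R ^ 2 := by ring
        _ ≤ _ := mul_le_mul_of_nonneg_right this hR2
    have a6 : ‖t b‖ ^ 2 * (R ^ 2 / 2) ≤ 4 * ε * R ^ 2 := by
      calc ‖t b‖ ^ 2 * (R ^ 2 / 2) ≤ ‖t b‖ ^ 2 * nrm w ^ 2 :=
            mul_le_mul_of_nonneg_left a5 (sq_nonneg _)
        _ = (‖t b‖ * nrm w) ^ 2 := by ring
        _ ≤ _ := a4 ▸ a3
    have a7 : ‖t b‖ ^ 2 ≤ δ ^ 2 := by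
      have hp : 0 < R ^ 2 / 2 := by positivity
      refine le_of_mul_le_mul_right (le_trans a6 ?_) hp
      calc 4 * ε * R ^ 2 = 8 * ε * (R ^ 2 / 2) := by ring
        _ ≤ _ := mul_le_mul_of_nonneg_right (by linarith only [hε2]) hp.le
    exact (pow_le_pow_iff_left₀ (norm_nonneg _) hδ.le two_ne_zero).1 a7
  -- the perturbation bound
  set ρ2 : ℝ := (8 * L * (n * τ ^ 2) + 2 * q ^ 2 * Fq) * (2 * R) ^ (2 * (q - 1)) with hρ2
  have hFq0 : 0 ≤ Fq := by positivity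
  have hρ20 : 0 ≤ ρ2 := by positivity
  have hpert : ∀ m : {m : Zv q (h * n) n → ZMod q // hammingNorm m ≤ L},
      ∑ A : Fin q → Fin n, ∑ B : Fin q → Fin n,
        ‖ec ((phi m.1).2 A) * ∏ i, PJ (J + (phi m.1).1) (A i) (B i) -
          ∏ i, PJ J (A i) (B i)‖ ^ 2 ≤ Real.sqrt ρ2 ^ 2 := by
    intro m
    obtain ⟨-, d2, d3⟩ := hduh m.1 m.2
    have b1 : fro (PJ (J + (phi m.1).1) - PJ J) ≤ R :=
      (pow_le_pow_iff_left₀ (fro_nonneg _) hR0 two_ne_zero).1 (by linarith only [d3, n2, hbig])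
    have b2 : fro (PJ (J + (phi m.1).1)) ≤ 2 * R := by
      have := fro_add_le (PJ (J + (phi m.1).1) - PJ J) (PJ J)
      rw [sub_add_cancel] at this
      linarith only [this, b1]
    rw [Real.sq_sqrt hρ20]
    refine le_trans (tensor_pert m.1 m.2 (PJ J) _ (R := 2 * R) (by linarith only [hR0]) b2 d2) ?_
    refine mul_le_mul_of_nonneg_right ?_ (by positivity)
    have h2q : (0 : ℝ) ≤ 2 * q ^ 2 := by positivity
    exact add_le_add le_rfl (mul_le_mul_of_nonneg_left d3 h2q)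
  have hlr : lam * Real.sqrt ρ2 ≤ εK * R ^ q := by
    have c1 : (lam * Real.sqrt ρ2) ^ 2 ≤ (ε * R ^ q) ^ 2 := by
      rw [mul_pow, Real.sq_sqrt hρ20, hρ2]
      have c2 : (2 * R) ^ (2 * (q - 1)) = 4 ^ (q - 1) * R ^ (2 * (q - 1)) := by
        rw [mul_pow, pow_mul]
        norm_num
      have c3 : (ε * R ^ q) ^ 2 = ε ^ 2 * R ^ 2 * R ^ (2 * (q - 1)) := by
        obtain ⟨q', rfl⟩ : ∃ q', q = q' + 1 := ⟨q - 1, by omega⟩
        rw [Nat.add_sub_cancel]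
        ring
      rw [c2, c3]
      have c4 : ε ^ 2 * (n / 2) ≤ ε ^ 2 * R ^ 2 := mul_le_mul_of_nonneg_left hbig (sq_nonneg _)
      have c5 : 0 ≤ R ^ (2 * (q - 1)) := by positivity
      calc lam ^ 2 * ((8 * L * (n * τ ^ 2) + 2 * q ^ 2 * Fq) * (4 ^ (q - 1) * R ^ (2 * (q - 1))))
          = lam ^ 2 * (4 ^ (q - 1) * (8 * L * (n * τ ^ 2) + 2 * q ^ 2 * Fq)) *
            R ^ (2 * (q - 1)) := by ring
        _ ≤ _ := mul_le_mul_of_nonneg_right (le_trans n3 c4) c5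
    have c6 : lam * Real.sqrt ρ2 ≤ ε * R ^ q :=
      (pow_le_pow_iff_left₀ (by positivity) (by positivity) two_ne_zero).1 c1
    exact le_trans c6 (mul_le_mul_of_nonneg_right hε1 (by positivity))
  have hmain := hK n (PJ J) t w hRpos ht (le_trans t1 (mul_le_mul_of_nonneg_right hε1 hR2))
    (le_trans (mul_le_mul_of_nonneg_right (by linarith only [hε1]) hR2) t2) t3
    {m : Zv q (h * n) n → ZMod q // hammingNorm m ≤ L}
    (fun m => PJ (J + (phi m.1).1)) (fun m => (phi m.1).2) (Real.sqrt ρ2) lam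
    (Real.sqrt_nonneg _) hlam0 hpert hlr
  have hcard : (Fintype.card {m : Zv q (h * n) n → ZMod q // hammingNorm m ≤ L} : ℝ) ≤
      ((Fintype.card (Zv q (h * n) n) * q + 1 : ℕ) : ℝ) ^ L := by
    have := card_ball_le (ι := Zv q (h * n) n) (α := ZMod q) L
    rw [ZMod.card] at this
    exact_mod_cast this
  have hle : (Fintype.card {m : Zv q (h * n) n → ZMod q // hammingNorm m ≤ L} : ℝ) *
      (n : ℝ) ^ q * (4 * Real.exp (-(lam ^ 2 / 4))) ≤ 1 / (16 * Mk 2) := by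
    refine le_trans ?_ n5
    gcongr
  have hsplit : 1 / (8 * Mk 2) = 1 / (16 * Mk 2) + 1 / (16 * Mk 2) := by
    have := Mk_pos 2
    field_simp
    norm_num
  refine le_trans (le_trans (by linarith only [hle, hsplit]) hmain) (pb_mono ?_)
  rintro K ⟨t₁, ht₁, hgood⟩
  exact ⟨t₁, fun b => (ht₁ b).le.trans (htδ b), fun m hm => hgood ⟨m, hm⟩⟩

end Pool.Agent.Lib.MP_8a52c3_lc.Ac0
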