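import Pool.Agent.Lib.MP_8a52c3_lc.Ac0.Key

namespace Pool.Agent.Lib.MP_8a52c3_lc.Ac0

open Filter

theorem Final_root (n : ℕ) : ∃ L : ℕ, L ^ 200 ≤ n ∧ n < (L + 1) ^ 200 := by
  classical
  have hex : ∃ L : ℕ, n < (L + 1) ^ 200 :=
    ⟨n, lt_of_lt_of_le (Nat.lt_succ_self n) (Nat.le_self_pow (by norm_num) _)⟩
  refine ⟨Nat.find hex, ?_, Nat.find_spec hex⟩
  rcases Nat.eq_zero_or_pos (Nat.find hex) with h | h
  · rw [h]
    simp
  · have := Nat.find_min hex (Nat.sub_one_lt h.ne')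
    rw [Nat.sub_add_cancel h] at this
    exact not_lt.1 this

theorem Final_num (p c' d K L₀ n L : ℕ) (y : ℝ) (hy : y ^ (400 * (d + 1)) = n)
    (hL : n < (L + 1) ^ 200) (h1 : (L₀ : ℝ) + 1 ≤ y)
    (h2 : (4 * (c' + 40) * ((K + 4) * p) ^ d : ℝ) + 1 ≤ y) :
    L₀ ≤ L ∧ 4 * (c' + 40) * ((⌈2 * y⌉₊ + K + 1) * p) ^ d ≤ L := by
  have hy1 : 1 ≤ y := by linarith [(Nat.cast_nonneg L₀ : (0 : ℝ) ≤ L₀)]
  have hy0 : 0 ≤ y := by linarith
  have h3 : y ^ (2 * (d + 1)) < L + 1 := by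
    refine lt_of_pow_lt_pow_left₀ 200 (Nat.cast_add_one_pos L).le ?_
    rw [← pow_mul, show 2 * (d + 1) * 200 = 400 * (d + 1) by ring, hy]
    exact_mod_cast hL
  clear hy hL
  have h4 : y ^ (d + 1) ≤ y ^ (2 * (d + 1)) := pow_le_pow_right₀ hy1 (by omega)
  have h5 : 1 ≤ y ^ d := one_le_pow₀ hy1
  constructor
  · have h6 : y ≤ y ^ (d + 1) := le_self_pow₀ hy1 (by omega)
    have : (L₀ : ℝ) ≤ L := by linarith
    exact_mod_cast this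
  · have h6 : ((⌈2 * y⌉₊ + K + 1 : ℕ) : ℝ) ≤ (K + 4) * y := by
      have := (Nat.ceil_lt_add_one (show 0 ≤ 2 * y by positivity)).le
      push_cast
      nlinarith [(Nat.cast_nonneg K : (0 : ℝ) ≤ K)]
    have h7 : (((⌈2 * y⌉₊ + K + 1 : ℕ) : ℝ) * p) ^ d ≤ ((K + 4) * p) ^ d * y ^ d := by
      rw [← mul_pow]
      refine pow_le_pow_left₀ (by positivity) ?_ d
      calc ((⌈2 * y⌉₊ + K + 1 : ℕ) : ℝ) * p ≤ (K + 4) * y * p :=
            mul_le_mul_of_nonneg_right h6 (Nat.cast_nonneg p)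
        _ = _ := by ring
    set A : ℝ := 4 * (c' + 40) * ((K + 4) * p) ^ d with hA
    have h8 : (A + 1) * y ^ d ≤ y ^ (d + 1) := by
      rw [pow_succ']
      exact mul_le_mul_of_nonneg_right h2 (by positivity)
    have h9 : (4 * (c' + 40) * (((⌈2 * y⌉₊ + K + 1 : ℕ) : ℝ) * p) ^ d : ℝ) ≤ A * y ^ d := by
      rw [hA, mul_assoc (4 * (c' + 40) : ℝ)]
      exact mul_le_mul_of_nonneg_left h7 (by positivity)
    have : (4 * (c' + 40) * (((⌈2 * y⌉₊ + K + 1 : ℕ) : ℝ) * p) ^ d : ℝ) ≤ L := by linarith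
    exact_mod_cast this

theorem final_of_key (p : ℕ) (hp : 1 ≤ p) (h : KeyStmt p) :
    ∃ F : ℕ → Set (List (ℕ × Bool)),
      (∀ n, ∀ C ∈ F n, C.length ≤ 4 ∧ ∀ l ∈ C, l.1 < n) ∧
      (∀ n, ∀ x : ℕ → Bool, ∃ C ∈ F n, ∀ l ∈ C, x l.1 ≠ l.2) ∧
      ∀ R : List (List (Fm p) × Fm p), (∀ r ∈ R, Sound r) → ∀ d : ℕ,
        ∃ ε : ℝ, 0 < ε ∧ ∃ n₀ : ℕ, ∀ n ≥ n₀, ∀ (t : ℕ) (L : ℕ → Fm p),
          Refutes R (F n) t L → (∀ k < t, (L k).depth ≤ d) →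
          (2 : ℝ) ^ ((n : ℝ) ^ ε) ≤ ((∑ k ∈ Finset.range t, (L k).size : ℕ) : ℝ) := by
  have _ := hp
  obtain ⟨c, hc, hev⟩ := h
  obtain ⟨L₀, hL₀⟩ := eventually_atTop.1 hev
  choose G hG1 hG2 hG3 using hL₀
  choose Lf hLf1 hLf2 using Final_root
  refine ⟨fun n => if h : L₀ ≤ Lf n then G (Lf n) h else {[]}, ?_, ?_, ?_⟩
  · intro n C hC
    by_cases h : L₀ ≤ Lf n
    · simp only [dif_pos h] at hC
      exact ⟨(hG1 _ h C hC).1, fun l hl => ((hG1 _ h C hC).2 l hl).trans_le (hLf1 n)⟩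
    · simp only [dif_neg h, Set.mem_singleton_iff] at hC
      subst hC
      simp
  · intro n x
    by_cases h : L₀ ≤ Lf n
    · simp only [dif_pos h]
      exact hG2 _ h x
    · simp only [dif_neg h]
      exact ⟨[], rfl, by simp⟩
  · intro R hR d
    set c' : ℕ := (R.map fun r => (r.1.map Fm.size).sum + r.1.length + r.2.size).sum with hc'
    have hcR : ∀ r ∈ R, (r.1.map Fm.size).sum + r.1.length + r.2.size ≤ c' := fun r hr =>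
      List.single_le_sum (fun _ _ => Nat.zero_le _) _ (List.mem_map_of_mem hr)
    obtain ⟨K, hK⟩ := pow_unbounded_of_one_lt (1 / c) (show (1 : ℝ) < 2 by norm_num)
    have hK' : 1 ≤ c * 2 ^ K := by
      rw [div_lt_iff₀ hc] at hK
      linarith
    set ε : ℝ := ((400 * (d + 1) : ℕ) : ℝ)⁻¹ with hε
    have hε0 : 0 < ε := by positivity
    have ht : Tendsto (fun n : ℕ => (n : ℝ) ^ ε) atTop atTop :=
      (tendsto_rpow_atTop hε0).comp tendsto_natCast_atTop_atTop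
    obtain ⟨n₀, hn₀⟩ := eventually_atTop.1 ((ht.eventually_ge_atTop ((L₀ : ℝ) + 1)).and
      (ht.eventually_ge_atTop ((4 * (c' + 40) * ((K + 4) * p) ^ d : ℝ) + 1)))
    refine ⟨ε, hε0, n₀, fun n hn t Ln href hd => ?_⟩
    set y : ℝ := (n : ℝ) ^ ε with hy
    have hyn : y ^ (400 * (d + 1)) = n :=
      Real.rpow_inv_natCast_pow (Nat.cast_nonneg n) (by omega)
    obtain ⟨h1, h2⟩ := Final_num p c' d K L₀ n (Lf n) y hyn (hLf2 n) (hn₀ n hn).1 (hn₀ n hn).2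
    simp only [dif_pos h1] at href
    have h3 := hG3 _ h1 R hR c' d (⌈2 * y⌉₊ + K + 1) hcR (by omega) h2 t Ln href hd
    refine le_of_sq_le_sq ?_ (Nat.cast_nonneg _)
    refine le_trans ?_ h3
    have h4 : ((2 : ℝ) ^ y) ^ 2 ≤ 2 ^ ⌈2 * y⌉₊ := by
      rw [← Real.rpow_natCast, ← Real.rpow_mul (by norm_num), ← Real.rpow_natCast]
      refine Real.rpow_le_rpow_of_exponent_le (by norm_num) ?_
      have := Nat.le_ceil (2 * y)
      push_cast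
      linarith
    have h5 : (0 : ℝ) < 2 ^ ⌈2 * y⌉₊ := by positivity
    calc ((2 : ℝ) ^ y) ^ 2 ≤ 2 ^ ⌈2 * y⌉₊ * 1 * 1 := by linarith
      _ ≤ 2 ^ ⌈2 * y⌉₊ * (c * 2 ^ K) * 2 := by gcongr; norm_num
      _ = c * 2 ^ (⌈2 * y⌉₊ + K + 1) := by ring

end Pool.Agent.Lib.MP_8a52c3_lc.Ac0
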