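import Pool.Agent.Lib.MP_8a52c3_lc.Ac0.PMDefs

/-!
The gauge system: points `(J, K)`, variables, products of random matrices, the tensor `Θ`.
-/

namespace Pool.Agent.Lib.MP_8a52c3_lc.Ac0

open Matrix
open scoped BigOperators

/-- Euclidean norm of a complex vector. -/
noncomputable def nrm {ι : Type} [Fintype ι] (v : ι → ℂ) : ℝ :=
  ‖(WithLp.toLp 2 v : EuclideanSpace ℂ ι)‖

/-- Frobenius norm. -/
noncomputable def fro {n : ℕ} (M : Matrix (Fin n) (Fin n) ℂ) : ℝ :=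
  nrm fun e : Fin n × Fin n => M e.1 e.2

/-- `‖P‖^4 - ‖P P^*‖^2`. -/
noncomputable def Lam {n : ℕ} (P : Matrix (Fin n) (Fin n) ℂ) : ℝ :=
  fro P ^ 4 - fro (P * Pᴴ) ^ 2

open Classical in
/-- Probability for the uniform measure on a finite type. -/
noncomputable def pb {ι : Type} [Fintype ι] (P : ι → Prop) : ℝ :=
  𝔼 i, if P i then (1 : ℝ) else 0

/-- Constant in the moment bound. -/
noncomputable def Mk (k : ℕ) : ℝ := 8 * 2 ^ k * ((2 * k).factorial : ℝ)

/-- Constant in the moment recursion. -/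
noncomputable def Ck (k : ℕ) : ℝ := (k : ℝ) ^ 2 * Mk k

/-- Products `X (j-1) * ... * X i` (the identity when `j ≤ i`). -/
noncomputable def pr {n : ℕ} (X : ℕ → Matrix (Fin n) (Fin n) ℂ) (i : ℕ) :
    ℕ → Matrix (Fin n) (Fin n) ℂ
  | 0 => 1
  | j + 1 => if i ≤ j then X j * pr X i j else 1

/-- Row `a` of `X` restricted to the interval `[u, w)`. -/
def rowI {n : ℕ} (X : Matrix (Fin n) (Fin n) ℂ) (a : Fin n) (u w : Fin (n + 1)) : Fin n → ℂ :=
  fun b => if u.val ≤ b.val ∧ b.val < w.val then X a b else 0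

/-- Column `b` of `X` restricted to the rows below `j`. -/
def colP {n : ℕ} (X : Matrix (Fin n) (Fin n) ℂ) (b : Fin n) (j : Fin (n + 1)) : Fin n → ℂ :=
  fun a => if a.val < j.val then X a b else 0

/-- All elementary quantities are at most `η`. -/
def EvB {n : ℕ} (η : ℝ) (s : ℕ) (X : ℕ → Matrix (Fin n) (Fin n) ℂ) : Prop :=
  ∀ l < s, ∀ (a : Fin n) (u w : Fin (n + 1)), ∀ i ≤ l,
    (∀ c : Fin n, ‖rowI (X l) a u w ⬝ᵥ (pr X i l *ᵥ Pi.single c 1)‖ ≤ η) ∧
      ∀ i' : ℕ, i = i' + 1 → ∀ (b : Fin n) (j : Fin (n + 1)),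
        ‖rowI (X l) a u w ⬝ᵥ (pr X i l *ᵥ colP (X i') b j)‖ ≤ η

/-- `X' - X` is a sum of elementary rank one pieces of total weight at most `W`. -/
def Decomp {n : ℕ} (W : ℝ) (s : ℕ) (X X' : ℕ → Matrix (Fin n) (Fin n) ℂ) : Prop :=
  ∃ (γ : ℕ → Fin n → Fin (n + 1) → Fin (n + 1) → ℂ) (γ' : ℕ → Fin n → Fin (n + 1) → ℂ),
    (∀ l < s, X' l - X l =
      (∑ a, ∑ u, ∑ w, γ l a u w • vecMulVec (Pi.single a 1) (rowI (X l) a u w)) +
        ∑ b, ∑ j, γ' l b j • vecMulVec (colP (X l) b j) (Pi.single b 1)) ∧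
    ∑ l ∈ Finset.range s, ((∑ a, ∑ u, ∑ w, ‖γ l a u w‖) + ∑ b, ∑ j, ‖γ' l b j‖) ≤ W

section gauge

variable (q s n : ℕ)

/-- Edge part of a point. -/
abbrev JT : Type := Fin s → Fin n → Fin n → ZMod q

/-- Hyperedge part of a point. -/
abbrev KT : Type := (Fin q → Fin n) → ZMod q

/-- Points. -/
abbrev Gam : Type := JT q s n × KT q n

/-- Vertices. -/
abbrev Vx : Type := Fin (s + 1) × Fin n

/-- Variables: initial segments of rows, of columns, and of hyperedge slices. -/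
abbrev Zv : Type :=
  (Fin s × Fin n × Fin (n + 1)) ⊕ (Fin s × Fin n × Fin (n + 1)) ⊕
    (Fin q × Fin n × Fin (n ^ q + 1))

variable {q s n}

/-- Gauge transformations. -/
def dl (τ : Vx s n → ZMod q) : Gam q s n :=
  (fun l a b => τ (l.succ, a) - τ (l.castSucc, b), fun A => -∑ i, τ (Fin.last s, A i))

/-- The point `∑ m z • φ z`. -/
def phi (m : Zv q s n → ZMod q) : Gam q s n :=
  (fun l a b => (∑ j : Fin (n + 1), if b.val < j.val then m (.inl (l, a, j)) else 0) +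
      ∑ j : Fin (n + 1), if a.val < j.val then m (.inr (.inl (l, b, j))) else 0,
    fun A => ∑ i : Fin q, ∑ j : Fin (n ^ q + 1),
      if (finFunctionFinEquiv A).val < j.val then m (.inr (.inr (i, A i, j))) else 0)

variable [NeZero q]

/-- The standard character `c ↦ exp (2 π i c / q)`. -/
noncomputable def ec (c : ZMod q) : ℂ := ZMod.stdAddChar (N := q) c

/-- Normalised matrix of roots of unity. -/
noncomputable def mat (M : Fin n → Fin n → ZMod q) : Matrix (Fin n) (Fin n) ℂ :=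
  Matrix.of fun a b => ec (M a b) / (Real.sqrt n : ℂ)

/-- The layers. -/
noncomputable def XJ (J : JT q s n) (l : ℕ) : Matrix (Fin n) (Fin n) ℂ :=
  if h : l < s then mat (J ⟨l, h⟩) else 1

/-- The long product. -/
noncomputable def PJ (J : JT q s n) : Matrix (Fin n) (Fin n) ℂ := pr (XJ J) 0 s

/-- The tensor attached to a matrix and hyperedge values. -/
noncomputable def ThP (P : Matrix (Fin n) (Fin n) ℂ) (K : KT q n) (B : Fin q → Fin n) : ℂ :=
  ∑ A : Fin q → Fin n, ec (K A) * ∏ i, P (A i) (B i)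

/-- The tensor attached to a point. -/
noncomputable def Th (g : Gam q s n) : (Fin q → Fin n) → ℂ := ThP (PJ g.1) g.2

/-- `Θ` is close to a positive multiple of the `q`-th tensor power of the unit vector `t`. -/
def Good (η : ℝ) (Θ : (Fin q → Fin n) → ℂ) (t : Fin n → ℂ) : Prop :=
  nrm t = 1 ∧ ∃ μ : ℝ, 0 < μ ∧ nrm (fun B => Θ B - (μ : ℂ) * ∏ i, t (B i)) ≤ η * μ

/-- One delocalised vector is good on the whole ball of radius `L` around `g`. -/
def Ball (η δ : ℝ) (L : ℕ) (g : Gam q s n) : Prop :=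
  ∃ t : Fin n → ℂ, (∀ b, ‖t b‖ ≤ δ) ∧
    ∀ m : Zv q s n → ZMod q, hammingNorm m ≤ L → Good η (Th (g + phi m)) t

/-- The diagonal action of points on vectors. -/
noncomputable def act (l₀ : Fin s) (b₀ : Fin n) (γ : Gam q s n) (t : Fin n → ℂ) : Fin n → ℂ :=
  fun b => ec (γ.1 l₀ b₀ b - γ.1 l₀ b₀ b₀) * t b

/-- The charges: `1` at the vertex `(0, b₀)`, `0` elsewhere. -/
def chg (b₀ : Fin n) (v : Vx s n) : ZMod q := if v = (0, b₀) then 1 else 0

/-- The equations of width at most `4`. -/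
def Eqs (b₀ : Fin n) : Set ((Zv q s n → ZMod q) × ZMod q) :=
  {e | hammingNorm e.1 ≤ 4 ∧
    ((phi e.1 = 0 ∧ e.2 = 0) ∨ ∃ v : Vx s n, phi e.1 = dl (Pi.single v 1) ∧ e.2 = chg b₀ v)}

end gauge

/-- Cocycle data on a finite abelian group `A`. -/
structure Coc (q : ℕ) (Z A : Type) [Fintype Z] [AddCommGroup A] (Ω : A → Prop) (L : ℕ) where
  π : (Z → ZMod q) →+ A
  a : {α // Ω α} → (Z → ZMod q) → ZMod q
  w : A → (Z → ZMod q) → ZMod q
  a_zero : ∀ α, a α 0 = 0
  tri : ∀ α m m', hammingNorm m ≤ L → hammingNorm (m' + m) ≤ L →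
    a α (m' + m) = a α m + w (α.1 + π m) m'

/-- The properties of the truncated module attached to a system of equations. -/
structure EqPM {F Z V V₀ : Type} {q L : ℕ} [Field F] [Fintype Z] [AddCommGroup V] [Module F V]
    [AddCommGroup V₀] [Module F V₀] (ζ : AddChar (ZMod q) F) (M : PM F (Z → ZMod q) V V₀ L)
    (E : Set ((Z → ZMod q) × ZMod q)) : Prop where
  var_mem : ∀ z c, ind F (fun x : Z → ZMod q => decide (x z = c)) ∈ M.P 1
  chr_mem : ∀ m : Z → ZMod q, (fun x => ζ (m ⬝ᵥ x)) ∈ M.P (hammingNorm m)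
  kill : ∀ e ∈ E, ∀ v, M.Φ (fun x => ζ (e.1 ⬝ᵥ x) - ζ e.2) v = 0

end Pool.Agent.Lib.MP_8a52c3_lc.Ac0
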