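import Pool.Agent.Lib.MP_8a52c3_lc.Ac0.Nrm

namespace Pool.Agent.Lib.MP_8a52c3_lc.Ac0

open Matrix Filter
open scoped BigOperators

variable {q : ℕ} [NeZero q]

theorem Geo_dot {q n : ℕ} (t t₁ : Fin n → ℂ) (μ μ₁ : ℝ) :
    star (fun B : Fin q → Fin n => (μ₁ : ℂ) * ∏ i, t₁ (B i)) ⬝ᵥ
      (fun B : Fin q → Fin n => (μ : ℂ) * ∏ i, t (B i)) =
        ((μ₁ * μ : ℝ) : ℂ) * (star t₁ ⬝ᵥ t) ^ q := by
  rw [dotProduct, dotProduct, Fintype.sum_pow, Finset.mul_sum]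
  refine Finset.sum_congr rfl fun B _ => ?_
  simp only [Pi.star_apply, star_mul', star_prod, Finset.prod_mul_distrib, Complex.star_def,
    Complex.conj_ofReal, Complex.ofReal_mul]
  ring

theorem Geo_nrm {q n : ℕ} {t : Fin n → ℂ} (ht : nrm t = 1) {μ : ℝ} (hμ : 0 < μ) :
    nrm (fun B : Fin q → Fin n => (μ : ℂ) * ∏ i, t (B i)) = μ := by
  have h := nrm_smul (μ : ℂ) fun B : Fin q → Fin n => ∏ i, t (B i)
  rw [nrm_tensor, ht, one_pow, mul_one, Complex.norm_real, Real.norm_of_nonneg hμ.le] at h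
  exact h

theorem Geo_num {μ μ₁ η r : ℝ} (hμ : 0 < μ) (hμ₁ : 0 < μ₁) (h0 : 0 ≤ η) (h1 : η ≤ 1 / 3)
    (hr : r ≤ 1) (h : μ₁ ^ 2 + μ ^ 2 - 2 * (μ₁ * μ * r) ≤ (η * μ₁ + η * μ) ^ 2) :
    2 - 2 * r ≤ (3 * η) ^ 2 := by
  have h2 : 0 < μ₁ * μ := mul_pos hμ₁ hμ
  have h3 : 0 ≤ μ₁ * μ * (1 - r) := mul_nonneg h2.le (sub_nonneg.2 hr)
  have h4 : η ^ 2 ≤ 1 / 9 := by nlinarith
  have h5 : (η * μ₁ + η * μ) ^ 2 = η ^ 2 * (μ₁ + μ) ^ 2 := by ring
  have h6 := mul_le_mul_of_nonneg_right h4 (sq_nonneg (μ₁ + μ))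
  have h7 : (μ₁ + μ) ^ 2 ≤ 9 * (μ₁ * μ) := by nlinarith
  have h8 := mul_le_mul_of_nonneg_left h7 (sq_nonneg η)
  refine le_of_mul_le_mul_left ?_ h2
  nlinarith [sq_nonneg (μ₁ - μ)]

/-- Two good vectors for one tensor differ by a root of unity, up to `δ`. -/
theorem good_close {δ : ℝ} (hδ : 0 < δ) : ∃ η : ℝ, 0 < η ∧
    ∀ (n : ℕ) (Θ : (Fin q → Fin n) → ℂ) (t t₁ : Fin n → ℂ), Good η Θ t → Good η Θ t₁ →
      ∃ a : ZMod q, nrm (t - ec a • t₁) ≤ δ := by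
  have hε : 0 < δ ^ 2 / 2 := by positivity
  refine ⟨min (1 / 3) ((δ ^ 2 / 2) ^ q / 3), by positivity, ?_⟩
  generalize hη : min (1 / 3 : ℝ) ((δ ^ 2 / 2) ^ q / 3) = η
  have h0 : 0 ≤ η := hη ▸ by positivity
  have h1 : η ≤ 1 / 3 := hη ▸ min_le_left _ _
  have h2 : η ≤ (δ ^ 2 / 2) ^ q / 3 := hη ▸ min_le_right _ _
  rintro n Θ t t₁ ⟨ht, μ, hμ, k⟩ ⟨ht₁, μ₁, hμ₁, k₁⟩
  obtain ⟨z, hz⟩ : ∃ z, star t₁ ⬝ᵥ t = z := ⟨_, rfl⟩
  have h3 : ‖z‖ ≤ 1 := by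
    have h3 := norm_dot_le (star t₁) t
    rwa [hz, nrm_congr_norm (u := star t₁) (v := t₁) fun i => norm_star _, ht, ht₁, mul_one] at h3
  have h4 : ‖z ^ q‖ ≤ 1 := by
    rw [norm_pow]
    exact pow_le_one₀ (norm_nonneg _) h3
  have h5 := nrm_sub_le (fun B : Fin q → Fin n => (μ₁ : ℂ) * ∏ i, t₁ (B i)) Θ
    fun B : Fin q → Fin n => (μ : ℂ) * ∏ i, t (B i)
  rw [nrm_sub_comm _ Θ] at h5
  have h6 := pow_le_pow_left₀ (nrm_nonneg _) (h5.trans (add_le_add k₁ k)) 2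
  rw [nrm_sub_sq, Geo_dot, Geo_nrm ht hμ, Geo_nrm ht₁ hμ₁, hz, Complex.re_ofReal_mul] at h6
  have h7 := Geo_num hμ hμ₁ h0 h1 ((Complex.re_le_norm _).trans h4) h6
  have h8 : ‖z ^ q - 1‖ ≤ 3 * η := by
    refine (pow_le_pow_iff_left₀ (norm_nonneg _) (by positivity) two_ne_zero).1 ?_
    rw [Complex.sq_norm, Complex.normSq_sub, ← Complex.sq_norm]
    simp only [map_one, mul_one]
    nlinarith [norm_nonneg (z ^ q)]
  obtain ⟨a, ha⟩ : ∃ a : ZMod q, ‖z - ec a‖ ≤ δ ^ 2 / 2 := by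
    by_contra h
    have h9 := Finset.prod_lt_prod_of_nonempty (s := Finset.univ) (f := fun _ : ZMod q => δ ^ 2 / 2)
      (g := fun a => ‖z - ec a‖) (fun _ _ => hε) (fun a _ => not_le.1 fun e => h ⟨a, e⟩)
      Finset.univ_nonempty
    rw [← norm_prod, prod_sub_ec, Finset.prod_const, Finset.card_univ, ZMod.card] at h9
    linarith
  refine ⟨a, (pow_le_pow_iff_left₀ (nrm_nonneg _) hδ.le two_ne_zero).1 ?_⟩
  rw [nrm_sub_comm, nrm_sub_sq, nrm_smul, norm_ec, ht, ht₁, star_smul, smul_dotProduct, hz,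
    smul_eq_mul]
  have h9 : star (ec a) * z = 1 + star (ec a) * (z - ec a) := by
    rw [mul_sub, Complex.star_def, ← ec_neg, mul_comm (ec (-a)) (ec a), ec_mul_neg]
    ring
  have h10 := (abs_le.1 (Complex.abs_re_le_norm (star (ec a) * (z - ec a)))).1
  rw [norm_mul, norm_star, norm_ec, one_mul] at h10
  rw [h9, Complex.add_re, Complex.one_re]
  linarith

/-- A phase function: it reads off the root of unity relating two close unit vectors and is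
invariant under unimodular diagonal maps. -/
theorem exists_phase : ∃ δ : ℝ, 0 < δ ∧
    ∀ n : ℕ, ∃ ph : (Fin n → ℂ) → (Fin n → ℂ) → ZMod q,
      (∀ (t t' : Fin n → ℂ) (c : ZMod q), nrm t = 1 → nrm (t' - ec c • t) ≤ 4 * δ →
        ph t t' = c) ∧
      ∀ (u t t' : Fin n → ℂ), (∀ b, ‖u b‖ = 1) → ph (u * t) (u * t') = ph t t' := by
  obtain ⟨κ, hκ, h1⟩ : ∃ κ : ℝ, 0 < κ ∧ ∀ c c' : ZMod q, ‖ec c - ec c'‖ < κ → c = c' := by
    obtain ⟨p, hp⟩ := Finite.exists_min fun p : ZMod q × ZMod q =>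
      if p.1 = p.2 then (1 : ℝ) else ‖ec p.1 - ec p.2‖
    refine ⟨_, ?_, fun c c' h => by_contra fun e => absurd (hp (c, c')) (by rwa [if_neg e, not_le])⟩
    split_ifs with h
    · exact one_pos
    · exact norm_pos_iff.2 (sub_ne_zero.2 fun e => h (ec_injective e))
  refine ⟨κ / 9, by positivity, fun n => ⟨fun t t' =>
    Classical.epsilon fun c : ZMod q => nrm (t' - ec c • t) ≤ 4 * (κ / 9), fun t t' c ht h => ?_,
      fun u t t' hu => ?_⟩⟩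
  · have h2 := Classical.epsilon_spec (p := fun c : ZMod q => nrm (t' - ec c • t) ≤ 4 * (κ / 9)) ⟨c, h⟩
    beta_reduce
    generalize Classical.epsilon (fun c : ZMod q => nrm (t' - ec c • t) ≤ 4 * (κ / 9)) = c' at h2 ⊢
    have h3 := nrm_sub_le (ec c' • t) t' (ec c • t)
    rw [nrm_sub_comm _ t', ← sub_smul, nrm_smul, ht, mul_one] at h3
    exact h1 _ _ (by linarith)
  · refine congrArg Classical.epsilon (funext fun c => ?_)
    rw [nrm_congr_norm (u := u * t' - ec c • (u * t)) (v := t' - ec c • t) fun b => by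
      rw [← mul_smul_comm, ← mul_sub, Pi.mul_apply, norm_mul, hu, one_mul]]

end Pool.Agent.Lib.MP_8a52c3_lc.Ac0
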