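import Pool.Agent.Lib.MP_8a52c3_lc.Ac0.Geo
import Pool.Agent.Lib.MP_8a52c3_lc.Ac0.Cov
import Pool.Agent.Lib.MP_8a52c3_lc.Ac0.Chr

namespace Pool.Agent.Lib.MP_8a52c3_lc.Ac0

open Matrix Filter
open scoped BigOperators

theorem Sec_phase {q n : ℕ} [NeZero q] {δ : ℝ} (t₁ t t' : Fin n → ℂ) (a a' : ZMod q)
    (h : nrm (t - ec a • t₁) ≤ δ) (h' : nrm (t' - ec a' • t₁) ≤ δ) :
    nrm (t' - ec (a' - a) • t) ≤ 4 * δ := by
  have hδ : 0 ≤ δ := le_trans (nrm_nonneg _) h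
  have h1 : ec a' • t₁ - ec (a' - a) • t = ec (a' - a) • (ec a • t₁ - t) := by
    rw [smul_sub, smul_smul, ← ec_add, sub_add_cancel]
  have h2 := nrm_sub_le t' (ec a' • t₁) (ec (a' - a) • t)
  rw [h1, nrm_smul, norm_ec, one_mul, nrm_sub_comm (ec a • t₁) t] at h2
  linarith

/-- The cocycle on gauge classes. -/
theorem exists_coc (q : ℕ) [NeZero q] : ∃ η δ : ℝ, 0 < η ∧ 0 < δ ∧
    ∀ (s n L : ℕ) (_ : 1 ≤ s) (b₀ : Fin n) (_ : 4 ≤ L),
      ∃ C : Coc q (Zv q s n) (Cls q s n)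
          (fun α => ∃ g, (QuotientAddGroup.mk g : Cls q s n) = α ∧ Ball η δ L g) L,
        ∀ e ∈ Eqs (q := q) (s := s) b₀, C.π e.1 = 0 ∧ ∀ α, C.a α e.1 = e.2 := by
  obtain ⟨δ, hδ, hph⟩ := exists_phase (q := q)
  obtain ⟨η, hη, hgc⟩ := good_close (q := q) hδ
  refine ⟨η, δ, hη, hδ, fun s n L hs b₀ hL => ?_⟩
  obtain ⟨ph, hph1, hph2⟩ := hph n
  obtain ⟨T, hT1, hT2⟩ := exists_section (q := q) (s := s) (n := n) ⟨0, hs⟩ rfl b₀ η
  -- invariance of the phase under gauge transformations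
  have hinv : ∀ (g g' : Gam q s n) (τ : Vx s n → ZMod q),
      ph (T (g + dl τ)) (T (g' + dl τ)) = ph (T g) (T g') := by
    intro g g' τ
    rw [hT1, hT1]
    exact hph2 (fun b => ec ((dl τ : Gam q s n).1 ⟨0, hs⟩ b₀ b -
      (dl τ : Gam q s n).1 ⟨0, hs⟩ b₀ b₀)) (T g) (T g') (fun b => norm_ec _)
  -- on a ball everything is close to one vector
  have hball : ∀ g : Gam q s n, Ball η δ L g → ∃ (t₁ : Fin n → ℂ)
      (a : (Zv q s n → ZMod q) → ZMod q), (∀ b, ‖t₁ b‖ ≤ δ) ∧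
      ∀ m, hammingNorm m ≤ L →
        nrm (T (g + phi m)) = 1 ∧ nrm (T (g + phi m) - ec (a m) • t₁) ≤ δ := by
    rintro g ⟨t₁, ht₁, hg⟩
    have h1 : ∀ m : Zv q s n → ZMod q, ∃ a : ZMod q, hammingNorm m ≤ L →
        nrm (T (g + phi m)) = 1 ∧ nrm (T (g + phi m) - ec a • t₁) ≤ δ := by
      intro m
      by_cases hm : hammingNorm m ≤ L
      · have h2 := hT2 _ ⟨t₁, hg m hm⟩
        obtain ⟨a, ha⟩ := hgc n _ _ _ h2 (hg m hm)
        exact ⟨a, fun _ => ⟨h2.1, ha⟩⟩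
      · exact ⟨0, fun h => absurd h hm⟩
    choose a ha using h1
    exact ⟨t₁, a, ht₁, ha⟩
  have h0 : hammingNorm (0 : Zv q s n → ZMod q) ≤ L := by simp
  let Ω : Cls q s n → Prop :=
    fun α => ∃ g, (QuotientAddGroup.mk g : Cls q s n) = α ∧ Ball η δ L g
  let G : {α // Ω α} → Gam q s n := fun α => Classical.choose α.2
  have hG : ∀ α, (QuotientAddGroup.mk (G α) : Cls q s n) = α.1 ∧ Ball η δ L (G α) :=
    fun α => Classical.choose_spec α.2
  let π : (Zv q s n → ZMod q) →+ Cls q s n :=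
    (QuotientAddGroup.mk' (dlh q s n).range).comp (phih q s n)
  have hπ : ∀ m, π m = QuotientAddGroup.mk (phi m) := fun m => rfl
  have hself : ∀ α, ph (T (G α)) (T (G α)) = 0 := by
    intro α
    obtain ⟨t₁, a, -, ha⟩ := hball _ (hG α).2
    have h1 := (ha 0 h0).1
    rw [phi_zero, add_zero] at h1
    refine hph1 _ _ 0 h1 ?_
    rw [ec_zero, one_smul, sub_self, nrm_zero]
    linarith
  refine ⟨⟨π, fun α m => ph (T (G α)) (T (G α + phi m)),
    fun β m' => ph (T β.out) (T (β.out + phi m')), fun α => ?_, fun α m m' hm hm' => ?_⟩, ?_⟩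
  · simp only [phi_zero, add_zero]
    exact hself α
  · obtain ⟨t₁, a, -, ha⟩ := hball _ (hG α).2
    have h1 : (QuotientAddGroup.mk (G α + phi m) : Cls q s n) = α.1 + π m := by
      rw [QuotientAddGroup.mk_add, (hG α).1, hπ]
    have h2 : (QuotientAddGroup.mk (G α + phi m) : Cls q s n) =
        QuotientAddGroup.mk (α.1 + π m).out := by
      rw [h1, QuotientAddGroup.out_eq']
    obtain ⟨τ, hτ⟩ := QuotientAddGroup.eq.1 h2
    have h3 : (α.1 + π m).out = G α + phi m + dl τ := by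
      rw [← dlh_apply, hτ]
      abel
    have h4 : (α.1 + π m).out + phi m' = G α + phi (m' + m) + dl τ := by
      rw [h3, phi_add]
      abel
    have hz := ha 0 h0
    rw [phi_zero, add_zero] at hz
    have e1 := hph1 _ _ _ hz.1 (Sec_phase t₁ _ _ _ _ hz.2 (ha _ hm').2)
    have e2 := hph1 _ _ _ hz.1 (Sec_phase t₁ _ _ _ _ hz.2 (ha _ hm).2)
    have e3 := hph1 _ _ _ (ha _ hm).1 (Sec_phase t₁ _ _ _ _ (ha _ hm).2 (ha _ hm').2)
    show ph (T (G α)) (T (G α + phi (m' + m))) = ph (T (G α)) (T (G α + phi m)) +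
      ph (T (α.1 + π m).out) (T ((α.1 + π m).out + phi m'))
    rw [h4, h3, hinv, e1, e2, e3]
    ring
  · rintro e ⟨-, he | ⟨v, hv, hv'⟩⟩
    · refine ⟨?_, fun α => ?_⟩
      · show π e.1 = 0
        rw [hπ, he.1]
        rfl
      · show ph (T (G α)) (T (G α + phi e.1)) = e.2
        rw [he.1, add_zero, he.2]
        exact hself α
    · refine ⟨?_, fun α => ?_⟩
      · show π e.1 = 0
        rw [hπ, hv]
        exact (QuotientAddGroup.eq_zero_iff _).2 ⟨_, dlh_apply _⟩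
      · show ph (T (G α)) (T (G α + phi e.1)) = e.2
        obtain ⟨t₁, a, ht₁, ha⟩ := hball _ (hG α).2
        have hz := ha 0 h0
        rw [phi_zero, add_zero] at hz
        rw [hv, hv', hT1]
        refine hph1 _ _ _ hz.1 ?_
        have hc : ∀ b, ‖T (G α) b‖ ≤ 2 * δ := by
          intro b
          have h1 := le_trans (norm_le_nrm _ b) hz.2
          have h2 : T (G α) b = (T (G α) - ec (a 0) • t₁) b + ec (a 0) * t₁ b := by
            simp
          rw [h2]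
          refine le_trans (norm_add_le _ _) ?_
          rw [norm_mul, norm_ec, one_mul]
          linarith [ht₁ b]
        have h3 := act_vertex (q := q) ⟨0, hs⟩ rfl b₀ v (T (G α)) hc
        linarith

end Pool.Agent.Lib.MP_8a52c3_lc.Ac0
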