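import Pool.Agent.Lib.MP_8a52c3_lc.Ac0.Loc

namespace Pool.Agent.Lib.MP_8a52c3_lc.Ac0

open Module

variable {F D V V₀ : Type} [Field F] [AddCommGroup V] [Module F V] [AddCommGroup V₀]
  [Module F V₀] {L : ℕ} {p : ℕ}

theorem Sim_subst_var (A : Fm p) : A.subst Fm.var = A := by
  induction A with
  | var i => rfl
  | top => rfl
  | bot => rfl
  | neg A ih => rw [Fm.subst, ih]
  | or A B ihA ihB => rw [Fm.subst, ihA, ihB]
  | and A B ihA ihB => rw [Fm.subst, ihA, ihB]
  | mod i m f ih =>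
    rw [Fm.subst]
    congr 1
    exact funext ih

theorem Sim_lit_size (l : ℕ × Bool) : (Fm.lit l : Fm p).size ≤ 2 := by
  unfold Fm.lit
  split_ifs <;> simp [Fm.size]

theorem Sim_lit_eval (y : ℕ → Bool) (l : ℕ × Bool) :
    (Fm.lit l : Fm p).eval y = !(y l.1 != l.2) := by
  obtain ⟨i, b⟩ := l
  cases b <;> simp [Fm.lit, Fm.eval]

theorem Sim_clause_size : ∀ C : List (ℕ × Bool), (Fm.clause C : Fm p).size ≤ 3 * C.length + 1
  | [] => by simp [Fm.clause, Fm.size]
  | [l] => by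
    have := Sim_lit_size (p := p) l
    simp only [Fm.clause, List.length_cons, List.length_nil]
    omega
  | l :: l' :: C => by
    have h1 := Sim_lit_size (p := p) l
    have h2 := Sim_clause_size (l' :: C)
    simp only [Fm.clause, Fm.size, List.length_cons] at h2 ⊢
    omega

theorem Sim_clause_eval (y : ℕ → Bool) : ∀ C : List (ℕ × Bool),
    (Fm.clause C : Fm p).eval y = !(C.all fun l => y l.1 != l.2)
  | [] => by simp [Fm.clause, Fm.eval]
  | [l] => by simp [Fm.clause, Sim_lit_eval]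
  | l :: l' :: C => by
    have h2 := Sim_clause_eval y (l' :: C)
    rw [Fm.clause, Fm.eval, h2, Sim_lit_eval, List.all_cons (a := l), Bool.not_and]

theorem Sim_kill_mono (M : PM F D V V₀ L) {v : V₀} {k k' : ℕ} {a : D → Bool} (h : M.Kill v k a)
    (hk : k ≤ k') : M.Kill v k' a := ⟨M.mono _ _ hk h.1, h.2⟩

variable (O : List (D → Bool) → D → Bool) (x : ℕ → D → Bool)

theorem Sim_falsif_mem (M : PM F D V V₀ L) (hx : ∀ i, ind F (x i) ∈ M.P 1)
    (C : List (ℕ × Bool)) : ind F (falsif x C) ∈ M.P C.length := by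
  induction C with
  | nil =>
    have e : ind F (falsif x []) = (1 : D → F) := by
      funext z
      simp [ind, falsif]
    rw [e]
    exact M.one_mem' _
  | cons l C ih =>
    obtain ⟨i, b⟩ := l
    have h1 : ind F (fun z => x i z != b) ∈ M.P 1 := by
      cases b
      · simpa using hx i
      · simpa using M.ind_not_mem (hx i)
    have h2 := M.ind_and_mem h1 ih
    rw [List.length_cons, add_comm]
    exact h2

theorem Sim_not_mem (M : PM F D V V₀ L) [Fact p.Prime] [CharP F p] {κ ℓ : ℕ}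
    (hO : OSpec M κ ℓ O) (hκ : p - 1 ≤ κ) (hx : ∀ i, ind F (x i) ∈ M.P 1) (d : ℕ) (A : Fm p)
    (hd : A.depth ≤ d) : ind F (fun z => !(ap O x A z)) ∈ M.P (4 * κ ^ d) := by
  have h2 := (Fact.out : p.Prime).two_le
  have h1 : κ ^ A.depth ≤ κ ^ d := Nat.pow_le_pow_right (by omega) hd
  exact M.mono _ _ (by omega) (M.ind_not_mem (ap_mem O x M hO hκ hx A).1)

/-- A substitution instance of a scheme that is true outside the supports of few annihilating
functions is true on `v`. -/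
theorem Sim_cover (M : PM F D V V₀ L) [Fact p.Prime] [CharP F p] {κ ℓ : ℕ}
    (hO : OSpec M κ ℓ O) (hκ : p - 1 ≤ κ) (hx : ∀ i, ind F (x i) ∈ M.P 1) (d c : ℕ)
    (hL : 4 * (c + 40) * κ ^ d ≤ L) (v : V₀) (σ : ℕ → Fm p) (B : Fm p)
    (hd : (B.subst σ).depth ≤ d) (hv : ∀ E ∈ ext O x (B.subst σ), M.Φ (ind F E) v = 0)
    (Ds : List (D → Bool)) (hlen : Ds.length + B.size ≤ c + 39)
    (hD : ∀ E ∈ Ds, M.Kill v (4 * κ ^ d) E)
    (hB : ∀ z, (∀ E ∈ Ds, E z = false) → (B.eval fun i => ap O x (σ i) z) = true) :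
    M.Φ (ind F fun z => !(ap O x (B.subst σ) z)) v = 0 := by
  have hL' : 4 * κ ^ d ≤ L := le_trans (Nat.mul_le_mul_right _ (by omega)) hL
  obtain ⟨Ds', h1, h2, h3⟩ := scheme_viol O x M hO hκ hx d hL' v σ B hd hv
  refine M.cover v (4 * κ ^ d) (Ds ++ Ds') _ (Sim_not_mem O x M hO hκ hx d _ hd) ?_ ?_ ?_
  · intro E hE
    rcases List.mem_append.1 hE with h | h
    · exact hD E h
    · exact Sim_kill_mono M (h2 E h) (by omega)
  · intro z hz
    by_contra hn
    have hall : ∀ E ∈ Ds ++ Ds', E z = false := fun E hE => by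
      cases h : E z
      · rfl
      · exact absurd ⟨E, hE, h⟩ hn
    rw [h3 z fun E hE => hall E (List.mem_append_right _ hE),
      hB z fun E hE => hall E (List.mem_append_left _ hE)] at hz
    exact absurd hz (by simp)
  · refine le_trans ?_ hL
    rw [List.length_append, ← mul_assoc]
    exact Nat.mul_le_mul_right _ (by omega)

theorem Sim_prem (M : PM F D V V₀ L) [Fact p.Prime] [CharP F p] {κ ℓ : ℕ}
    (hO : OSpec M κ ℓ O) (hκ : p - 1 ≤ κ) (hx : ∀ i, ind F (x i) ∈ M.P 1) (d : ℕ)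
    (hL : 4 * κ ^ d ≤ L) (v : V₀) (σ : ℕ → Fm p) (Bs : List (Fm p))
    (h : ∀ B ∈ Bs, (B.subst σ).depth ≤ d ∧ (∀ E ∈ ext O x (B.subst σ), M.Φ (ind F E) v = 0) ∧
      M.Φ (ind F fun z => !(ap O x (B.subst σ) z)) v = 0) :
    ∃ Ds : List (D → Bool), Ds.length ≤ (Bs.map Fm.size).sum + Bs.length ∧
      (∀ E ∈ Ds, M.Kill v (4 * κ ^ d) E) ∧
      ∀ z, (∀ E ∈ Ds, E z = false) → ∀ B ∈ Bs, (B.eval fun i => ap O x (σ i) z) = true := by
  induction Bs with
  | nil => exact ⟨[], by simp, by simp, by simp⟩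
  | cons B Bs ih =>
    obtain ⟨Ds, h1, h2, h3⟩ := ih fun B' hB' => h B' (List.mem_cons_of_mem _ hB')
    obtain ⟨b1, b2, b3⟩ := h B List.mem_cons_self
    obtain ⟨Ds', g1, g2, g3⟩ := scheme_viol O x M hO hκ hx d hL v σ B b1 b2
    refine ⟨(fun z => !(ap O x (B.subst σ) z)) :: (Ds' ++ Ds), ?_, ?_, ?_⟩
    · simp only [List.length_cons, List.length_append, List.map_cons, List.sum_cons]
      omega
    · intro E hE
      rcases List.mem_cons.1 hE with rfl | hE
      · exact ⟨Sim_not_mem O x M hO hκ hx d _ b1, b3⟩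
      · rcases List.mem_append.1 hE with hE | hE
        · exact Sim_kill_mono M (g2 E hE) (by omega)
        · exact h2 E hE
    · intro z hz B' hB'
      rcases List.mem_cons.1 hB' with rfl | hB'
      · rw [← g3 z fun E hE => hz E (List.mem_cons_of_mem _ (List.mem_append_left _ hE))]
        simpa using hz _ List.mem_cons_self
      · exact h3 z (fun E hE => hz E (List.mem_cons_of_mem _ (List.mem_append_right _ hE))) B' hB'

/-- The substitution of the third counting formula. -/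
def Sim_sub (A₀ A₁ A₂ A₃ : Fm p) : ℕ → Fm p
  | 0 => A₀
  | 1 => A₁
  | 2 => A₂
  | _ + 3 => A₃

/-- The scheme of the third counting formula. -/
def Sim_sch : Fm p :=
  (Fm.var 0).equiv (.or (.and (.var 1) (.neg (.var 3))) (.and (.var 2) (.var 3)))

theorem Sim_sch_size : (Sim_sch : Fm p).size = 23 := rfl

theorem Sim_sch_eval (y : ℕ → Bool) (h1 : y 3 = true → y 0 = y 2) (h2 : y 3 = false → y 0 = y 1) :
    (Sim_sch : Fm p).eval y = true := by
  simp only [Sim_sch, Fm.equiv, Fm.eval]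
  cases h3 : y 3
  · rw [h2 h3]
    cases y 1 <;> simp
  · rw [h1 h3]
    cases y 2 <;> simp

theorem Sim_ap_mod (i : ZMod p) (m : ℕ) (f : Fin m → Fm p) (z : D) : ap O x (Fm.mod i m f) z =
    decide ((∑ j, if ap O x (f j) z = true then (1 : ZMod p) else 0) = i) := rfl

/-- Every line of a refutation is true on `v`. -/
theorem line_kill (M : PM F D V V₀ L) [Fact p.Prime] [CharP F p] {κ ℓ : ℕ}
    (hO : OSpec M κ ℓ O) (hκ : p - 1 ≤ κ) (hx : ∀ i, ind F (x i) ∈ M.P 1) (d c : ℕ)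
    (hL : 4 * (c + 40) * κ ^ d ≤ L) (v : V₀) (Fc : Set (List (ℕ × Bool)))
    (hF : ∀ C ∈ Fc, C.length ≤ 4 ∧ M.Φ (ind F (falsif x C)) v = 0)
    (R : List (List (Fm p) × Fm p)) (hR : ∀ r ∈ R, Sound r)
    (hc : ∀ r ∈ R, (r.1.map Fm.size).sum + r.1.length + r.2.size ≤ c)
    (t : ℕ) (Ln : ℕ → Fm p) (href : Refutes R Fc t Ln) (hd : ∀ k < t, (Ln k).depth ≤ d)
    (hv : ∀ k < t, ∀ E ∈ ext O x (Ln k), M.Φ (ind F E) v = 0) :
    ∀ k < t, M.Φ (ind F fun z => !(ap O x (Ln k) z)) v = 0 := by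
  have hL' : 4 * κ ^ d ≤ L := le_trans (Nat.mul_le_mul_right _ (by omega)) hL
  have hp2 := (Fact.out : p.Prime).two_le
  have hK : 1 ≤ κ ^ d := Nat.one_le_pow _ _ (by omega)
  intro k
  induction k using Nat.strong_induction_on with
  | _ k ih =>
    intro hk
    have main : ∀ (σ : ℕ → Fm p) (B : Fm p), Ln k = B.subst σ → ∀ Ds : List (D → Bool),
        Ds.length + B.size ≤ c + 39 → (∀ E ∈ Ds, M.Kill v (4 * κ ^ d) E) →
        (∀ z, (∀ E ∈ Ds, E z = false) → (B.eval fun i => ap O x (σ i) z) = true) →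
        M.Φ (ind F fun z => !(ap O x (Ln k) z)) v = 0 := by
      intro σ B e Ds h1 h2 h3
      have h4 := hd k hk
      have h5 := hv k hk
      rw [e] at h4 h5 ⊢
      exact Sim_cover O x M hO hκ hx d c hL v σ B h4 h5 Ds h1 h2 h3
    rcases href.1 k hk with ⟨C, hC, e⟩ | hm | ⟨r, hr, σ, e, hprem⟩
    · obtain ⟨c1, c2⟩ := hF C hC
      refine main Fm.var (Fm.clause C) (by rw [Sim_subst_var, e]) [falsif x C] ?_ ?_ ?_
      · have := Sim_clause_size (p := p) C
        simp only [List.length_cons, List.length_nil]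
        omega
      · intro E hE
        rw [List.mem_singleton.1 hE]
        exact ⟨M.mono _ _ (by omega) (Sim_falsif_mem x M hx C), c2⟩
      · intro z hz
        have h1 : falsif x C z = false := hz _ List.mem_cons_self
        rw [Sim_clause_eval]
        change (!(falsif x C z)) = true
        rw [h1]
        rfl
    · rcases hm with e | ⟨i, hi, e⟩ | ⟨i, m, f, j, e⟩
      · refine main Fm.var (.mod 0 0 Fin.elim0) (by rw [Sim_subst_var, e]) [] ?_ (by simp) ?_
        · simp [Fm.size]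
        · intro z _
          simp [Fm.eval]
      · refine main Fm.var (.neg (.mod i 0 Fin.elim0)) (by rw [Sim_subst_var, e]) [] ?_
          (by simp) ?_
        · simp [Fm.size]
        · intro z _
          simp [Fm.eval, hi.symm]
      · refine main (Sim_sub (Fm.mod i (m + 1) f) (.mod i m fun l => f (j.succAbove l))
          (.mod (i - 1) m fun l => f (j.succAbove l)) (f j)) Sim_sch e [] ?_ (by simp) ?_
        · rw [Sim_sch_size]
          simp
        · intro z _
          refine Sim_sch_eval _ (fun h => ?_) fun h => ?_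
          · simp only [Sim_sub] at h ⊢
            rw [Sim_ap_mod, Sim_ap_mod, Fin.sum_univ_succAbove _ j, if_pos h]
            exact decide_eq_decide.2 eq_sub_iff_add_eq'.symm
          · simp only [Sim_sub] at h ⊢
            rw [Sim_ap_mod, Sim_ap_mod, Fin.sum_univ_succAbove _ j, if_neg (by simp [h]), zero_add]
    · obtain ⟨Ds, h1, h2, h3⟩ := Sim_prem O x M hO hκ hx d hL' v σ r.1 fun B hB => by
        obtain ⟨j, hj, e'⟩ := hprem B hB
        rw [← e']
        exact ⟨hd j (hj.trans hk), hv j (hj.trans hk), ih j hj (hj.trans hk)⟩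
      have h4 := hc r hr
      exact main σ r.2 e Ds (by omega) h2 fun z hz => hR r hr _ (h3 z hz)

/-- Part I: a truncated module with small growth excludes short refutations. -/
theorem frege_lb [FiniteDimensional F V] [FiniteDimensional F V₀] (M : PM F D V V₀ L)
    [Fact p.Prime] [CharP F p] (hx : ∀ i, ind F (x i) ∈ M.P 1) (d c ℓ : ℕ) (hℓ : 1 ≤ ℓ)
    (hL : 4 * (c + 40) * (ℓ * p) ^ d ≤ L) (Fc : Set (List (ℕ × Bool)))
    (hF : ∀ C ∈ Fc, C.length ≤ 4 ∧ ∀ v, M.Φ (ind F (falsif x C)) v = 0)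
    (R : List (List (Fm p) × Fm p)) (hR : ∀ r ∈ R, Sound r)
    (hc : ∀ r ∈ R, (r.1.map Fm.size).sum + r.1.length + r.2.size ≤ c)
    (t : ℕ) (Ln : ℕ → Fm p) (href : Refutes R Fc t Ln) (hd : ∀ k < t, (Ln k).depth ≤ d) :
    2 ^ ℓ * finrank F V₀ ≤ (∑ k ∈ Finset.range t, (Ln k).size) ^ 2 * finrank F V := by
  obtain ⟨O, hO⟩ := exists_OSpec M p ℓ hℓ
  have hκ : p - 1 ≤ ℓ * (p - 1) := Nat.le_mul_of_pos_left _ hℓ
  have hL1 : 4 * (c + 40) * (ℓ * (p - 1)) ^ d ≤ L :=
    le_trans (Nat.mul_le_mul_left _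
      (Nat.pow_le_pow_left (Nat.mul_le_mul_left _ (Nat.sub_le _ _)) _)) hL
  have hL2 : 4 * (ℓ * (p - 1)) ^ d ≤ L := le_trans (Nat.mul_le_mul_right _ (by omega)) hL1
  have hsum : ∀ n ≤ t, (((List.range n).flatMap fun k => ext O x (Ln k)).map M.rk).sum * 2 ^ ℓ ≤
      (∑ k ∈ Finset.range n, (Ln k).size) ^ 2 * finrank F V := by
    intro n
    induction n with
    | zero => simp
    | succ n ih =>
      intro hn
      have h1 := ih (by omega)
      have h2 := ext_rank O x M hO hκ hx d hL2 (Ln n) (hd n (by omega))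
      rw [List.range_succ, List.flatMap_append, List.map_append, List.sum_append,
        Finset.sum_range_succ, List.flatMap_singleton, add_mul]
      refine (add_le_add h1 h2).trans ?_
      rw [← add_mul]
      exact Nat.mul_le_mul_right _ (pow_add_pow_le (Nat.zero_le _) (Nat.zero_le _) two_ne_zero)
  by_contra hlt
  have h1 := (hsum t le_rfl).trans_lt (not_le.1 hlt)
  rw [mul_comm (2 ^ ℓ)] at h1
  obtain ⟨v, hv0, hv⟩ := M.exists_kernel _ (Nat.lt_of_mul_lt_mul_right h1)
  obtain ⟨k, hk, e⟩ := href.2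
  have h2 := line_kill O x M hO hκ hx d c hL1 v Fc (fun C hC => ⟨(hF C hC).1, (hF C hC).2 v⟩) R hR
    hc t Ln href hd (fun k hk E hE => hv E (List.mem_flatMap.2 ⟨k, List.mem_range.2 hk, hE⟩)) k hk
  have e1 : (ind F fun z => !(ap O x (Ln k) z)) = (1 : D → F) := by
    rw [e]
    rfl
  rw [e1] at h2
  exact hv0 (M.inj v h2)

end Pool.Agent.Lib.MP_8a52c3_lc.Ac0
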