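import Pool.Agent.Lib.MP_8a52c3_lc.Ac0.Hom
import Pool.Agent.Lib.MP_8a52c3_lc.Ac0.Chr

namespace Pool.Agent.Lib.MP_8a52c3_lc.Ac0

open Matrix Filter
open scoped BigOperators

section aux

variable {q s n : ℕ}

theorem Unsat_tele {G : Type} [AddCommGroup G] {N : ℕ} (f : Fin (N + 1) → G) :
    ∑ b : Fin N, (f b.succ - f b.castSucc) = f (Fin.last N) - f 0 := by
  have h1 := Fin.sum_univ_succ f
  have h2 := Fin.sum_univ_castSucc f
  rw [Finset.sum_sub_distrib, sub_eq_sub_iff_add_eq_add, add_comm _ (f 0), ← h1, h2, add_comm]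

/-- Row variables. -/
def Unsat_R (l : Fin s) (a : Fin n) (j : Fin (n + 1)) : Zv q s n → ZMod q :=
  Pi.single (.inl (l, a, j)) 1

/-- Column variables. -/
def Unsat_C (l : Fin s) (b : Fin n) (j : Fin (n + 1)) : Zv q s n → ZMod q :=
  Pi.single (.inr (.inl (l, b, j))) 1

/-- Hyperedge variables. -/
def Unsat_H (i : Fin q) (a : Fin n) (j : Fin (n ^ q + 1)) : Zv q s n → ZMod q :=
  Pi.single (.inr (.inr (i, a, j))) 1

theorem Unsat_phi_R (l : Fin s) (a : Fin n) (j : Fin (n + 1)) :
    phi (Unsat_R (q := q) l a j) =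
      (fun l' a' b => if l' = l ∧ a' = a ∧ b.val < j.val then 1 else 0, 0) := by
  refine Prod.ext ?_ ?_
  · funext l' a' b
    simp only [phi, Unsat_R, Pi.single_apply, Sum.inl.injEq, Prod.mk.injEq, reduceCtorEq,
      if_false, ite_self, Finset.sum_const_zero, add_zero]
    rw [Finset.sum_eq_single j]
    · by_cases h : b.val < j.val <;> simp [h]
    · intro j' _ h
      simp [h]
    · simp
  · funext A
    simp [phi, Unsat_R]

theorem Unsat_phi_C (l : Fin s) (b : Fin n) (j : Fin (n + 1)) :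
    phi (Unsat_C (q := q) l b j) =
      (fun l' a b' => if l' = l ∧ b' = b ∧ a.val < j.val then 1 else 0, 0) := by
  refine Prod.ext ?_ ?_
  · funext l' a b'
    simp only [phi, Unsat_C, Pi.single_apply, Sum.inr.injEq, Sum.inl.injEq, Prod.mk.injEq,
      reduceCtorEq, if_false, ite_self, Finset.sum_const_zero, zero_add]
    rw [Finset.sum_eq_single j]
    · by_cases h : a.val < j.val <;> simp [h]
    · intro j' _ h
      simp [h]
    · simp
  · funext A
    simp [phi, Unsat_C]

theorem Unsat_phi_H (i : Fin q) (a : Fin n) (j : Fin (n ^ q + 1)) :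
    phi (Unsat_H (s := s) i a j) =
      (0, fun A => if A i = a ∧ (finFunctionFinEquiv A).val < j.val then 1 else 0) := by
  refine Prod.ext ?_ ?_
  · funext l' a' b'
    simp [phi, Unsat_H]
  · funext A
    simp only [phi, Unsat_H, Pi.single_apply, Sum.inr.injEq, Prod.mk.injEq]
    rw [Finset.sum_eq_single i]
    · rw [Finset.sum_eq_single j]
      · by_cases h : (finFunctionFinEquiv A).val < j.val <;> simp only [h, if_true, if_false,
          true_and, and_true, and_false]
      · intro j' _ h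
        simp only [h, and_false, if_false, ite_self]
      · simp
    · intro i' _ h
      simp only [h, false_and, if_false, ite_self, Finset.sum_const_zero]
    · simp

theorem Unsat_phi_sub (m m' : Zv q s n → ZMod q) : phi (m - m') = phi m - phi m' :=
  (phih q s n).map_sub m m'

theorem Unsat_step {N : ℕ} (b c : Fin N) (P : Prop) [Decidable P] :
    ((if P ∧ c.val < b.succ.val then 1 else 0) -
      (if P ∧ c.val < b.castSucc.val then 1 else 0) : ZMod q) = if P ∧ c = b then 1 else 0 := by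
  by_cases hP : P
  · simp only [hP, true_and, Fin.val_succ, Fin.val_castSucc, Fin.ext_iff]
    rcases lt_trichotomy c.val b.val with h | h | h
    · rw [if_pos (by omega), if_pos h, if_neg (by omega), sub_self]
    · rw [if_pos (by omega), if_neg (by omega), if_pos h, sub_zero]
    · rw [if_neg (by omega), if_neg (by omega), if_neg (by omega), sub_self]
  · simp [hP]

theorem Unsat_phi_dR (l : Fin s) (a b : Fin n) :
    phi (Unsat_R (q := q) l a b.succ - Unsat_R l a b.castSucc) =
      (fun l' a' b' => if l' = l ∧ a' = a ∧ b' = b then 1 else 0, 0) := by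
  rw [Unsat_phi_sub, Unsat_phi_R, Unsat_phi_R]
  refine Prod.ext ?_ (by simp)
  funext l' a' b'
  have := Unsat_step (q := q) b b' (l' = l ∧ a' = a)
  simpa only [and_assoc, Prod.fst_sub, Pi.sub_apply] using this

theorem Unsat_phi_dC (l : Fin s) (a b : Fin n) :
    phi (Unsat_C (q := q) l b a.succ - Unsat_C l b a.castSucc) =
      (fun l' a' b' => if l' = l ∧ a' = a ∧ b' = b then 1 else 0, 0) := by
  rw [Unsat_phi_sub, Unsat_phi_C, Unsat_phi_C]
  refine Prod.ext ?_ (by simp)
  funext l' a' b'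
  have := Unsat_step (q := q) a a' (l' = l ∧ b' = b)
  simp only [and_assoc] at this
  simp only [Prod.fst_sub, Pi.sub_apply, this]
  congr 1
  exact propext (by tauto)

theorem Unsat_phi_dH (i : Fin q) (a : Fin n) (A : Fin q → Fin n) :
    phi (Unsat_H (s := s) i a (finFunctionFinEquiv A).succ -
      Unsat_H i a (finFunctionFinEquiv A).castSucc) =
      (0, fun A' => if A i = a ∧ A' = A then 1 else 0) := by
  rw [Unsat_phi_sub, Unsat_phi_H, Unsat_phi_H]
  refine Prod.ext (by simp) ?_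
  funext A'
  have := Unsat_step (q := q) (finFunctionFinEquiv A) (finFunctionFinEquiv A') (A' i = a)
  simp only [Prod.snd_sub, Pi.sub_apply, this, EmbeddingLike.apply_eq_iff_eq]
  congr 1
  refine propext ⟨?_, ?_⟩ <;> rintro ⟨h, rfl⟩ <;> exact ⟨h, rfl⟩

/-- The row part of a vertex equation. -/
def Unsat_up (l : Fin (s + 1)) (a : Fin n) : Zv q s n → ZMod q :=
  Fin.cases (motive := fun _ => Zv q s n → ZMod q) 0 (fun l' => Unsat_R l' a (Fin.last n)) l

/-- The column or hyperedge part of a vertex equation. -/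
def Unsat_dn (l : Fin (s + 1)) (a : Fin n) : Zv q s n → ZMod q :=
  Fin.lastCases (motive := fun _ => Zv q s n → ZMod q)
    (∑ i : Fin q, Unsat_H i a (Fin.last (n ^ q))) (fun l' => Unsat_C l' a (Fin.last n)) l

theorem Unsat_phi_up (l : Fin (s + 1)) (a : Fin n) :
    phi (Unsat_up (q := q) l a) =
      (fun l' a' _ => if l'.succ = l ∧ a' = a then 1 else 0, 0) := by
  induction l using Fin.cases with
  | zero =>
    simp only [Unsat_up, Fin.cases_zero, phi_zero]
    refine Prod.ext ?_ rfl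
    funext l' a' b'
    simp [Fin.succ_ne_zero]
  | succ l =>
    simp only [Unsat_up, Fin.cases_succ, Unsat_phi_R]
    refine Prod.ext ?_ rfl
    funext l' a' b'
    simp

theorem Unsat_phi_dn (l : Fin (s + 1)) (a : Fin n) :
    phi (Unsat_dn (q := q) l a) =
      (fun l' _ b' => if l'.castSucc = l ∧ b' = a then 1 else 0,
        fun A => ∑ i : Fin q, if Fin.last s = l ∧ A i = a then 1 else 0) := by
  induction l using Fin.lastCases with
  | last =>
    simp only [Unsat_dn, Fin.lastCases_last]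
    rw [← phih_apply, map_sum]
    simp only [phih_apply, Unsat_phi_H]
    refine Prod.ext ?_ ?_
    · funext l' a' b'
      simp [Prod.fst_sum, Fin.castSucc_ne_last]
    · funext A
      simp only [Prod.snd_sum, Finset.sum_apply, Fin.val_last, Fin.is_lt, and_true, true_and]
  | cast l =>
    simp only [Unsat_dn, Fin.lastCases_castSucc, Unsat_phi_C]
    refine Prod.ext ?_ ?_
    · funext l' a' b'
      simp
    · funext A
      simp [(Fin.castSucc_ne_last l).symm]

theorem Unsat_phi_vx (l : Fin (s + 1)) (a : Fin n) :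
    phi (Unsat_up (q := q) l a - Unsat_dn l a) = dl (Pi.single (l, a) 1) := by
  rw [Unsat_phi_sub, Unsat_phi_up, Unsat_phi_dn]
  refine Prod.ext ?_ ?_
  · funext l' a' b'
    simp only [dl, Prod.fst_sub, Pi.sub_apply, Pi.single_apply, Prod.mk.injEq]
  · funext A
    simp only [dl, Prod.snd_sub, Pi.sub_apply, Pi.single_apply, Prod.mk.injEq, Pi.zero_apply,
      zero_sub]

variable [NeZero q]

theorem Unsat_norm_sub (m m' : Zv q s n → ZMod q) :
    hammingNorm (m - m') ≤ hammingNorm m + hammingNorm m' := by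
  rw [sub_eq_add_neg, ← hammingNorm_neg' m']
  exact hammingNorm_add_le' _ _

theorem Unsat_norm_sum {ι : Type} (S : Finset ι) (f : ι → Zv q s n → ZMod q)
    (h : ∀ i, hammingNorm (f i) ≤ 1) : hammingNorm (∑ i ∈ S, f i) ≤ S.card := by
  classical
  induction S using Finset.induction_on with
  | empty => simp
  | insert i S hi ih =>
    rw [Finset.sum_insert hi, Finset.card_insert_of_notMem hi]
    have := hammingNorm_add_le' (f i) (∑ i ∈ S, f i)
    have := h i
    omega

theorem Unsat_nR (l : Fin s) (a : Fin n) (j : Fin (n + 1)) :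
    hammingNorm (Unsat_R (q := q) l a j) ≤ 1 := hammingNorm_single_le _ _

theorem Unsat_nC (l : Fin s) (a : Fin n) (j : Fin (n + 1)) :
    hammingNorm (Unsat_C (q := q) l a j) ≤ 1 := hammingNorm_single_le _ _

theorem Unsat_nH (i : Fin q) (a : Fin n) (j : Fin (n ^ q + 1)) :
    hammingNorm (Unsat_H (s := s) i a j) ≤ 1 := hammingNorm_single_le _ _

theorem Unsat_nup (l : Fin (s + 1)) (a : Fin n) : hammingNorm (Unsat_up (q := q) l a) ≤ 1 := by
  induction l using Fin.cases with
  | zero => simp [Unsat_up]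
  | succ l => simpa only [Unsat_up, Fin.cases_succ] using Unsat_nR l a _

theorem Unsat_ndn (hq3 : q ≤ 3) (l : Fin (s + 1)) (a : Fin n) :
    hammingNorm (Unsat_dn (q := q) l a) ≤ 3 := by
  induction l using Fin.lastCases with
  | last =>
    simp only [Unsat_dn, Fin.lastCases_last]
    refine (Unsat_norm_sum _ _ fun i => Unsat_nH i a _).trans ?_
    simpa using hq3
  | cast l =>
    simp only [Unsat_dn, Fin.lastCases_castSucc]
    exact (Unsat_nC l a _).trans (by norm_num)

end aux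

/-- The equations have no common solution. -/
theorem eqs_unsat {q s n : ℕ} [NeZero q] (hq2 : 2 ≤ q) (hq3 : q ≤ 3) (hs : 1 ≤ s) (b₀ : Fin n)
    (x : Zv q s n → ZMod q) : ∃ e ∈ Eqs (q := q) (s := s) b₀, e.1 ⬝ᵥ x ≠ e.2 := by
  have _ := hs
  by_contra hcon
  push Not at hcon
  have H0 : ∀ m : Zv q s n → ZMod q, hammingNorm m ≤ 4 → phi m = 0 → m ⬝ᵥ x = 0 :=
    fun m h1 h2 => hcon (m, 0) ⟨h1, Or.inl ⟨h2, rfl⟩⟩
  have H1 : ∀ (l : Fin (s + 1)) (a : Fin n),
      Unsat_up l a ⬝ᵥ x - Unsat_dn l a ⬝ᵥ x = chg b₀ (l, a) := by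
    intro l a
    rw [← sub_dotProduct]
    refine hcon (_, _) ⟨?_, Or.inr ⟨(l, a), Unsat_phi_vx l a, rfl⟩⟩
    have := Unsat_norm_sub (Unsat_up (q := q) l a) (Unsat_dn l a)
    have := Unsat_nup (q := q) l a
    have := Unsat_ndn hq3 l a
    show hammingNorm (Unsat_up (q := q) l a - Unsat_dn l a) ≤ 4
    omega
  have H2 : ∀ m m' : Zv q s n → ZMod q, hammingNorm m ≤ 2 → hammingNorm m' ≤ 2 →
      phi m = phi m' → m ⬝ᵥ x = m' ⬝ᵥ x := by
    intro m m' h1 h2 h3
    rw [← sub_eq_zero, ← sub_dotProduct]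
    refine H0 _ ?_ (by rw [Unsat_phi_sub, h3, sub_self])
    have := Unsat_norm_sub m m'
    omega
  have n2 : ∀ m m' : Zv q s n → ZMod q, hammingNorm m ≤ 1 → hammingNorm m' ≤ 1 →
      hammingNorm (m - m') ≤ 2 := by
    intro m m' h1 h2
    have := Unsat_norm_sub m m'
    omega
  -- rows and columns
  set ξ : Fin s → Fin n → Fin n → ZMod q := fun l a b =>
    (Unsat_R l a b.succ - Unsat_R l a b.castSucc) ⬝ᵥ x with hξ
  have hR : ∀ l a, Unsat_R l a (Fin.last n) ⬝ᵥ x = ∑ b, ξ l a b := by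
    intro l a
    have h0 : Unsat_R l a 0 ⬝ᵥ x = 0 :=
      H0 _ ((Unsat_nR _ _ _).trans (by norm_num)) (by rw [Unsat_phi_R]; ext <;> simp)
    simp only [hξ, sub_dotProduct]
    rw [Unsat_tele (fun j => Unsat_R l a j ⬝ᵥ x), h0, sub_zero]
  have hC : ∀ l b, Unsat_C l b (Fin.last n) ⬝ᵥ x = ∑ a, ξ l a b := by
    intro l b
    have h0 : Unsat_C l b 0 ⬝ᵥ x = 0 :=
      H0 _ ((Unsat_nC _ _ _).trans (by norm_num)) (by rw [Unsat_phi_C]; ext <;> simp)
    have h1 : ∀ a, ξ l a b = Unsat_C l b a.succ ⬝ᵥ x - Unsat_C l b a.castSucc ⬝ᵥ x := by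
      intro a
      rw [← sub_dotProduct]
      exact H2 _ _ (n2 _ _ (Unsat_nR _ _ _) (Unsat_nR _ _ _))
        (n2 _ _ (Unsat_nC _ _ _) (Unsat_nC _ _ _)) (by rw [Unsat_phi_dR, Unsat_phi_dC])
    simp only [h1]
    rw [Unsat_tele (fun j => Unsat_C l b j ⬝ᵥ x), h0, sub_zero]
  -- hyperedges
  set i₀ : Fin q := ⟨0, by omega⟩ with hi₀
  set ξ' : (Fin q → Fin n) → ZMod q := fun A =>
    (Unsat_H (s := s) i₀ (A i₀) (finFunctionFinEquiv A).succ -
      Unsat_H i₀ (A i₀) (finFunctionFinEquiv A).castSucc) ⬝ᵥ x with hξ'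
  have hH : ∀ i a, Unsat_H i a (Fin.last (n ^ q)) ⬝ᵥ x = ∑ A, if A i = a then ξ' A else 0 := by
    intro i a
    have h0 : Unsat_H i a 0 ⬝ᵥ x = 0 :=
      H0 _ ((Unsat_nH _ _ _).trans (by norm_num)) (by rw [Unsat_phi_H]; ext <;> simp)
    have h1 : ∀ A : Fin q → Fin n, (if A i = a then ξ' A else 0) =
        Unsat_H i a (finFunctionFinEquiv A).succ ⬝ᵥ x -
          Unsat_H i a (finFunctionFinEquiv A).castSucc ⬝ᵥ x := by
      intro A
      rw [← sub_dotProduct]
      split_ifs with h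
      · refine H2 _ _ (n2 _ _ (Unsat_nH _ _ _) (Unsat_nH _ _ _))
          (n2 _ _ (Unsat_nH _ _ _) (Unsat_nH _ _ _)) ?_
        rw [Unsat_phi_dH, Unsat_phi_dH]
        simp only [h, true_and]
      · refine (H0 _ ((n2 _ _ (Unsat_nH _ _ _) (Unsat_nH _ _ _)).trans (by norm_num)) ?_).symm
        rw [Unsat_phi_dH]
        simp only [h, false_and, if_false]
        rfl
    simp only [h1]
    rw [finFunctionFinEquiv.sum_comp (fun j : Fin (n ^ q) => Unsat_H i a j.succ ⬝ᵥ x -
      Unsat_H i a j.castSucc ⬝ᵥ x), Unsat_tele (fun j => Unsat_H i a j ⬝ᵥ x), h0, sub_zero]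
  -- the sum of all vertex equations
  have hup : ∑ l : Fin (s + 1), ∑ a : Fin n, Unsat_up l a ⬝ᵥ x = ∑ l, ∑ a, ∑ b, ξ l a b := by
    rw [Fin.sum_univ_succ]
    simp only [Unsat_up, Fin.cases_zero, Fin.cases_succ, zero_dotProduct, Finset.sum_const_zero,
      zero_add, hR]
  have hdn : ∑ l : Fin (s + 1), ∑ a : Fin n, Unsat_dn l a ⬝ᵥ x = ∑ l, ∑ a, ∑ b, ξ l a b := by
    rw [Fin.sum_univ_castSucc]
    simp only [Unsat_dn, Fin.lastCases_last, Fin.lastCases_castSucc, hC, sum_dotProduct, hH]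
    have h1 : ∑ a : Fin n, ∑ i : Fin q, ∑ A : Fin q → Fin n, (if A i = a then ξ' A else 0) = 0 := by
      rw [Finset.sum_comm]
      have : ∀ i : Fin q, ∑ a : Fin n, ∑ A : Fin q → Fin n, (if A i = a then ξ' A else 0) =
          ∑ A, ξ' A := by
        intro i
        rw [Finset.sum_comm]
        simp
      simp only [this]
      simp
    rw [h1, add_zero]
    exact Finset.sum_congr rfl fun l _ => Finset.sum_comm
  have hsum : ∑ l : Fin (s + 1), ∑ a : Fin n, chg (q := q) b₀ (l, a) = 0 := by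
    simp only [← H1, Finset.sum_sub_distrib, hup, hdn, sub_self]
  have hone : ∑ l : Fin (s + 1), ∑ a : Fin n, chg (q := q) b₀ (l, a) = 1 := by
    rw [← Fintype.sum_prod_type (f := fun v : Vx s n => chg (q := q) b₀ v)]
    simp [chg]
  have : Fact (1 < q) := ⟨by omega⟩
  exact one_ne_zero (hone.symm.trans hsum)

end Pool.Agent.Lib.MP_8a52c3_lc.Ac0
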