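import Pool.Agent.Lib.MP_8a52c3_lc.Ac0.BallP
import Pool.Agent.Lib.MP_8a52c3_lc.Ac0.Sec
import Pool.Agent.Lib.MP_8a52c3_lc.Ac0.CocPM
import Pool.Agent.Lib.MP_8a52c3_lc.Ac0.Cnf
import Pool.Agent.Lib.MP_8a52c3_lc.Ac0.Unsat
import Pool.Agent.Lib.MP_8a52c3_lc.Ac0.Sim

namespace Pool.Agent.Lib.MP_8a52c3_lc.Ac0

open Matrix Filter
open scoped BigOperators

/-- The lower bound with explicit parameters. -/
def KeyStmt (p : ℕ) : Prop :=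
  ∃ c : ℝ, 0 < c ∧ ∀ᶠ L : ℕ in atTop, ∃ Fc : Set (List (ℕ × Bool)),
    (∀ C ∈ Fc, C.length ≤ 4 ∧ ∀ l ∈ C, l.1 < L ^ 200) ∧
    (∀ a : ℕ → Bool, ∃ C ∈ Fc, ∀ l ∈ C, a l.1 ≠ l.2) ∧
    ∀ (R : List (List (Fm p) × Fm p)), (∀ r ∈ R, Sound r) → ∀ c' d ℓ : ℕ,
      (∀ r ∈ R, (r.1.map Fm.size).sum + r.1.length + r.2.size ≤ c') → 1 ≤ ℓ →
      4 * (c' + 40) * (ℓ * p) ^ d ≤ L → ∀ (t : ℕ) (Ln : ℕ → Fm p), Refutes R Fc t Ln →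
      (∀ k < t, (Ln k).depth ≤ d) →
      c * 2 ^ ℓ ≤ ((∑ k ∈ Finset.range t, (Ln k).size : ℕ) : ℝ) ^ 2

theorem key (p : ℕ) [Fact p.Prime] : KeyStmt p := by
  classical
  obtain ⟨q, hq0, hq2, hq3, F, hF, hchar, ζ, hζ, hqF⟩ := exists_field p
  obtain ⟨η, δ, hη, hδ, hcoc⟩ := exists_coc q
  obtain ⟨h, hh, c, hc, hball⟩ := ball_prob q hq2 hη hδ
  refine ⟨c, hc, ?_⟩
  have ht : Tendsto (fun L : ℕ => L ^ 40) atTop atTop := tendsto_pow_atTop (by norm_num)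
  filter_upwards [ht.eventually hball, ht.eventually (num_vars q h hq3), eventually_ge_atTop 8]
    with L h1 h2 h3
  have hn : 1 ≤ L ^ 40 := Nat.one_le_pow _ _ (by omega)
  have hs : 1 ≤ h * L ^ 40 := Nat.mul_pos hh hn
  obtain ⟨C, hC⟩ := hcoc (h * L ^ 40) (L ^ 40) L hs ⟨0, hn⟩ (by omega)
  obtain ⟨M, hM⟩ := coc_PM ζ hζ hqF _ C (Eqs (q := q) (s := h * L ^ 40) ⟨0, hn⟩) hC
  obtain ⟨x, Fc, hx, hFc, huns⟩ := eq_cnf ζ hζ (by omega) h3 M _ hM (fun e he => he.1)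
    (eqs_unsat hq2 hq3 hs ⟨0, hn⟩)
  refine ⟨Fc, fun D hD => ⟨(hFc D hD).1, fun l hl => ?_⟩, huns, ?_⟩
  · have h4 := (hFc D hD).2.1 l hl
    have h5 : (L ^ 40) ^ 5 = L ^ 200 := by ring
    omega
  intro R hR c' d ℓ hc' hℓ hL t Ln href hd
  have h6 := frege_lb x M hx d c' ℓ hℓ hL Fc (fun D hD => ⟨(hFc D hD).1, (hFc D hD).2.2⟩) R hR
    hc' t Ln href hd
  have : Fintype (Cls q (h * L ^ 40) (L ^ 40)) := Fintype.ofFinite _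
  rw [Module.finrank_fintype_fun_eq_card, Module.finrank_fintype_fun_eq_card,
    ← Nat.card_eq_fintype_card, ← Nat.card_eq_fintype_card] at h6
  have h7 := pb_quot (dlh q (h * L ^ 40) (L ^ 40)).range
    (Ball η δ L : Gam q (h * L ^ 40) (L ^ 40) → Prop)
  have h8 := h1 L le_rfl
  have h9 : (0 : ℝ) < Nat.card (Cls q (h * L ^ 40) (L ^ 40)) := by
    exact_mod_cast Nat.card_pos
  have h10 := (Nat.cast_le (α := ℝ)).2 h6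
  push_cast at h10 ⊢
  have h11 : (0 : ℝ) < 2 ^ ℓ := by positivity
  refine le_of_mul_le_mul_right ?_ h9
  refine le_trans ?_ h10
  have h12 := le_trans (mul_le_mul_of_nonneg_right h8 h9.le) h7
  calc c * 2 ^ ℓ * (Nat.card (Cls q (h * L ^ 40) (L ^ 40)) : ℝ)
      = 2 ^ ℓ * (c * (Nat.card (Cls q (h * L ^ 40) (L ^ 40)) : ℝ)) := by ring
    _ ≤ _ := mul_le_mul_of_nonneg_left h12 h11.le

end Pool.Agent.Lib.MP_8a52c3_lc.Ac0
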