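import Pool.Agent.Lib.MP_8a52c3_lc.Ac0.Apx

namespace Pool.Agent.Lib.MP_8a52c3_lc.Ac0

open Module

variable {F D V V₀ : Type} [Field F] [AddCommGroup V] [Module F V] [AddCommGroup V₀]
  [Module F V₀] {L : ℕ} {p : ℕ}

/-- The function `a` behaves like the disjunction of the list `G` on the vector `v`. -/
structure Loc_Pres (M : PM F D V V₀ L) (v : V₀) (k : ℕ) (G : List (D → Bool)) (a : D → Bool) :
    Prop where
  mem : ind F a ∈ M.P k
  memG : ∀ g ∈ G, ind F g ∈ M.P k
  k1 : ∀ b w, w ∈ M.P b → k + b ≤ L → (∀ g ∈ G, M.Φ (ind F g * w) v = 0) →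
    M.Φ (ind F a * w) v = 0
  k2 : ∀ g ∈ G, M.Φ (ind F g * (1 - ind F a)) v = 0

theorem Loc_single (M : PM F D V V₀ L) (v : V₀) {k : ℕ} {a : D → Bool} (ha : ind F a ∈ M.P k) :
    Loc_Pres M v k [a] a where
  mem := ha
  memG := fun g hg => by rw [List.mem_singleton.1 hg]; exact ha
  k1 := fun _ _ _ _ h => h a (List.mem_singleton_self a)
  k2 := fun g hg => by
    rw [List.mem_singleton.1 hg, mul_sub, mul_one, ind_mul_self, sub_self, map_zero]
    rfl

theorem Loc_O (M : PM F D V V₀ L) {κ ℓ : ℕ} {O : List (D → Bool) → D → Bool}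
    (hO : OSpec M κ ℓ O) (v : V₀) {k k' : ℕ} (h1 : k' ≤ k) (h2 : κ * k' ≤ k)
    {G : List (D → Bool)} (hG : ∀ g ∈ G, ind F g ∈ M.P k')
    (hv : ∀ E ∈ errs G (O G), M.Φ (ind F E) v = 0) : Loc_Pres M v k G (O G) where
  mem := M.mono _ _ h2 (hO.mem G k' hG)
  memG := fun g hg => M.mono _ _ h1 (hG g hg)
  k1 := fun b w hw hb h => hO.ideal G k' b w v hG hw (by omega) h
  k2 := fun g hg => by
    rw [← ind_not, ← ind_and]
    exact hv _ (List.mem_map_of_mem hg)

theorem Loc_viol (M : PM F D V V₀ L) (v : V₀) {k : ℕ} (hL : 4 * k ≤ L) {G H : List (D → Bool)}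
    {a b c : D → Bool} (ha : Loc_Pres M v k G a) (hb : Loc_Pres M v k H b)
    (hc : Loc_Pres M v k (G ++ H) c) : M.Kill v (3 * k) fun z => c z != (a z || b z) := by
  have e : ind F (fun z => c z != (a z || b z)) = ind F a * (1 - ind F c) +
      (1 - ind F a) * (ind F b * (1 - ind F c)) + ind F c * ((1 - ind F a) * (1 - ind F b)) := by
    funext z
    simp only [ind, Pi.add_apply, Pi.mul_apply, Pi.sub_apply, Pi.one_apply]
    by_cases h1 : a z = true <;> by_cases h2 : b z = true <;> by_cases h3 : c z = true <;>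
      simp [h1, h2, h3]
  have na : 1 - ind F a ∈ M.P k := sub_mem (M.one_mem' k) ha.mem
  have nb : 1 - ind F b ∈ M.P k := sub_mem (M.one_mem' k) hb.mem
  have nc : 1 - ind F c ∈ M.P k := sub_mem (M.one_mem' k) hc.mem
  constructor
  · rw [e]
    refine add_mem (add_mem ?_ ?_) ?_
    · exact M.mono _ _ (by omega) (M.mul_mem _ _ _ _ ha.mem nc)
    · exact M.mono _ _ (by omega) (M.mul_mem _ _ _ _ na (M.mul_mem _ _ _ _ hb.mem nc))
    · exact M.mono _ _ (by omega) (M.mul_mem _ _ _ _ hc.mem (M.mul_mem _ _ _ _ na nb))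
  · have h1 : M.Φ (ind F a * (1 - ind F c)) v = 0 :=
      ha.k1 k _ nc (by omega) fun g hg => hc.k2 g (List.mem_append_left _ hg)
    have h2 : M.Φ (ind F b * (1 - ind F c)) v = 0 :=
      hb.k1 k _ nc (by omega) fun g hg => hc.k2 g (List.mem_append_right _ hg)
    have h3 := M.ann_mul na (M.mul_mem _ _ _ _ hb.mem nc) (by omega) h2
    have h4 : M.Φ (ind F c * ((1 - ind F a) * (1 - ind F b))) v = 0 := by
      refine hc.k1 _ _ (M.mul_mem _ _ _ _ na nb) (by omega) fun g hg => ?_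
      rcases List.mem_append.1 hg with hg | hg
      · rw [← mul_assoc, mul_comm]
        exact M.ann_mul nb (M.mul_mem _ _ _ _ (ha.memG g hg) na) (by omega) (ha.k2 g hg)
      · rw [mul_left_comm]
        exact M.ann_mul na (M.mul_mem _ _ _ _ (hb.memG g hg) nb) (by omega) (hb.k2 g hg)
    rw [e, map_add, map_add, LinearMap.add_apply, LinearMap.add_apply, h1, h3, h4, add_zero,
      add_zero]

theorem Loc_kappa [Fact p.Prime] {κ : ℕ} (hκ : p - 1 ≤ κ) : 1 ≤ κ := by
  have := (Fact.out : p.Prime).two_le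
  omega

variable (O : List (D → Bool) → D → Bool) (x : ℕ → D → Bool)

theorem Loc_or (M : PM F D V V₀ L) [Fact p.Prime] [CharP F p] {κ ℓ : ℕ} (hO : OSpec M κ ℓ O)
    (hκ : p - 1 ≤ κ) (hx : ∀ i, ind F (x i) ∈ M.P 1) (d : ℕ) (v : V₀) (A : Fm p)
    (hd : A.depth ≤ d) (hv : ∀ E ∈ ext O x A, M.Φ (ind F E) v = 0) :
    Loc_Pres M v (κ ^ d) (orK O x A) (ap O x A) := by
  have h1 := Loc_kappa hκ
  have hm := ap_mem O x M hO hκ hx A
  have h0 : ind F (ap O x A) ∈ M.P (κ ^ d) := M.mono _ _ (Nat.pow_le_pow_right h1 hd) hm.1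
  cases A with
  | or A B =>
    have h2 : Fm.depthIn (some true) (Fm.or A B) + 1 ≤ d := by
      simpa [Fm.depth, Fm.depthIn] using hd
    exact Loc_O M hO v (Nat.pow_le_pow_right h1 (by omega))
      (by rw [← pow_succ']; exact Nat.pow_le_pow_right h1 h2) hm.2.1
      fun E hE => hv E (List.mem_append_left _ hE)
  | _ => exact Loc_single M v h0

theorem Loc_and (M : PM F D V V₀ L) [Fact p.Prime] [CharP F p] {κ ℓ : ℕ} (hO : OSpec M κ ℓ O)
    (hκ : p - 1 ≤ κ) (hx : ∀ i, ind F (x i) ∈ M.P 1) (d : ℕ) (v : V₀) (A : Fm p)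
    (hd : A.depth ≤ d) (hv : ∀ E ∈ ext O x A, M.Φ (ind F E) v = 0) :
    Loc_Pres M v (κ ^ d) (ndK O x A) fun z => !(ap O x A z) := by
  have h1 := Loc_kappa hκ
  have hm := ap_mem O x M hO hκ hx A
  have h0 : ind F (fun z => !(ap O x A z)) ∈ M.P (κ ^ d) :=
    M.ind_not_mem (M.mono _ _ (Nat.pow_le_pow_right h1 hd) hm.1)
  cases A with
  | and A B =>
    have h2 : Fm.depthIn (some false) (Fm.and A B) + 1 ≤ d := by
      simpa [Fm.depth, Fm.depthIn] using hd
    have h3 : (fun z => !(ap O x (Fm.and A B) z)) = O (ndK O x (Fm.and A B)) :=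
      funext fun z => Bool.not_not _
    rw [h3]
    exact Loc_O M hO v (Nat.pow_le_pow_right h1 (by omega))
      (by rw [← pow_succ']; exact Nat.pow_le_pow_right h1 h2) hm.2.2
      fun E hE => hv E (List.mem_append_left _ hE)
  | _ => exact Loc_single M v h0

/-- The local violation at a disjunction annihilates `v`. -/
theorem viol_or (M : PM F D V V₀ L) [Fact p.Prime] [CharP F p] {κ ℓ : ℕ} (hO : OSpec M κ ℓ O)
    (hκ : p - 1 ≤ κ) (hx : ∀ i, ind F (x i) ∈ M.P 1) (d : ℕ) (hL : 4 * κ ^ d ≤ L) (v : V₀)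
    (A B : Fm p) (hd : (Fm.or A B).depth ≤ d)
    (hv : ∀ E ∈ ext O x (Fm.or A B), M.Φ (ind F E) v = 0) :
    M.Kill v (3 * κ ^ d) fun z => ap O x (Fm.or A B) z != (ap O x A z || ap O x B z) :=
  Loc_viol M v hL
    (Loc_or O x M hO hκ hx d v A ((Fm.depth_or A B).1.trans hd) fun E hE =>
      hv E (List.mem_append_right _ (List.mem_append_left _ hE)))
    (Loc_or O x M hO hκ hx d v B ((Fm.depth_or A B).2.trans hd) fun E hE =>
      hv E (List.mem_append_right _ (List.mem_append_right _ hE)))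
    (Loc_or O x M hO hκ hx d v (Fm.or A B) hd hv)

/-- The local violation at a conjunction annihilates `v`. -/
theorem viol_and (M : PM F D V V₀ L) [Fact p.Prime] [CharP F p] {κ ℓ : ℕ} (hO : OSpec M κ ℓ O)
    (hκ : p - 1 ≤ κ) (hx : ∀ i, ind F (x i) ∈ M.P 1) (d : ℕ) (hL : 4 * κ ^ d ≤ L) (v : V₀)
    (A B : Fm p) (hd : (Fm.and A B).depth ≤ d)
    (hv : ∀ E ∈ ext O x (Fm.and A B), M.Φ (ind F E) v = 0) :
    M.Kill v (3 * κ ^ d) fun z => ap O x (Fm.and A B) z != (ap O x A z && ap O x B z) := by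
  have h := Loc_viol M v hL
    (Loc_and O x M hO hκ hx d v A ((Fm.depth_and A B).1.trans hd) fun E hE =>
      hv E (List.mem_append_right _ (List.mem_append_left _ hE)))
    (Loc_and O x M hO hκ hx d v B ((Fm.depth_and A B).2.trans hd) fun E hE =>
      hv E (List.mem_append_right _ (List.mem_append_right _ hE)))
    (Loc_and O x M hO hκ hx d v (Fm.and A B) hd hv)
  have e : (fun z => ap O x (Fm.and A B) z != (ap O x A z && ap O x B z)) =
      fun z => (!(ap O x (Fm.and A B) z)) != ((!(ap O x A z)) || !(ap O x B z)) := by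
    funext z
    cases ap O x (Fm.and A B) z <;> cases ap O x A z <;> cases ap O x B z <;> rfl
  rw [e]
  exact h

/-- For a substitution instance of a scheme `B` there are at most `size B` annihilating functions
outside whose supports the approximator is the value of the scheme. -/
theorem scheme_viol (M : PM F D V V₀ L) [Fact p.Prime] [CharP F p] {κ ℓ : ℕ}
    (hO : OSpec M κ ℓ O) (hκ : p - 1 ≤ κ) (hx : ∀ i, ind F (x i) ∈ M.P 1) (d : ℕ)
    (hL : 4 * κ ^ d ≤ L) (v : V₀) (σ : ℕ → Fm p) (B : Fm p) (hd : (B.subst σ).depth ≤ d)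
    (hv : ∀ E ∈ ext O x (B.subst σ), M.Φ (ind F E) v = 0) :
    ∃ Ds : List (D → Bool), Ds.length ≤ B.size ∧ (∀ E ∈ Ds, M.Kill v (3 * κ ^ d) E) ∧
      ∀ z, (∀ E ∈ Ds, E z = false) →
        ap O x (B.subst σ) z = B.eval fun i => ap O x (σ i) z := by
  induction B with
  | var i => exact ⟨[], Nat.zero_le _, fun _ h => absurd h List.not_mem_nil, fun _ _ => rfl⟩
  | top => exact ⟨[], Nat.zero_le _, fun _ h => absurd h List.not_mem_nil, fun _ _ => rfl⟩
  | bot => exact ⟨[], Nat.zero_le _, fun _ h => absurd h List.not_mem_nil, fun _ _ => rfl⟩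
  | neg A ih =>
    obtain ⟨Ds, h1, h2, h3⟩ := ih hd hv
    refine ⟨Ds, h1.trans (Nat.le_succ _), h2, fun z hz => ?_⟩
    change (!(ap O x (A.subst σ) z)) = !(A.eval fun i => ap O x (σ i) z)
    rw [h3 z hz]
  | or A B ihA ihB =>
    obtain ⟨Da, a1, a2, a3⟩ := ihA ((Fm.depth_or _ _).1.trans hd) fun E hE =>
      hv E (List.mem_append_right _ (List.mem_append_left _ hE))
    obtain ⟨Db, b1, b2, b3⟩ := ihB ((Fm.depth_or _ _).2.trans hd) fun E hE =>
      hv E (List.mem_append_right _ (List.mem_append_right _ hE))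
    have h := viol_or O x M hO hκ hx d hL v (A.subst σ) (B.subst σ) hd hv
    refine ⟨_ :: (Da ++ Db), ?_, List.forall_mem_cons.2 ⟨h, List.forall_mem_append.2 ⟨a2, b2⟩⟩,
      fun z hz => ?_⟩
    · rw [List.length_cons, List.length_append]
      exact Nat.succ_le_succ (Nat.add_le_add a1 b1)
    · obtain ⟨h1, h2⟩ := List.forall_mem_cons.1 hz
      obtain ⟨h2, h3⟩ := List.forall_mem_append.1 h2
      change ap O x (Fm.or (A.subst σ) (B.subst σ)) z =
        ((A.eval fun i => ap O x (σ i) z) || B.eval fun i => ap O x (σ i) z)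
      rw [← a3 z h2, ← b3 z h3]
      simpa using h1
  | and A B ihA ihB =>
    obtain ⟨Da, a1, a2, a3⟩ := ihA ((Fm.depth_and _ _).1.trans hd) fun E hE =>
      hv E (List.mem_append_right _ (List.mem_append_left _ hE))
    obtain ⟨Db, b1, b2, b3⟩ := ihB ((Fm.depth_and _ _).2.trans hd) fun E hE =>
      hv E (List.mem_append_right _ (List.mem_append_right _ hE))
    have h := viol_and O x M hO hκ hx d hL v (A.subst σ) (B.subst σ) hd hv
    refine ⟨_ :: (Da ++ Db), ?_, List.forall_mem_cons.2 ⟨h, List.forall_mem_append.2 ⟨a2, b2⟩⟩,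
      fun z hz => ?_⟩
    · rw [List.length_cons, List.length_append]
      exact Nat.succ_le_succ (Nat.add_le_add a1 b1)
    · obtain ⟨h1, h2⟩ := List.forall_mem_cons.1 hz
      obtain ⟨h2, h3⟩ := List.forall_mem_append.1 h2
      change ap O x (Fm.and (A.subst σ) (B.subst σ)) z =
        ((A.eval fun i => ap O x (σ i) z) && B.eval fun i => ap O x (σ i) z)
      rw [← a3 z h2, ← b3 z h3]
      simpa using h1
  | mod i m f ih =>
    have hj : ∀ j, ∃ Ds : List (D → Bool), Ds.length ≤ (f j).size ∧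
        (∀ E ∈ Ds, M.Kill v (3 * κ ^ d) E) ∧ ∀ z, (∀ E ∈ Ds, E z = false) →
          ap O x ((f j).subst σ) z = (f j).eval fun i => ap O x (σ i) z := fun j =>
      ih j ((Nat.le_succ _).trans ((Fm.depth_mod i m (fun j => (f j).subst σ) j).trans hd))
        fun E hE => hv E (List.mem_flatten.2 ⟨_, List.mem_ofFn.2 ⟨j, rfl⟩, hE⟩)
    choose Ds h1 h2 h3 using hj
    refine ⟨(List.ofFn Ds).flatten, ?_, fun E hE => ?_, fun z hz => ?_⟩
    · rw [List.length_flatten, List.map_ofFn, List.sum_ofFn]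
      exact (Finset.sum_le_sum fun j _ => h1 j).trans (Nat.le_succ _)
    · obtain ⟨l, hl, hE⟩ := List.mem_flatten.1 hE
      obtain ⟨j, rfl⟩ := List.mem_ofFn.1 hl
      exact h2 j E hE
    · have h4 : ∀ j, ap O x ((f j).subst σ) z = (f j).eval fun i => ap O x (σ i) z := fun j =>
        h3 j z fun E hE => hz E (List.mem_flatten.2 ⟨_, List.mem_ofFn.2 ⟨j, rfl⟩, hE⟩)
      change decide ((∑ j, if ap O x ((f j).subst σ) z = true then (1 : ZMod p) else 0) = i) =
        decide ((∑ j, if ((f j).eval fun i => ap O x (σ i) z) = true then (1 : ZMod p) else 0) = i)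
      simp only [h4]

end Pool.Agent.Lib.MP_8a52c3_lc.Ac0
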