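import Pool.Agent.Lib.MP_8a52c3_lc.Ac0.Sub

namespace Pool.Agent.Lib.MP_8a52c3_lc.Ac0

open Matrix Filter
open scoped BigOperators

variable {q n : ℕ} [NeZero q]

/-- Vandermonde identity for rising factorials with step `M`. -/
theorem Mom_vander (M x y : ℝ) (k : ℕ) :
    ∏ i ∈ Finset.range k, (x + y + M * i) =
      ∑ p ∈ Finset.HasAntidiagonal.antidiagonal k, (k.choose p.1 : ℝ) *
        ((∏ i ∈ Finset.range p.1, (x + M * i)) * ∏ i ∈ Finset.range p.2, (y + M * i)) := by
  induction k with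
  | zero => simp
  | succ k ih =>
    rw [Finset.sum_antidiagonal_choose_succ_mul (fun a b =>
      (∏ i ∈ Finset.range a, (x + M * i)) * ∏ i ∈ Finset.range b, (y + M * i)) k,
      Finset.prod_range_succ, ih, Finset.sum_mul, ← Finset.sum_add_distrib]
    refine Finset.sum_congr rfl fun p hp => ?_
    have hk : p.1 + p.2 = k := Finset.HasAntidiagonal.mem_antidiagonal.1 hp
    have hc : k.choose p.2 = k.choose p.1 := by
      rw [← hk]
      exact (Nat.choose_symm_add (a := p.1) (b := p.2)).symm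
    have hk' : (k : ℝ) = p.1 + p.2 := by
      rw [← hk]
      push_cast
      rfl
    rw [hc, Finset.prod_range_succ, Finset.prod_range_succ]
    generalize (k.choose p.1 : ℝ) = c
    rw [hk']
    ring

theorem Mom_ge {M : ℝ} (hM : 1 ≤ M) (j : ℕ) :
    M ≤ ∏ i ∈ Finset.range (j + 2), (1 + M * i) := by
  induction j with
  | zero => simp [Finset.prod_range_succ]
  | succ j ih =>
    rw [Finset.prod_range_succ]
    have h : (1 : ℝ) ≤ 1 + M * ((j + 2 : ℕ) : ℝ) := by
      have : (0 : ℝ) ≤ M * ((j + 2 : ℕ) : ℝ) := by positivity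
      linarith
    exact ih.trans (le_mul_of_one_le_right (by linarith) h)

theorem Mom_cons {α : Type} [Fintype α] (m : ℕ) (F : (Fin (m + 1) → α) → ℝ) :
    𝔼 x, F x = 𝔼 y : Fin m → α, 𝔼 a : α, F (Fin.cons a y) := by
  rw [Finset.expect_comm, ← Finset.expect_product', Finset.univ_product_univ]
  exact (Fintype.expect_equiv (Fin.consEquiv fun _ => α) _ _ fun p => rfl).symm

/-- Moments of a sum of independent identically distributed nonnegative variables. -/
theorem iid_mom {α : Type} [Fintype α] [Nonempty α] (f : α → ℝ) (hf : ∀ a, 0 ≤ f a) (k : ℕ)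
    {M : ℝ} (hM : 1 ≤ M) (h1 : 𝔼 a, f a ≤ 1) (hj : ∀ j ≤ k, 𝔼 a, f a ^ j ≤ M) (m : ℕ) :
    𝔼 x : Fin m → α, (∑ c, f (x c)) ^ k ≤ ∏ i ∈ Finset.range k, ((m : ℝ) + M * i) := by
  have hone : ∀ j ≤ k, 𝔼 a, f a ^ j ≤ ∏ i ∈ Finset.range j, (1 + M * i) := by
    intro j hjk
    match j, hjk with
    | 0, _ => simp
    | 1, _ => simpa using h1
    | j + 2, hjk => exact (hj _ hjk).trans (Mom_ge hM j)
  have key : ∀ m : ℕ, ∀ j ≤ k,
      𝔼 x : Fin m → α, (∑ c, f (x c)) ^ j ≤ ∏ i ∈ Finset.range j, ((m : ℝ) + M * i) := by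
    intro m
    induction m with
    | zero =>
      intro j _
      rcases j with _ | j
      · simp
      · simp only [Finset.univ_eq_empty, Finset.sum_empty, ne_eq, Nat.add_eq_zero_iff, one_ne_zero,
          and_false, not_false_eq_true, zero_pow, Finset.expect_const_zero]
        exact Finset.prod_nonneg fun i _ => by positivity
    | succ m ih =>
      intro j hjk
      rw [Mom_cons]
      have e : ∀ (y : Fin m → α) (a : α),
          (∑ c, f ((Fin.cons a y : Fin (m + 1) → α) c)) ^ j =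
            ∑ p ∈ Finset.HasAntidiagonal.antidiagonal j,
              (j.choose p.1 : ℝ) * ((∑ c, f (y c)) ^ p.1 * f a ^ p.2) := by
        intro y a
        rw [Fin.sum_univ_succ, add_comm, (Commute.all _ _).add_pow']
        simp only [Fin.cons_succ, Fin.cons_zero, nsmul_eq_mul]
      simp only [e]
      push_cast
      rw [Mom_vander]
      simp only [Finset.expect_sum_comm]
      refine Finset.sum_le_sum fun p hp => ?_
      have hk : p.1 + p.2 = j := Finset.HasAntidiagonal.mem_antidiagonal.1 hp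
      simp only [← Finset.mul_expect, ← Finset.expect_mul]
      refine mul_le_mul_of_nonneg_left ?_ (Nat.cast_nonneg _)
      refine mul_le_mul (ih _ (by omega)) (hone _ (by omega))
        (Finset.expect_nonneg fun a _ => pow_nonneg (hf a) _) ?_
      exact Finset.prod_nonneg fun i _ => by positivity
  exact key m k le_rfl

theorem Mom_prod {M : ℝ} (hM : 0 ≤ M) {x : ℝ} (hx : 0 < x) (k : ℕ) :
    ∏ i ∈ Finset.range k, (x + M * i) ≤ x ^ k * Real.exp ((k : ℝ) ^ 2 * M / x) := by
  have h : ∀ i ∈ Finset.range k, x + M * i ≤ x * Real.exp (k * M / x) := by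
    intro i hi
    have hik : (i : ℝ) ≤ k := by exact_mod_cast (Finset.mem_range.1 hi).le
    have e1 := Real.add_one_le_exp (k * M / x)
    have e2 : x * (k * M / x + 1) = x + M * k := by field_simp; ring
    have e3 := mul_le_mul_of_nonneg_left e1 hx.le
    have e4 := mul_le_mul_of_nonneg_left hik hM
    linarith
  refine (Finset.prod_le_prod (fun i _ => by positivity) h).trans (le_of_eq ?_)
  rw [Finset.prod_const, Finset.card_range, mul_pow, ← Real.exp_nat_mul]
  congr 2
  ring

theorem Mom_sqrt (n : ℕ) : ‖((Real.sqrt n : ℝ) : ℂ)‖ ^ 2 = n := by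
  rw [Complex.norm_real, Real.norm_eq_abs, sq_abs, Real.sq_sqrt (Nat.cast_nonneg n)]

/-- One random matrix changes the `2k`-th moment by a factor `1 + O(1/n)`. -/
theorem row_mom (hq : 2 ≤ q) (hn : 1 ≤ n) (v : Fin n → ℂ) (k : ℕ) :
    𝔼 M : Fin n → Fin n → ZMod q, nrm (mat M *ᵥ v) ^ (2 * k) ≤
      Real.exp (Ck k / n) * nrm v ^ (2 * k) := by
  have hn0 : (0 : ℝ) < n := by exact_mod_cast hn
  rcases (nrm_nonneg v).eq_or_lt with h0 | h0
  · have hv := nrm_eq_zero h0.symm
    subst hv
    simp only [mulVec_zero, Fintype.expect_const]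
    exact le_mul_of_one_le_left (pow_nonneg (nrm_nonneg _) _)
      (Real.one_le_exp (div_nonneg (Ck_nonneg k) hn0.le))
  have hN : 0 < nrm v ^ 2 := by positivity
  have main := iid_mom (fun r : Fin n → ZMod q => ‖∑ b, ec (r b) * v b‖ ^ 2 / nrm v ^ 2)
    (fun r => by positivity) k (one_le_Mk k)
    (by rw [← Finset.expect_div, sub_sq hq, div_self hN.ne'])
    (by
      intro j hj
      simp only [div_pow, ← pow_mul]
      rw [← Finset.expect_div, div_le_iff₀ (by positivity)]
      exact (sub_mom hq v j).trans (mul_le_mul_of_nonneg_right (Mk_mono hj) (by positivity))) n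
  have e : ∀ M : Fin n → Fin n → ZMod q, nrm (mat M *ᵥ v) ^ (2 * k) =
      (nrm v ^ 2 / n) ^ k * (∑ a, ‖∑ b, ec (M a b) * v b‖ ^ 2 / nrm v ^ 2) ^ k := by
    intro M
    rw [pow_mul, ← mul_pow, nrm_sq, Finset.mul_sum]
    congr 1
    refine Finset.sum_congr rfl fun a _ => ?_
    have : (mat M *ᵥ v) a = (∑ b, ec (M a b) * v b) / (Real.sqrt n : ℂ) := by
      rw [Finset.sum_div]
      simp only [mulVec, dotProduct, mat, of_apply]
      exact Finset.sum_congr rfl fun b _ => by ring
    rw [this, norm_div, div_pow, Mom_sqrt n]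
    field_simp
  simp only [e]
  rw [← Finset.mul_expect]
  refine (mul_le_mul_of_nonneg_left (main.trans (Mom_prod (Mk_pos k).le hn0 k))
    (by positivity)).trans (le_of_eq ?_)
  unfold Ck
  rw [div_pow, pow_mul]
  field_simp

/-- A restricted row against a fixed vector. -/
theorem rowI_mom (hq : 2 ≤ q) (hn : 1 ≤ n) (v : Fin n → ℂ) (k : ℕ) (a : Fin n)
    (u w : Fin (n + 1)) :
    𝔼 M : Fin n → Fin n → ZMod q, ‖rowI (mat M) a u w ⬝ᵥ v‖ ^ (2 * k) ≤
      Mk k / (n : ℝ) ^ k * nrm v ^ (2 * k) := by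
  have hn0 : (0 : ℝ) < n := by exact_mod_cast hn
  obtain ⟨y, hy⟩ : ∃ y : Fin n → ℂ, ∀ b, y b =
      if u.val ≤ b.val ∧ b.val < w.val then v b / (Real.sqrt n : ℂ) else 0 := ⟨_, fun _ => rfl⟩
  have e : ∀ M : Fin n → Fin n → ZMod q,
      rowI (mat M) a u w ⬝ᵥ v = ∑ b, ec (M a b) * y b := by
    intro M
    simp only [dotProduct, rowI, mat, of_apply, hy]
    refine Finset.sum_congr rfl fun b _ => ?_
    split_ifs
    · ring
    · ring
  have hyv : nrm y ^ 2 ≤ nrm v ^ 2 / n := by
    rw [nrm_sq, nrm_sq, Finset.sum_div]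
    refine Finset.sum_le_sum fun b _ => ?_
    rw [hy]
    split_ifs
    · rw [norm_div, div_pow, Mom_sqrt n]
    · rw [norm_zero]
      have : (0 : ℝ) ≤ ‖v b‖ ^ 2 / n := by positivity
      simpa using this
  simp only [e]
  rw [expect_coord a (fun r : Fin n → ZMod q => ‖∑ b, ec (r b) * y b‖ ^ (2 * k))]
  refine (sub_mom hq y k).trans ?_
  have h2 : nrm y ^ (2 * k) ≤ nrm v ^ (2 * k) / (n : ℝ) ^ k := by
    rw [pow_mul, pow_mul, ← div_pow]
    exact pow_le_pow_left₀ (by positivity) hyv k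
  refine (mul_le_mul_of_nonneg_left h2 (Mk_pos k).le).trans (le_of_eq ?_)
  ring

end Pool.Agent.Lib.MP_8a52c3_lc.Ac0
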