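import Pool.Agent.Lib.MP_8a52c3_lc.Ac0.GDefs

namespace Pool.Agent.Lib.MP_8a52c3_lc.Ac0

open Matrix Filter
open scoped BigOperators

section norms

variable {ι : Type} [Fintype ι]

theorem nrm_nonneg (v : ι → ℂ) : 0 ≤ nrm v := by
  exact norm_nonneg _

theorem nrm_sq (v : ι → ℂ) : nrm v ^ 2 = ∑ i, ‖v i‖ ^ 2 := by
  unfold nrm
  rw [EuclideanSpace.norm_sq_eq]

theorem nrm_zero : nrm (0 : ι → ℂ) = 0 := by
  simp [nrm]

theorem nrm_eq_zero {v : ι → ℂ} (h : nrm v = 0) : v = 0 := by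
  have h1 : (WithLp.toLp 2 v : EuclideanSpace ℂ ι) = 0 := norm_eq_zero.1 h
  simpa using h1

theorem nrm_add_le (u v : ι → ℂ) : nrm (u + v) ≤ nrm u + nrm v := by
  unfold nrm
  rw [WithLp.toLp_add]
  exact norm_add_le _ _

theorem nrm_neg (v : ι → ℂ) : nrm (-v) = nrm v := by
  unfold nrm
  rw [WithLp.toLp_neg, norm_neg]

theorem nrm_sub_comm (u v : ι → ℂ) : nrm (u - v) = nrm (v - u) := by
  rw [← nrm_neg, neg_sub]

theorem nrm_sub_le (u v w : ι → ℂ) : nrm (u - w) ≤ nrm (u - v) + nrm (v - w) := by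
  have := nrm_add_le (u - v) (v - w)
  rwa [sub_add_sub_cancel] at this

theorem nrm_smul (c : ℂ) (v : ι → ℂ) : nrm (c • v) = ‖c‖ * nrm v := by
  unfold nrm
  rw [WithLp.toLp_smul, norm_smul]

theorem nrm_sum_le {κ : Type} (S : Finset κ) (v : κ → ι → ℂ) :
    nrm (∑ k ∈ S, v k) ≤ ∑ k ∈ S, nrm (v k) := by
  classical
  induction S using Finset.induction_on with
  | empty => simp [nrm_zero]
  | insert a S ha ih =>
    rw [Finset.sum_insert ha, Finset.sum_insert ha]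
    exact (nrm_add_le _ _).trans (by linarith)

theorem nrm_congr_norm {u v : ι → ℂ} (h : ∀ i, ‖u i‖ = ‖v i‖) : nrm u = nrm v := by
  refine (pow_left_inj₀ (nrm_nonneg u) (nrm_nonneg v) two_ne_zero).1 ?_
  simp only [nrm_sq, h]

theorem norm_le_nrm (v : ι → ℂ) (i : ι) : ‖v i‖ ≤ nrm v := by
  refine (pow_le_pow_iff_left₀ (norm_nonneg _) (nrm_nonneg v) two_ne_zero).1 ?_
  rw [nrm_sq]
  exact Finset.single_le_sum (f := fun i => ‖v i‖ ^ 2) (fun _ _ => by positivity)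
    (Finset.mem_univ i)

theorem nrm_single [DecidableEq ι] (i : ι) (c : ℂ) : nrm (Pi.single i c : ι → ℂ) = ‖c‖ := by
  refine (pow_left_inj₀ (nrm_nonneg _) (norm_nonneg _) two_ne_zero).1 ?_
  rw [nrm_sq, Finset.sum_eq_single i]
  · simp
  · intro b _ hb
    simp [hb]
  · simp

theorem norm_dot_le (u v : ι → ℂ) : ‖u ⬝ᵥ v‖ ≤ nrm u * nrm v := by
  refine (pow_le_pow_iff_left₀ (norm_nonneg _) (mul_nonneg (nrm_nonneg u) (nrm_nonneg v))
    two_ne_zero).1 ?_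
  rw [mul_pow, nrm_sq, nrm_sq]
  refine le_trans ?_ (Finset.sum_mul_sq_le_sq_mul_sq Finset.univ (fun i => ‖u i‖) fun i => ‖v i‖)
  refine pow_le_pow_left₀ (norm_nonneg _) ?_ 2
  refine (norm_sum_le _ _).trans (le_of_eq ?_)
  simp only [norm_mul]

theorem nrm_sub_sq (u v : ι → ℂ) :
    nrm (u - v) ^ 2 = nrm u ^ 2 + nrm v ^ 2 - 2 * (star u ⬝ᵥ v).re := by
  simp only [nrm_sq, dotProduct, Complex.re_sum, Finset.mul_sum, ← Finset.sum_add_distrib,
    ← Finset.sum_sub_distrib]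
  refine Finset.sum_congr rfl fun i _ => ?_
  simp only [Complex.sq_norm, Complex.normSq_apply, Pi.sub_apply, Pi.star_apply, Complex.star_def,
    Complex.sub_re, Complex.sub_im, Complex.mul_re, Complex.conj_re, Complex.conj_im]
  ring

theorem nrm_sq_le_card {v : ι → ℂ} {c : ℝ} (h : ∀ i, ‖v i‖ ≤ c) :
    nrm v ^ 2 ≤ Fintype.card ι * c ^ 2 := by
  rw [nrm_sq]
  calc ∑ i, ‖v i‖ ^ 2 ≤ ∑ _i : ι, c ^ 2 :=
        Finset.sum_le_sum fun i _ => pow_le_pow_left₀ (norm_nonneg _) (h i) 2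
    _ = Fintype.card ι * c ^ 2 := by simp

theorem nrm_tensor (q : ℕ) (t : ι → ℂ) :
    nrm (fun B : Fin q → ι => ∏ i, t (B i)) = nrm t ^ q := by
  refine (pow_left_inj₀ (nrm_nonneg _) (pow_nonneg (nrm_nonneg t) q) two_ne_zero).1 ?_
  rw [← pow_mul, mul_comm q 2, pow_mul, nrm_sq, nrm_sq]
  simp only [norm_prod, ← Finset.prod_pow]
  have h := Finset.prod_univ_sum (fun _ : Fin q => (Finset.univ : Finset ι))
    (fun _ a => ‖t a‖ ^ 2)
  rw [Fintype.piFinset_univ] at h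
  rw [← h]
  simp

end norms

section fro

variable {n : ℕ}

theorem fro_nonneg (M : Matrix (Fin n) (Fin n) ℂ) : 0 ≤ fro M := by
  exact nrm_nonneg _

theorem fro_sq (M : Matrix (Fin n) (Fin n) ℂ) : fro M ^ 2 = ∑ a, ∑ b, ‖M a b‖ ^ 2 := by
  unfold fro
  rw [nrm_sq, Fintype.sum_prod_type]

theorem fro_sq_cols (M : Matrix (Fin n) (Fin n) ℂ) :
    fro M ^ 2 = ∑ b, nrm (M *ᵥ Pi.single b 1) ^ 2 := by
  rw [fro_sq, Finset.sum_comm]
  refine Finset.sum_congr rfl fun b _ => ?_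
  rw [nrm_sq]
  simp

theorem fro_add_le (M N : Matrix (Fin n) (Fin n) ℂ) : fro (M + N) ≤ fro M + fro N := by
  exact nrm_add_le (fun p : Fin n × Fin n => M p.1 p.2) fun p : Fin n × Fin n => N p.1 p.2

theorem fro_sub_comm (M N : Matrix (Fin n) (Fin n) ℂ) : fro (M - N) = fro (N - M) := by
  exact nrm_sub_comm (fun p : Fin n × Fin n => M p.1 p.2) fun p : Fin n × Fin n => N p.1 p.2

theorem fro_smul (c : ℂ) (M : Matrix (Fin n) (Fin n) ℂ) : fro (c • M) = ‖c‖ * fro M := by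
  exact nrm_smul c fun p : Fin n × Fin n => M p.1 p.2

theorem fro_sum_le {κ : Type} (S : Finset κ) (M : κ → Matrix (Fin n) (Fin n) ℂ) :
    fro (∑ k ∈ S, M k) ≤ ∑ k ∈ S, fro (M k) := by
  classical
  induction S using Finset.induction_on with
  | empty =>
    simp only [Finset.sum_empty]
    exact le_of_eq nrm_zero
  | insert a S ha ih =>
    rw [Finset.sum_insert ha, Finset.sum_insert ha]
    exact (fro_add_le _ _).trans (by linarith)

theorem fro_vecMulVec (u v : Fin n → ℂ) : fro (vecMulVec u v) = nrm u * nrm v := by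
  refine (pow_left_inj₀ (fro_nonneg _) (mul_nonneg (nrm_nonneg u) (nrm_nonneg v))
    two_ne_zero).1 ?_
  rw [fro_sq, mul_pow, nrm_sq, nrm_sq, Finset.sum_mul_sum]
  simp only [vecMulVec_apply, norm_mul, mul_pow]

theorem nrm_mulVec_le (M : Matrix (Fin n) (Fin n) ℂ) (v : Fin n → ℂ) :
    nrm (M *ᵥ v) ≤ fro M * nrm v := by
  refine (pow_le_pow_iff_left₀ (nrm_nonneg _) (mul_nonneg (fro_nonneg M) (nrm_nonneg v))
    two_ne_zero).1 ?_
  rw [mul_pow, fro_sq, nrm_sq (M *ᵥ v), Finset.sum_mul]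
  refine Finset.sum_le_sum fun a _ => ?_
  rw [← nrm_sq (M a), ← mul_pow]
  exact pow_le_pow_left₀ (norm_nonneg _) (norm_dot_le (M a) v) 2

theorem fro_one_sq : fro (1 : Matrix (Fin n) (Fin n) ℂ) ^ 2 = n := by
  rw [fro_sq]
  have : ∀ a : Fin n, ∑ b, ‖(1 : Matrix (Fin n) (Fin n) ℂ) a b‖ ^ 2 = 1 := by
    intro a
    rw [Finset.sum_eq_single a]
    · simp
    · intro b _ hb
      simp [Matrix.one_apply_ne hb.symm]
    · simp
  simp [this]

end fro

end Pool.Agent.Lib.MP_8a52c3_lc.Ac0
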