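import Pool.Agent.Lib.MP_8a52c3_lc.Ac0.PMBasic

namespace Pool.Agent.Lib.MP_8a52c3_lc.Ac0

open Module

variable {F D V V₀ : Type} [Field F] [AddCommGroup V] [Module F V] [AddCommGroup V₀]
  [Module F V₀] {L : ℕ}

theorem OrApx_sum_apply (p : ℕ) [Fact p.Prime] [CharP F p] {ι : Type} [Fintype ι]
    (g : ι → D → Bool) (z : D) :
    (∑ j, ind F (g j)) z =
      ZMod.castHom (dvd_refl p) F (∑ j, if g j z = true then (1 : ZMod p) else 0) := by
  rw [Finset.sum_apply, map_sum]
  refine Finset.sum_congr rfl fun j _ => ?_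
  unfold ind
  split_ifs <;> simp

theorem OrApx_ind_cnt (p : ℕ) [Fact p.Prime] [CharP F p] {ι : Type} [Fintype ι]
    (g : ι → D → Bool) (i : ZMod p) :
    ind F (fun z => decide ((∑ j, if g j z = true then (1 : ZMod p) else 0) = i)) =
      1 - ((∑ j, ind F (g j)) - (ZMod.castHom (dvd_refl p) F i) • (1 : D → F)) ^ (p - 1) := by
  funext z
  rw [Pi.sub_apply, Pi.pow_apply, Pi.sub_apply, OrApx_sum_apply p g z, Pi.smul_apply,
    Pi.one_apply, smul_eq_mul, mul_one, ← map_sub, ← map_pow, ZMod.pow_card_sub_one]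
  unfold ind
  by_cases h : (∑ j, if g j z = true then (1 : ZMod p) else 0) = i
  · simp [h]
  · have h' : (∑ j, if g j z = true then (1 : ZMod p) else 0) - i ≠ 0 := sub_ne_zero.mpr h
    rw [if_pos h', map_one, sub_self, if_neg]
    simpa using h

/-- A sum of indicators compared with a residue modulo `p` has degree `(p-1) k`. -/
theorem PM.cnt_mem (M : PM F D V V₀ L) (p : ℕ) [Fact p.Prime] [CharP F p] {ι : Type} [Fintype ι]
    (g : ι → D → Bool) (k : ℕ) (hg : ∀ j, ind F (g j) ∈ M.P k) (i : ZMod p) :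
    ind F (fun z => decide ((∑ j, if g j z = true then (1 : ZMod p) else 0) = i))
      ∈ M.P ((p - 1) * k) := by
  rw [OrApx_ind_cnt p g i]
  refine Submodule.sub_mem _ (M.one_mem' _) (M.pow_mem ?_ _)
  exact Submodule.sub_mem _ (Submodule.sum_mem _ fun j _ => hg j)
    (Submodule.smul_mem _ _ (M.one_mem' _))

theorem OrApx_prod_mem (M : PM F D V V₀ L) {ι : Type} (s : Finset ι) (f : ι → D → F) (k : ℕ)
    (hf : ∀ i ∈ s, f i ∈ M.P k) : ∏ i ∈ s, f i ∈ M.P (s.card * k) := by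
  classical
  induction s using Finset.induction_on with
  | empty => simpa using M.one_mem
  | insert a s ha ih =>
    rw [Finset.prod_insert ha, Finset.card_insert_of_notMem ha]
    have h1 := M.mul_mem _ _ _ _ (hf a (Finset.mem_insert_self a s))
      (ih fun i hi => hf i (Finset.mem_insert_of_mem hi))
    have : k + s.card * k = (s.card + 1) * k := by ring
    rwa [this] at h1

/-- Number modulo `p` of the selected true functions. -/
def OrApx_cnt (p : ℕ) {ι : Type} [Fintype ι] (g : ι → D → Bool) (r : ι → Bool) (x : D) :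
    ZMod p :=
  ∑ j, if (r j && g j x) = true then (1 : ZMod p) else 0

/-- The approximator given by `ℓ` selections. -/
def OrApx_orR (p ℓ : ℕ) {ι : Type} [Fintype ι] (g : ι → D → Bool) (r : Fin ℓ → ι → Bool)
    (x : D) : Bool :=
  decide (∃ u : Fin ℓ, OrApx_cnt p g (r u) x ≠ 0)

theorem OrApx_ind_sel (a : D → Bool) (c : Bool) :
    ind F (fun x => c && a x) = if c = true then ind F a else 0 := by
  funext x
  cases c <;> simp [ind]

theorem OrApx_sel_mem (M : PM F D V V₀ L) {k : ℕ} {a : D → Bool} (ha : ind F a ∈ M.P k)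
    (c : Bool) : ind F (fun x => c && a x) ∈ M.P k := by
  rw [OrApx_ind_sel]
  split_ifs
  · exact ha
  · exact Submodule.zero_mem _

theorem OrApx_ind_orR (p ℓ : ℕ) [Fact p.Prime] [CharP F p] {ι : Type} [Fintype ι]
    (g : ι → D → Bool) (r : Fin ℓ → ι → Bool) :
    ind F (OrApx_orR p ℓ g r) =
      1 - ∏ u, (1 - (∑ j, ind F (fun x => r u j && g j x)) ^ (p - 1)) := by
  have h1 : ∀ u, (1 - (∑ j, ind F (fun x => r u j && g j x)) ^ (p - 1) : D → F) =
      ind F (fun x => decide (OrApx_cnt p g (r u) x = 0)) := by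
    intro u
    have := OrApx_ind_cnt (F := F) p (fun j x => r u j && g j x) 0
    rw [map_zero, zero_smul, sub_zero] at this
    exact this.symm
  simp only [h1]
  funext x
  rw [Pi.sub_apply, Finset.prod_apply, Pi.one_apply]
  by_cases h : ∃ u : Fin ℓ, OrApx_cnt p g (r u) x ≠ 0
  · obtain ⟨u, hu⟩ := h
    rw [Finset.prod_eq_zero (Finset.mem_univ u) (by simp [ind, hu]), sub_zero]
    have : OrApx_orR p ℓ g r x = true := decide_eq_true ⟨u, hu⟩
    simp [ind, this]
  · have h0 : OrApx_orR p ℓ g r x = false := decide_eq_false h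
    push Not at h
    rw [Finset.prod_eq_one (fun u _ => by simp [ind, h u]), sub_self]
    simp [ind, h0]

theorem OrApx_le (p ℓ : ℕ) {ι : Type} [Fintype ι] (g : ι → D → Bool) (r : Fin ℓ → ι → Bool)
    (x : D) (h : OrApx_orR p ℓ g r x = true) : ∃ j, g j x = true := by
  obtain ⟨u, hu⟩ := of_decide_eq_true h
  by_contra hc
  push Not at hc
  apply hu
  refine Finset.sum_eq_zero fun j _ => ?_
  rw [if_neg]
  simp [hc j]

theorem OrApx_mem (M : PM F D V V₀ L) (p ℓ : ℕ) [Fact p.Prime] [CharP F p] {ι : Type}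
    [Fintype ι] (g : ι → D → Bool) (r : Fin ℓ → ι → Bool) (k : ℕ)
    (hg : ∀ j, ind F (g j) ∈ M.P k) : ind F (OrApx_orR p ℓ g r) ∈ M.P (ℓ * (p - 1) * k) := by
  rw [OrApx_ind_orR]
  refine Submodule.sub_mem _ (M.one_mem' _) ?_
  have := OrApx_prod_mem M Finset.univ
    (fun u => (1 - (∑ j, ind F (fun x => r u j && g j x)) ^ (p - 1) : D → F)) ((p - 1) * k)
    (fun u _ => Submodule.sub_mem _ (M.one_mem' _)
      (M.pow_mem (Submodule.sum_mem _ fun j _ => OrApx_sel_mem M (hg j) _) _))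
  rwa [Finset.card_univ, Fintype.card_fin, ← mul_assoc] at this

theorem OrApx_ideal (M : PM F D V V₀ L) (p ℓ : ℕ) [Fact p.Prime] [CharP F p] {ι : Type}
    [Fintype ι] (g : ι → D → Bool) (r : Fin ℓ → ι → Bool) (k b : ℕ) (w : D → F) (v : V₀)
    (hg : ∀ j, ind F (g j) ∈ M.P k) (hw : w ∈ M.P b) (hL : ℓ * (p - 1) * k + b ≤ L)
    (h0 : ∀ j, M.Φ (ind F (g j) * w) v = 0) : M.Φ (ind F (OrApx_orR p ℓ g r) * w) v = 0 := by
  have hp : 2 ≤ p := (Fact.out : p.Prime).two_le
  rw [OrApx_ind_orR, Finset.prod_one_sub_ordered, sub_sub_cancel, Finset.sum_mul, map_sum,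
    LinearMap.sum_apply]
  refine Finset.sum_eq_zero fun u _ => ?_
  set σ : Fin ℓ → D → F := fun u => ∑ j, ind F (fun x => r u j && g j x) with hσ
  have hσm : ∀ u, σ u ∈ M.P k := fun u =>
    Submodule.sum_mem _ fun j _ => OrApx_sel_mem M (hg j) _
  have hσ0 : M.Φ (σ u * w) v = 0 := by
    simp only [hσ]
    rw [Finset.sum_mul, map_sum, LinearMap.sum_apply]
    refine Finset.sum_eq_zero fun j _ => ?_
    rw [OrApx_ind_sel]
    split_ifs
    · exact h0 j
    · simp
  set s : Finset (Fin ℓ) := Finset.univ.filter fun j => j < u with hs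
  have hcard : s.card + 1 ≤ ℓ := by
    have h1 : s.card < (Finset.univ : Finset (Fin ℓ)).card := by
      refine Finset.card_lt_card ⟨Finset.subset_univ _, fun h => ?_⟩
      have := h (Finset.mem_univ u)
      simp [hs] at this
    rw [Finset.card_univ, Fintype.card_fin] at h1
    exact h1
  have hprod : ∏ j ∈ s, (1 - σ j ^ (p - 1)) ∈ M.P (s.card * ((p - 1) * k)) :=
    OrApx_prod_mem M s _ _ fun j _ => Submodule.sub_mem _ (M.one_mem' _) (M.pow_mem (hσm j) _)
  have hA := M.mul_mem _ _ _ _ (M.pow_mem (hσm u) (p - 2)) hprod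
  have hB := M.mul_mem _ _ _ _ (hσm u) hw
  have hdeg : (p - 2) * k + s.card * ((p - 1) * k) + (k + b) ≤ L := by
    refine le_trans ?_ hL
    obtain ⟨q, rfl⟩ : ∃ q, p = q + 2 := ⟨p - 2, by omega⟩
    have e1 : q + 2 - 2 = q := by omega
    have e2 : q + 2 - 1 = q + 1 := by omega
    rw [e1, e2]
    have := Nat.mul_le_mul_right ((q + 1) * k) hcard
    nlinarith
  have := M.ann_mul hA hB hdeg hσ0
  have e : σ u ^ (p - 1) = σ u ^ (p - 2) * σ u := by
    rw [← pow_succ]
    congr 1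
    omega
  have e' : (σ u ^ (p - 1) * ∏ j ∈ s, (1 - σ j ^ (p - 1))) * w =
      (σ u ^ (p - 2) * ∏ j ∈ s, (1 - σ j ^ (p - 1))) * (σ u * w) := by
    rw [e]; ring
  show M.Φ ((σ u ^ (p - 1) * ∏ j ∈ s, (1 - σ j ^ (p - 1))) * w) v = 0
  rw [e']
  exact this

theorem OrApx_cnt_update (p : ℕ) {ι : Type} [Fintype ι] [DecidableEq ι] (g : ι → D → Bool)
    (r : ι → Bool) (j : ι) (x : D) (hx : g j x = true) :
    OrApx_cnt p g (Function.update r j true) x =
      OrApx_cnt p g (Function.update r j false) x + 1 := by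
  unfold OrApx_cnt
  rw [← Finset.add_sum_erase _ _ (Finset.mem_univ j), ← Finset.add_sum_erase _ _
    (Finset.mem_univ j)]
  have : ∑ i ∈ Finset.univ.erase j,
      (if (Function.update r j true i && g i x) = true then (1 : ZMod p) else 0) =
      ∑ i ∈ Finset.univ.erase j,
      (if (Function.update r j false i && g i x) = true then (1 : ZMod p) else 0) := by
    refine Finset.sum_congr rfl fun i hi => ?_
    have hij : i ≠ j := Finset.ne_of_mem_erase hi
    rw [Function.update_of_ne hij, Function.update_of_ne hij]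
  rw [this]
  simp [hx, add_comm]

theorem OrApx_rank_col [FiniteDimensional F V] (M : PM F D V V₀ L) (p ℓ : ℕ) [Fact p.Prime]
    [CharP F p] {ι : Type} [Fintype ι] [DecidableEq ι] (g : ι → D → Bool) (k : ℕ)
    (hg : ∀ j, ind F (g j) ∈ M.P k) (hL : 2 * (ℓ * (p - 1) * k + k) ≤ L) (j : ι)
    (r : Fin ℓ → ι → Bool) :
    ∑ ρ : Fin ℓ → Bool, M.rk (fun x => g j x &&
      !(OrApx_orR p ℓ g (fun u => Function.update (r u) j (ρ u)) x)) ≤ finrank F V := by
  refine M.rank_sum _ (ℓ * (p - 1) * k + k) (fun ρ => ?_) hL ?_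
  · have := M.ind_and_mem (hg j)
      (M.ind_not_mem (OrApx_mem M p ℓ g (fun u => Function.update (r u) j (ρ u)) k hg))
    rwa [add_comm] at this
  · intro ρ ρ' hne x hx
    by_contra hx'
    rw [Bool.not_eq_false] at hx'
    simp only [Bool.and_eq_true, Bool.not_eq_true'] at hx hx'
    obtain ⟨u, hu⟩ := Function.ne_iff.mp hne
    have h1 := of_decide_eq_false hx.2
    have h2 := of_decide_eq_false hx'.2
    push Not at h1 h2
    have h3 := h1 u
    have h4 := h2 u
    have h5 := OrApx_cnt_update p g (r u) j x hx.1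
    cases hρ : ρ u <;> cases hρ' : ρ' u <;> rw [hρ] at hu h3 <;> rw [hρ'] at hu h4
    · exact hu rfl
    · rw [h3, h4, zero_add] at h5
      exact zero_ne_one h5
    · rw [h3, h4, zero_add] at h5
      exact zero_ne_one h5
    · exact hu rfl

theorem OrApx_avg {ℓ : ℕ} {ι : Type} [Fintype ι] [DecidableEq ι] (j : ι)
    (h : (Fin ℓ → ι → Bool) → ℕ) :
    (∑ r, h r) * 2 ^ ℓ =
      ∑ r : Fin ℓ → ι → Bool, ∑ ρ : Fin ℓ → Bool,
        h (fun u => Function.update (r u) j (ρ u)) := by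
  let f : (Fin ℓ → ι → Bool) × (Fin ℓ → Bool) → (Fin ℓ → ι → Bool) × (Fin ℓ → Bool) :=
    fun q => (fun u => Function.update (q.1 u) j (q.2 u), fun u => q.1 u j)
  have hf : Function.Involutive f := by
    rintro ⟨r, ρ⟩
    simp [f]
  have h1 := Equiv.sum_comp (hf.toPerm f) (fun q => h q.1)
  rw [Fintype.sum_prod_type, Fintype.sum_prod_type] at h1
  have h2 : ∑ r : Fin ℓ → ι → Bool, ∑ _ρ : Fin ℓ → Bool, h r = (∑ r, h r) * 2 ^ ℓ := by
    rw [Finset.sum_mul]
    refine Finset.sum_congr rfl fun r _ => ?_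
    simp [mul_comm]
  rw [← h2, ← h1]
  rfl

theorem OrApx_rank [FiniteDimensional F V] (M : PM F D V V₀ L) (p ℓ : ℕ) [Fact p.Prime]
    [CharP F p] {ι : Type} [Fintype ι] [DecidableEq ι] (g : ι → D → Bool) (k : ℕ)
    (hg : ∀ j, ind F (g j) ∈ M.P k) (hL : 2 * (ℓ * (p - 1) * k + k) ≤ L)
    (r₀ : Fin ℓ → ι → Bool)
    (hmin : ∀ r, ∑ j, M.rk (fun x => g j x && !(OrApx_orR p ℓ g r₀ x)) ≤
      ∑ j, M.rk (fun x => g j x && !(OrApx_orR p ℓ g r x))) :
    (∑ j, M.rk (fun x => g j x && !(OrApx_orR p ℓ g r₀ x))) * 2 ^ ℓ ≤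
      Fintype.card ι * finrank F V := by
  have hpos : 0 < Fintype.card (Fin ℓ → ι → Bool) := Fintype.card_pos
  refine Nat.le_of_mul_le_mul_left ?_ hpos
  have h1 : Fintype.card (Fin ℓ → ι → Bool) *
      (∑ j, M.rk (fun x => g j x && !(OrApx_orR p ℓ g r₀ x))) ≤
      ∑ r : Fin ℓ → ι → Bool, ∑ j, M.rk (fun x => g j x && !(OrApx_orR p ℓ g r x)) := by
    have := Finset.card_nsmul_le_sum Finset.univ _ _ (fun r _ => hmin r)
    rwa [Finset.card_univ, smul_eq_mul] at this
  have h2 : ∀ j, (∑ r : Fin ℓ → ι → Bool,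
      M.rk (fun x => g j x && !(OrApx_orR p ℓ g r x))) * 2 ^ ℓ ≤
      Fintype.card (Fin ℓ → ι → Bool) * finrank F V := by
    intro j
    rw [OrApx_avg j]
    have := Finset.sum_le_card_nsmul Finset.univ _ _
      (fun r _ => OrApx_rank_col M p ℓ g k hg hL j r)
    rwa [Finset.card_univ, smul_eq_mul] at this
  have h3 := Finset.sum_le_card_nsmul (Finset.univ : Finset ι) _ _ (fun j _ => h2 j)
  rw [Finset.card_univ, smul_eq_mul, ← Finset.sum_mul, ← Finset.sum_comm] at h3
  calc _ = (Fintype.card (Fin ℓ → ι → Bool) *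
        (∑ j, M.rk (fun x => g j x && !(OrApx_orR p ℓ g r₀ x)))) * 2 ^ ℓ := by ring
    _ ≤ _ := Nat.mul_le_mul_right _ h1
    _ ≤ _ := h3
    _ = _ := by ring

theorem OrApx_errs_sum (M : PM F D V V₀ L) (G : List (D → Bool)) (o : D → Bool) :
    ((errs G o).map M.rk).sum = ∑ j : Fin G.length, M.rk (fun x => G.get j x && !(o x)) := by
  unfold errs
  rw [List.map_map, ← Fin.sum_univ_fun_getElem]
  rfl

/-- Existence of the Razborov-Smolensky approximator with small rank error. -/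
theorem exists_OSpec [FiniteDimensional F V] (M : PM F D V V₀ L) (p : ℕ) [Fact p.Prime]
    [CharP F p] (ℓ : ℕ) (hℓ : 1 ≤ ℓ) :
    ∃ O : List (D → Bool) → D → Bool, OSpec M (ℓ * (p - 1)) ℓ O := by
  have hmin : ∀ G : List (D → Bool), ∃ r₀ : Fin ℓ → Fin G.length → Bool, ∀ r,
      ∑ j, M.rk (fun x => G.get j x && !(OrApx_orR p ℓ G.get r₀ x)) ≤
        ∑ j, M.rk (fun x => G.get j x && !(OrApx_orR p ℓ G.get r x)) := fun G =>
    Finite.exists_min fun r : Fin ℓ → Fin G.length → Bool =>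
      ∑ j, M.rk (fun x => G.get j x && !(OrApx_orR p ℓ G.get r x))
  choose r₀ hr₀ using hmin
  refine ⟨fun G => OrApx_orR p ℓ G.get (r₀ G), ?_, ?_, ?_, ?_⟩
  · intro G x h
    obtain ⟨j, hj⟩ := OrApx_le p ℓ G.get (r₀ G) x h
    exact ⟨G.get j, List.get_mem G j, hj⟩
  · intro G k hG
    exact OrApx_mem M p ℓ G.get (r₀ G) k fun j => hG _ (List.get_mem G j)
  · intro G k hG hL
    rw [OrApx_errs_sum]
    have := OrApx_rank M p ℓ G.get k (fun j => hG _ (List.get_mem G j)) hL (r₀ G) (hr₀ G)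
    rwa [Fintype.card_fin] at this
  · intro G k b w v hG hw hL h0
    exact OrApx_ideal M p ℓ G.get (r₀ G) k b w v (fun j => hG _ (List.get_mem G j)) hw hL
      fun j => h0 _ (List.get_mem G j)

end Pool.Agent.Lib.MP_8a52c3_lc.Ac0
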