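import Pool.Agent.Lib.MP_8a52c3_lc.Ac0.FDefs

/-!
Truncated modules (`PM`), specification of the OR approximator, approximators of formulas.
-/

namespace Pool.Agent.Lib.MP_8a52c3_lc.Ac0

open Module

/-- Indicator function of a Boolean function, with values in `F`. -/
def ind (F : Type) [Field F] {D : Type} (a : D → Bool) : D → F :=
  fun x => if a x = true then 1 else 0

/-- A module over the filtered ring of functions `D → F`, valid up to degree `L`. -/
structure PM (F D V V₀ : Type) [Field F] [AddCommGroup V] [Module F V] [AddCommGroup V₀]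
    [Module F V₀] (L : ℕ) where
  P : ℕ → Submodule F (D → F)
  one_mem : (1 : D → F) ∈ P 0
  mono : ∀ a b, a ≤ b → P a ≤ P b
  mul_mem : ∀ a b f g, f ∈ P a → g ∈ P b → f * g ∈ P (a + b)
  Φ : (D → F) →ₗ[F] V₀ →ₗ[F] V
  inj : ∀ v, Φ 1 v = 0 → v = 0
  op : ∀ a g, g ∈ P a → ∃ T : V →ₗ[F] V,
    ∀ b f, f ∈ P b → a + b ≤ L → ∀ v, Φ (g * f) v = T (Φ f v)

variable {F D V V₀ : Type} [Field F] [AddCommGroup V] [Module F V] [AddCommGroup V₀]
  [Module F V₀] {L : ℕ}

/-- The indicator of `a` has degree at most `k` and annihilates `v`. -/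
def PM.Kill (M : PM F D V V₀ L) (v : V₀) (k : ℕ) (a : D → Bool) : Prop :=
  ind F a ∈ M.P k ∧ M.Φ (ind F a) v = 0

/-- Rank of the indicator of `a` on `V₀`. -/
noncomputable def PM.rk (M : PM F D V V₀ L) (a : D → Bool) : ℕ :=
  finrank F (LinearMap.range (M.Φ (ind F a)))

/-- The extension axioms of an approximator `o` of the disjunction of the list `G`. -/
def errs (G : List (D → Bool)) (o : D → Bool) : List (D → Bool) :=
  G.map fun g x => g x && !(o x)

/-- What is needed from the approximator `O` of unbounded disjunctions. -/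
structure OSpec (M : PM F D V V₀ L) (κ ℓ : ℕ) (O : List (D → Bool) → D → Bool) : Prop where
  le : ∀ G x, O G x = true → ∃ g ∈ G, g x = true
  mem : ∀ G k, (∀ g ∈ G, ind F g ∈ M.P k) → ind F (O G) ∈ M.P (κ * k)
  rank : ∀ G k, (∀ g ∈ G, ind F g ∈ M.P k) → 2 * (κ * k + k) ≤ L →
    ((errs G (O G)).map M.rk).sum * 2 ^ ℓ ≤ G.length * finrank F V
  ideal : ∀ G k b w v, (∀ g ∈ G, ind F g ∈ M.P k) → w ∈ M.P b → κ * k + b ≤ L →
    (∀ g ∈ G, M.Φ (ind F g * w) v = 0) → M.Φ (ind F (O G) * w) v = 0

variable {p : ℕ}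

/-- A node that is neither a disjunction nor a conjunction. -/
def leaf (a : D → Bool) : (D → Bool) × List (D → Bool) × List (D → Bool) :=
  (a, [a], [fun z => !(a z)])

/-- Approximator of a formula, approximators of its merged disjuncts, negated approximators of
its merged conjuncts. -/
def ap3 (O : List (D → Bool) → D → Bool) (x : ℕ → D → Bool) :
    Fm p → (D → Bool) × List (D → Bool) × List (D → Bool)
  | .var i => leaf (x i)
  | .top => leaf fun _ => true
  | .bot => leaf fun _ => false
  | .neg A => leaf fun z => !((ap3 O x A).1 z)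
  | .or A B =>
      (O ((ap3 O x A).2.1 ++ (ap3 O x B).2.1), (ap3 O x A).2.1 ++ (ap3 O x B).2.1,
        [fun z => !(O ((ap3 O x A).2.1 ++ (ap3 O x B).2.1) z)])
  | .and A B =>
      (fun z => !(O ((ap3 O x A).2.2 ++ (ap3 O x B).2.2) z),
        [fun z => !(O ((ap3 O x A).2.2 ++ (ap3 O x B).2.2) z)],
        (ap3 O x A).2.2 ++ (ap3 O x B).2.2)
  | .mod i _ f =>
      leaf fun z => decide ((∑ j, if (ap3 O x (f j)).1 z = true then (1 : ZMod p) else 0) = i)

/-- Approximator of a formula. -/
def ap (O : List (D → Bool) → D → Bool) (x : ℕ → D → Bool) (A : Fm p) : D → Bool :=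
  (ap3 O x A).1

/-- Approximators of the merged disjuncts. -/
def orK (O : List (D → Bool) → D → Bool) (x : ℕ → D → Bool) (A : Fm p) : List (D → Bool) :=
  (ap3 O x A).2.1

/-- Negated approximators of the merged conjuncts. -/
def ndK (O : List (D → Bool) → D → Bool) (x : ℕ → D → Bool) (A : Fm p) : List (D → Bool) :=
  (ap3 O x A).2.2

/-- All extension axioms of all subformulas. -/
def ext (O : List (D → Bool) → D → Bool) (x : ℕ → D → Bool) : Fm p → List (D → Bool)
  | .var _ => []
  | .top => []
  | .bot => []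
  | .neg A => ext O x A
  | .or A B => errs (orK O x (.or A B)) (O (orK O x (.or A B))) ++ (ext O x A ++ ext O x B)
  | .and A B => errs (ndK O x (.and A B)) (O (ndK O x (.and A B))) ++ (ext O x A ++ ext O x B)
  | .mod _ _ f => (List.ofFn fun j => ext O x (f j)).flatten

/-- The point `z` falsifies the clause `C`. -/
def falsif (x : ℕ → D → Bool) (C : List (ℕ × Bool)) : D → Bool :=
  fun z => C.all fun l => x l.1 z != l.2

end Pool.Agent.Lib.MP_8a52c3_lc.Ac0
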