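import Pool.Agent.Lib.MP_8a52c3_lc.Ac0.GDefs

namespace Pool.Agent.Lib.MP_8a52c3_lc.Ac0

open Matrix Filter
open scoped BigOperators

variable {ι : Type} [Fintype ι]

theorem Prob1_mono {f g : ι → ℝ} (h : ∀ i, f i ≤ g i) : 𝔼 i, f i ≤ 𝔼 i, g i :=
  Finset.expect_le_expect fun i _ => h i

theorem Prob1_const_le {c : ℝ} (hc : 0 ≤ c) : 𝔼 _i : ι, c ≤ c := by
  rcases isEmpty_or_nonempty ι with h | h
  · simpa using hc
  · simp

theorem pb_nonneg (P : ι → Prop) : 0 ≤ pb P := by
  unfold pb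
  refine Finset.expect_nonneg fun i _ => ?_
  split_ifs <;> norm_num

theorem pb_le_one (P : ι → Prop) : pb P ≤ 1 := by
  unfold pb
  refine (Prob1_mono fun i => ?_).trans (Prob1_const_le zero_le_one)
  split_ifs <;> norm_num

theorem pb_mono {P Q : ι → Prop} (h : ∀ i, P i → Q i) : pb P ≤ pb Q := by
  unfold pb
  refine Prob1_mono fun i => ?_
  by_cases hp : P i
  · rw [if_pos hp, if_pos (h i hp)]
  · rw [if_neg hp]
    split_ifs <;> norm_num

theorem pb_not [Nonempty ι] (P : ι → Prop) : pb (fun i => ¬ P i) = 1 - pb P := by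
  unfold pb
  rw [eq_sub_iff_add_eq, ← Finset.expect_add_distrib]
  refine (Finset.expect_congr rfl (g := fun _ => (1 : ℝ)) fun i _ => ?_).trans (by simp)
  by_cases hp : P i <;> simp [hp]

theorem pb_or_le (P Q : ι → Prop) : pb (fun i => P i ∨ Q i) ≤ pb P + pb Q := by
  unfold pb
  rw [← Finset.expect_add_distrib]
  refine Prob1_mono fun i => ?_
  by_cases hp : P i <;> by_cases hq : Q i <;> simp [hp, hq]

theorem pb_and_ge (P Q : ι → Prop) : pb P - pb (fun i => ¬ Q i) ≤ pb fun i => P i ∧ Q i := by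
  have h1 : pb P ≤ pb fun i => (P i ∧ Q i) ∨ ¬ Q i := pb_mono fun i hp => by tauto
  have h2 := pb_or_le (fun i => P i ∧ Q i) fun i => ¬ Q i
  linarith

/-- Union bound. -/
theorem pb_exists_le {κ : Type} [Fintype κ] (P : κ → ι → Prop) :
    pb (fun i => ∃ k, P k i) ≤ ∑ k, pb (P k) := by
  classical
  unfold pb
  rw [← Finset.expect_sum_comm]
  refine Prob1_mono fun i => ?_
  have h0 : ∀ k, (0 : ℝ) ≤ if P k i then 1 else 0 := fun k => by split_ifs <;> norm_num
  by_cases h : ∃ k, P k i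
  · obtain ⟨k, hk⟩ := h
    rw [if_pos ⟨k, hk⟩]
    have := Finset.single_le_sum (f := fun k => if P k i then (1 : ℝ) else 0)
      (fun k _ => h0 k) (Finset.mem_univ k)
    simp only [if_pos hk] at this
    convert this
  · rw [if_neg h]
    refine Finset.sum_nonneg fun k _ => ?_
    split_ifs <;> norm_num

theorem pb_exists_le_card {κ : Type} [Fintype κ] (P : κ → ι → Prop) {c : ℝ}
    (h : ∀ k, pb (P k) ≤ c) : pb (fun i => ∃ k, P k i) ≤ Fintype.card κ * c := by
  refine (pb_exists_le P).trans ((Finset.sum_le_sum fun k _ => h k).trans (le_of_eq ?_))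
  rw [Finset.sum_const, Finset.card_univ, nsmul_eq_mul]

/-- Markov's inequality. -/
theorem markov (f : ι → ℝ) (hf : ∀ i, 0 ≤ f i) {a : ℝ} (ha : 0 < a) :
    pb (fun i => a ≤ f i) ≤ (𝔼 i, f i) / a := by
  unfold pb
  rw [Finset.expect_div]
  refine Prob1_mono fun i => ?_
  split_ifs with h
  · exact (one_le_div ha).2 h
  · exact div_nonneg (hf i) ha.le

open Classical in
/-- Cauchy-Schwarz on an event. -/
theorem cs_event (f : ι → ℝ) (P : ι → Prop) :
    (𝔼 i, if P i then f i else 0) ^ 2 ≤ (𝔼 i, f i ^ 2) * pb P := by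
  have h := Finset.expect_mul_sq_le_sq_mul_sq Finset.univ f fun i => if P i then (1 : ℝ) else 0
  have e1 : ∀ i, f i * (if P i then (1 : ℝ) else 0) = if P i then f i else 0 := fun i => by
    split_ifs <;> simp
  have e2 : ∀ i, (if P i then (1 : ℝ) else 0) ^ 2 = if P i then (1 : ℝ) else 0 := fun i => by
    split_ifs <;> simp
  simp only [e1, e2] at h
  exact h

theorem sq_expect_le (f : ι → ℝ) : (𝔼 i, f i) ^ 2 ≤ 𝔼 i, f i ^ 2 := by
  have h := cs_event f fun _ => True
  simp only [if_true] at h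
  refine h.trans (mul_le_of_le_one_right (Finset.expect_nonneg fun i _ => sq_nonneg _)
    (pb_le_one _))

/-- Paley-Zygmund inequality. -/
theorem paley_zygmund (f : ι → ℝ) (hf : ∀ i, 0 ≤ f i) {m M : ℝ} (hm : 0 < m) (hM : 0 < M)
    (h1 : 𝔼 i, f i = m) (h2 : 𝔼 i, f i ^ 2 ≤ M * m ^ 2) :
    1 / (4 * M) ≤ pb fun i => m / 2 ≤ f i := by
  classical
  have h3 := cs_event f fun i => m / 2 ≤ f i
  have h4 : 𝔼 i, f i ≤ 𝔼 i, ((if m / 2 ≤ f i then f i else 0) + m / 2) :=
    Prob1_mono fun i => by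
      split_ifs with h
      · linarith
      · linarith [not_le.1 h]
  rw [Finset.expect_add_distrib, h1] at h4
  have h5 := Prob1_const_le (ι := ι) (c := m / 2) (by linarith)
  have h6 : m / 2 ≤ 𝔼 i, if m / 2 ≤ f i then f i else 0 := by linarith
  have h7 : (m / 2) ^ 2 ≤ M * m ^ 2 * pb fun i => m / 2 ≤ f i := by
    refine (pow_le_pow_left₀ (by linarith) h6 2).trans (le_trans ?_
      (mul_le_mul_of_nonneg_right h2 (pb_nonneg _)))
    convert h3
  rw [div_le_iff₀ (by positivity)]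
  have h8 : 0 < m ^ 2 := by positivity
  refine le_of_mul_le_mul_left ?_ h8
  nlinarith

end Pool.Agent.Lib.MP_8a52c3_lc.Ac0
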