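import Pool.Agent.Lib.MP_8a52c3_lc.Ac0.Prob1

namespace Pool.Agent.Lib.MP_8a52c3_lc.Ac0

open Matrix Filter
open scoped BigOperators

variable {ι : Type} [Fintype ι]

theorem Prob2_prod {κ : Type} [Fintype κ] (f : ι × κ → ℝ) :
    𝔼 x, f x = 𝔼 i, 𝔼 k, f (i, k) := by
  rw [← Finset.univ_product_univ, Finset.expect_product]

/-- Lower bound for an event in a product through its fibres. -/
theorem pb_prod_ge {κ : Type} [Fintype κ] (P : ι × κ → Prop) (A : ι → Prop) {c : ℝ}
    (hc : 0 ≤ c) (h : ∀ i, A i → c ≤ pb fun k => P (i, k)) : pb A * c ≤ pb P := by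
  classical
  have _ := hc
  unfold pb
  rw [Prob2_prod, Finset.expect_mul]
  refine Finset.expect_le_expect fun i _ => ?_
  by_cases hi : A i
  · rw [if_pos hi, one_mul]
    exact h i hi
  · rw [if_neg hi, zero_mul]
    exact pb_nonneg fun k => P (i, k)

/-- Resampling one coordinate. -/
theorem expect_update {α : Type} [Fintype α] [Nonempty α] [DecidableEq ι] (i : ι)
    (f : (ι → α) → ℝ) : 𝔼 x, f x = 𝔼 x, 𝔼 a, f (Function.update x i a) := by
  have hinv : Function.Involutive
      fun y : (ι → α) × α => (Function.update y.1 i y.2, y.1 i) := fun y => by simp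
  rw [← Prob2_prod fun y : (ι → α) × α => f (Function.update y.1 i y.2),
    Fintype.expect_bijective _ hinv.bijective _ (fun y : (ι → α) × α => f y.1) fun y => rfl,
    Prob2_prod]
  simp only [Fintype.expect_const]

/-- Independence of coordinates. -/
theorem expect_prod_pi {α : Type} [Fintype α] [DecidableEq ι] (f : ι → α → ℝ) :
    𝔼 x : ι → α, ∏ i, f i (x i) = ∏ i, 𝔼 a, f i a := by
  simp only [Fintype.expect_eq_sum_div_card]
  rw [Finset.prod_div_distrib, Finset.prod_univ_sum, Fintype.piFinset_univ, Finset.prod_const,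
    Fintype.card_fun, Nat.cast_pow, Finset.card_univ]

/-- A function of one coordinate. -/
theorem expect_coord {α : Type} [Fintype α] [Nonempty α] [DecidableEq ι] (i : ι) (f : α → ℝ) :
    𝔼 x : ι → α, f (x i) = 𝔼 a, f a := by
  rw [expect_update i]
  simp only [Function.update_self, Fintype.expect_const]

/-- The image of an event in a quotient group. -/
theorem pb_quot {G : Type} [AddCommGroup G] [Fintype G] (H : AddSubgroup G) (P : G → Prop) :
    pb P * Nat.card (G ⧸ H) ≤
      Nat.card {α : G ⧸ H // ∃ g, (QuotientAddGroup.mk g : G ⧸ H) = α ∧ P g} := by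
  classical
  have hmem : ∀ g : G, -(QuotientAddGroup.mk g : G ⧸ H).out + g ∈ H := fun g =>
    QuotientAddGroup.eq.1 (QuotientAddGroup.out_eq' _)
  have hle : Nat.card {g // P g} ≤
      Nat.card ({α : G ⧸ H // ∃ g, (QuotientAddGroup.mk g : G ⧸ H) = α ∧ P g} × H) := by
    refine Nat.card_le_card_of_injective
      (fun g => (⟨QuotientAddGroup.mk g.1, g.1, rfl, g.2⟩, ⟨_, hmem g.1⟩)) fun g g' e => ?_
    obtain ⟨e1, e2⟩ := Prod.ext_iff.1 e
    have e3 : (QuotientAddGroup.mk g.1 : G ⧸ H) = QuotientAddGroup.mk g'.1 :=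
      congrArg Subtype.val e1
    have e4 : -(QuotientAddGroup.mk g.1 : G ⧸ H).out + g.1
        = -(QuotientAddGroup.mk g'.1 : G ⧸ H).out + g'.1 := congrArg Subtype.val e2
    rw [e3] at e4
    exact Subtype.ext (add_left_cancel e4)
  rw [Nat.card_prod] at hle
  have hG := AddSubgroup.card_eq_card_quotient_mul_card_addSubgroup H
  have hpb : pb P = (Nat.card {g // P g} : ℝ) / Nat.card G := by
    unfold pb
    rw [Fintype.expect_eq_sum_div_card, Finset.sum_boole, Nat.card_eq_fintype_card,
      Nat.card_eq_fintype_card, Fintype.card_subtype]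
  have hH : (0 : ℝ) < Nat.card H := by exact_mod_cast Nat.card_pos
  have hQ : (0 : ℝ) < Nat.card (G ⧸ H) := by exact_mod_cast Nat.card_pos
  rw [hpb, hG, Nat.cast_mul, div_mul_eq_mul_div, mul_comm (Nat.card (G ⧸ H) : ℝ),
    mul_div_mul_right _ _ hQ.ne', div_le_iff₀ hH]
  exact_mod_cast hle

/-- Size of a Hamming ball. -/
theorem card_ball_le {α : Type} [Fintype α] [DecidableEq α] [Zero α] [DecidableEq ι] (L : ℕ) :
    Fintype.card {m : ι → α // hammingNorm m ≤ L} ≤
      (Fintype.card ι * Fintype.card α + 1) ^ L := by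
  rw [Fintype.card_subtype]
  induction L with
  | zero =>
    rw [pow_zero, Finset.card_le_one]
    intro x hx y hy
    have h1 := (Finset.mem_filter.1 hx).2
    have h2 := (Finset.mem_filter.1 hy).2
    rw [Nat.le_zero, hammingNorm_eq_zero] at h1 h2
    rw [h1, h2]
  | succ L ih =>
    let F : (ι → α) × Option (ι × α) → ι → α := fun y =>
      y.2.elim y.1 fun z => Function.update y.1 z.1 z.2
    have hsub : (Finset.univ.filter fun m : ι → α => hammingNorm m ≤ L + 1) ⊆
        ((Finset.univ.filter fun m : ι → α => hammingNorm m ≤ L) ×ˢ Finset.univ).image F := by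
      intro m hm
      have h1 := (Finset.mem_filter.1 hm).2
      by_cases h2 : hammingNorm m ≤ L
      · exact Finset.mem_image.2 ⟨(m, none), by simp [h2], rfl⟩
      · have h3 : m ≠ 0 := fun h0 => h2 (by simp [h0])
        obtain ⟨i, hi⟩ := Function.ne_iff.1 h3
        refine Finset.mem_image.2 ⟨(Function.update m i 0, some (i, m i)), ?_, by simp [F]⟩
        have h4 : hammingNorm (Function.update m i 0) < hammingNorm m := by
          refine Finset.card_lt_card ⟨fun j hj => ?_, fun hh => ?_⟩
          · have h5 := (Finset.mem_filter.1 hj).2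
            refine Finset.mem_filter.2 ⟨Finset.mem_univ _, ?_⟩
            by_cases hji : j = i
            · subst hji
              exact hi
            · rwa [Function.update_of_ne hji] at h5
          · have h5 := hh (Finset.mem_filter.2 ⟨Finset.mem_univ i, hi⟩)
            simp at h5
        simp only [Finset.mem_product, Finset.mem_filter, Finset.mem_univ, true_and, and_true]
        omega
    refine (Finset.card_le_card hsub).trans (Finset.card_image_le.trans ?_)
    rw [Finset.card_product, Finset.card_univ, Fintype.card_option, Fintype.card_prod, pow_succ]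
    exact Nat.mul_le_mul_right _ ih

end Pool.Agent.Lib.MP_8a52c3_lc.Ac0
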