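import Pool.Agent.Lib.MP_8a52c3_lc.Ac0.Nrm
import Pool.Agent.Lib.MP_8a52c3_lc.Ac0.Prob

namespace Pool.Agent.Lib.MP_8a52c3_lc.Ac0

open Matrix Filter
open scoped BigOperators

variable {q : ℕ} [NeZero q] {ι : Type} [Fintype ι] [DecidableEq ι]

theorem one_le_Mk (k : ℕ) : 1 ≤ Mk k := by
  unfold Mk
  have h1 : (1 : ℝ) ≤ 2 ^ k := one_le_pow₀ (by norm_num)
  have h2 : (1 : ℝ) ≤ ((2 * k).factorial : ℝ) := by
    exact_mod_cast Nat.one_le_iff_ne_zero.mpr (Nat.factorial_ne_zero _)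
  nlinarith

theorem Mk_pos (k : ℕ) : 0 < Mk k := lt_of_lt_of_le one_pos (one_le_Mk k)

theorem Mk_mono {j k : ℕ} (h : j ≤ k) : Mk j ≤ Mk k := by
  unfold Mk
  have h1 : (2 : ℝ) ^ j ≤ 2 ^ k := pow_le_pow_right₀ (by norm_num) h
  have h2 : ((2 * j).factorial : ℝ) ≤ ((2 * k).factorial : ℝ) := by
    exact_mod_cast Nat.factorial_le (by omega)
  gcongr

theorem Ck_nonneg (k : ℕ) : 0 ≤ Ck k := by
  unfold Ck
  have := Mk_pos k
  positivity

theorem Sub_zero (hq : 2 ≤ q) (w : ℂ) : 𝔼 c : ZMod q, (ec c * w).re = 0 := by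
  rw [Fintype.expect_eq_sum_div_card, ← Complex.re_sum, ← Finset.sum_mul, sum_ec hq]
  simp

theorem Sub_one (hq : 2 ≤ q) (w : ℂ) :
    𝔼 c : ZMod q, Real.exp ((ec c * w).re) ≤ Real.exp (‖w‖ ^ 2 / 2) := by
  rcases eq_or_ne w 0 with rfl | hw
  · simp
  have hr : 0 < ‖w‖ := norm_pos_iff.mpr hw
  have key : ∀ c : ZMod q, Real.exp ((ec c * w).re) ≤
      Real.cosh ‖w‖ + (ec c * w).re * (Real.sinh ‖w‖ / ‖w‖) := by
    intro c
    have h1 : |(ec c * w).re / ‖w‖| ≤ 1 := by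
      rw [abs_div, abs_of_pos hr, div_le_one hr]
      refine (Complex.abs_re_le_norm _).trans ?_
      rw [norm_mul, norm_ec, one_mul]
    have h2 := Real.exp_mul_le_cosh_add_mul_sinh h1 ‖w‖
    rw [div_mul_cancel₀ _ hr.ne'] at h2
    refine h2.trans (le_of_eq ?_)
    ring
  refine (Finset.expect_le_expect fun c _ => key c).trans ?_
  rw [Finset.expect_add_distrib, ← Finset.expect_mul, Sub_zero hq, zero_mul, add_zero,
    Finset.expect_const Finset.univ_nonempty]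
  exact Real.cosh_le_exp_half_sq _

/-- Hoeffding's bound for the moment generating function. -/
theorem sub_mgf (hq : 2 ≤ q) (u : ι → ℂ) (θ : ℂ) :
    𝔼 ξ : ι → ZMod q, Real.exp ((θ * ∑ a, ec (ξ a) * u a).re) ≤
      Real.exp (‖θ‖ ^ 2 * nrm u ^ 2 / 2) := by
  have h1 : ∀ ξ : ι → ZMod q, Real.exp ((θ * ∑ a, ec (ξ a) * u a).re) =
      ∏ a, Real.exp ((ec (ξ a) * (θ * u a)).re) := by
    intro ξ
    rw [← Real.exp_sum, ← Complex.re_sum, Finset.mul_sum]
    congr 2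
    exact Finset.sum_congr rfl fun a _ => by ring
  simp_rw [h1]
  rw [expect_prod_pi (fun a (c : ZMod q) => Real.exp ((ec c * (θ * u a)).re))]
  refine (Finset.prod_le_prod (fun a _ => Finset.expect_nonneg fun c _ => (Real.exp_pos _).le)
    (fun a _ => Sub_one hq (θ * u a))).trans (le_of_eq ?_)
  rw [← Real.exp_sum, nrm_sq, Finset.mul_sum, Finset.sum_div]
  congr 1
  exact Finset.sum_congr rfl fun a _ => by rw [norm_mul, mul_pow]

theorem sub_sq (hq : 2 ≤ q) (u : ι → ℂ) :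
    𝔼 ξ : ι → ZMod q, ‖∑ a, ec (ξ a) * u a‖ ^ 2 = nrm u ^ 2 := by
  have h1 : ∀ ξ : ι → ZMod q, ‖∑ a, ec (ξ a) * u a‖ ^ 2 =
      ∑ a, ∑ b, (ec (ξ a) * (u a * (starRingEnd ℂ) (ec (ξ b) * u b))).re := by
    intro ξ
    rw [← Complex.normSq_eq_norm_sq, ← Complex.ofReal_re (Complex.normSq _), ← Complex.mul_conj,
      map_sum, Finset.sum_mul_sum, Complex.re_sum]
    refine Finset.sum_congr rfl fun a _ => ?_
    rw [Complex.re_sum]
    exact Finset.sum_congr rfl fun b _ => by rw [mul_assoc]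
  simp_rw [h1]
  rw [Finset.expect_sum_comm, nrm_sq]
  refine Finset.sum_congr rfl fun a _ => ?_
  rw [Finset.expect_sum_comm, Finset.sum_eq_single a]
  · have h2 : ∀ ξ : ι → ZMod q,
        (ec (ξ a) * (u a * (starRingEnd ℂ) (ec (ξ a) * u a))).re = ‖u a‖ ^ 2 := by
      intro ξ
      rw [← mul_assoc, Complex.mul_conj, Complex.ofReal_re, Complex.normSq_eq_norm_sq, norm_mul,
        norm_ec, one_mul]
    simp_rw [h2]
    exact Finset.expect_const Finset.univ_nonempty _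
  · intro b _ hb
    rw [expect_update a]
    refine Finset.expect_eq_zero fun x _ => ?_
    simp only [Function.update_self, Function.update_of_ne hb]
    exact Sub_zero hq _
  · intro h
    exact absurd (Finset.mem_univ a) h

theorem Sub_four (t : ℝ) (S : ℂ) :
    Real.exp (t * max |S.re| |S.im|) ≤
      Real.exp (((t : ℂ) * S).re) + Real.exp (((-t : ℂ) * S).re) +
        Real.exp (((t * Complex.I : ℂ) * S).re) + Real.exp (((-t * Complex.I : ℂ) * S).re) := by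
  have e1 : ((t : ℂ) * S).re = t * S.re := by simp
  have e2 : ((-t : ℂ) * S).re = t * -S.re := by simp
  have e3 : ((t * Complex.I : ℂ) * S).re = t * -S.im := by simp
  have e4 : ((-t * Complex.I : ℂ) * S).re = t * S.im := by simp
  rw [e1, e2, e3, e4]
  have p1 := Real.exp_pos (t * S.re)
  have p2 := Real.exp_pos (t * -S.re)
  have p3 := Real.exp_pos (t * -S.im)
  have p4 := Real.exp_pos (t * S.im)
  rcases max_choice |S.re| |S.im| with h | h <;> rw [h]
  · rcases abs_choice S.re with h' | h' <;> rw [h'] <;> linarith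
  · rcases abs_choice S.im with h' | h' <;> rw [h'] <;> linarith

theorem Sub_E4 (hq : 2 ≤ q) (u : ι → ℂ) (t : ℝ) :
    𝔼 ξ : ι → ZMod q, Real.exp (t * max |(∑ a, ec (ξ a) * u a).re| |(∑ a, ec (ξ a) * u a).im|) ≤
      4 * Real.exp (t ^ 2 * nrm u ^ 2 / 2) := by
  refine (Finset.expect_le_expect fun ξ _ => Sub_four t _).trans ?_
  rw [Finset.expect_add_distrib, Finset.expect_add_distrib, Finset.expect_add_distrib]
  have h1 := sub_mgf hq u (t : ℂ)
  have h2 := sub_mgf hq u (-t : ℂ)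
  have h3 := sub_mgf hq u (t * Complex.I : ℂ)
  have h4 := sub_mgf hq u (-t * Complex.I : ℂ)
  simp only [norm_neg, norm_mul, Complex.norm_I, mul_one, Complex.norm_real, Real.norm_eq_abs,
    sq_abs] at h1 h2 h3 h4
  linarith

theorem Sub_sq_le (S : ℂ) : ‖S‖ ^ 2 ≤ 2 * (max |S.re| |S.im|) ^ 2 := by
  rw [← Complex.normSq_eq_norm_sq, Complex.normSq_apply]
  have h1 : |S.re| ^ 2 ≤ (max |S.re| |S.im|) ^ 2 :=
    pow_le_pow_left₀ (abs_nonneg _) (le_max_left _ _) 2
  have h2 : |S.im| ^ 2 ≤ (max |S.re| |S.im|) ^ 2 :=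
    pow_le_pow_left₀ (abs_nonneg _) (le_max_right _ _) 2
  rw [sq_abs] at h1 h2
  nlinarith

theorem Sub_exp_half : Real.exp (1 / 2) ≤ 2 := by
  have h : Real.exp (1 / 2) ^ 2 = Real.exp 1 := by
    rw [← Real.exp_nat_mul]
    norm_num
  have h2 := Real.exp_one_lt_d9
  have h3 := Real.exp_pos (1 / 2)
  nlinarith

theorem sub_mom (hq : 2 ≤ q) (u : ι → ℂ) (k : ℕ) :
    𝔼 ξ : ι → ZMod q, ‖∑ a, ec (ξ a) * u a‖ ^ (2 * k) ≤ Mk k * nrm u ^ (2 * k) := by
  rcases (nrm_nonneg u).eq_or_lt with h0 | hN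
  · have hu := nrm_eq_zero h0.symm
    rw [← h0, hu]
    simp only [Pi.zero_apply, mul_zero, Finset.sum_const_zero, norm_zero]
    rw [Finset.expect_const Finset.univ_nonempty]
    exact le_mul_of_one_le_left (by positivity) (one_le_Mk k)
  set N := nrm u with hNdef
  have ht : 0 ≤ N⁻¹ := by positivity
  have key : ∀ S : ℂ, ‖S‖ ^ (2 * k) ≤
      (2 ^ k * ((2 * k).factorial : ℝ) * N ^ (2 * k)) * Real.exp (N⁻¹ * max |S.re| |S.im|) := by
    intro S
    set y := max |S.re| |S.im| with hy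
    have hy0 : 0 ≤ y := le_max_of_le_left (abs_nonneg _)
    have h1 : ‖S‖ ^ (2 * k) ≤ 2 ^ k * y ^ (2 * k) := by
      rw [pow_mul, pow_mul, ← mul_pow]
      exact pow_le_pow_left₀ (by positivity) (Sub_sq_le S) k
    have h2 := Real.pow_div_factorial_le_exp (N⁻¹ * y) (by positivity) (2 * k)
    have hf : (0 : ℝ) < ((2 * k).factorial : ℝ) := by exact_mod_cast Nat.factorial_pos _
    rw [div_le_iff₀ hf] at h2
    have h3 : y ^ (2 * k) = N ^ (2 * k) * (N⁻¹ * y) ^ (2 * k) := by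
      rw [← mul_pow, ← mul_assoc, mul_inv_cancel₀ hN.ne', one_mul]
    calc ‖S‖ ^ (2 * k) ≤ 2 ^ k * (N ^ (2 * k) * (N⁻¹ * y) ^ (2 * k)) := by rw [← h3]; exact h1
      _ ≤ 2 ^ k * (N ^ (2 * k) * (Real.exp (N⁻¹ * y) * ((2 * k).factorial : ℝ))) := by gcongr
      _ = _ := by ring
  refine (Finset.expect_le_expect fun ξ _ => key _).trans ?_
  rw [← Finset.mul_expect]
  have h4 := Sub_E4 hq u N⁻¹
  have h5 : N⁻¹ ^ 2 * nrm u ^ 2 / 2 = 1 / 2 := by
    rw [← hNdef, ← mul_pow, inv_mul_cancel₀ hN.ne', one_pow]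
  rw [h5] at h4
  have h6 := h4.trans (mul_le_mul_of_nonneg_left Sub_exp_half (by norm_num))
  refine (mul_le_mul_of_nonneg_left h6 (by positivity)).trans (le_of_eq ?_)
  unfold Mk
  ring

theorem sub_tail (hq : 2 ≤ q) (u : ι → ℂ) {lam : ℝ} (hlam : 0 ≤ lam) :
    pb (fun ξ : ι → ZMod q => lam * nrm u < ‖∑ a, ec (ξ a) * u a‖) ≤
      4 * Real.exp (-(lam ^ 2 / 4)) := by
  rcases (nrm_nonneg u).eq_or_lt with h0 | hN
  · have hu := nrm_eq_zero h0.symm
    rw [← h0, hu]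
    simp only [pb, Pi.zero_apply, mul_zero, Finset.sum_const_zero, norm_zero, lt_self_iff_false,
      if_false, Finset.expect_const_zero]
    positivity
  set N := nrm u with hNdef
  have hs : 0 < Real.sqrt 2 := by positivity
  have hs2 : Real.sqrt 2 ^ 2 = 2 := Real.sq_sqrt (by norm_num)
  set t := lam / (Real.sqrt 2 * N) with htdef
  have ht : 0 ≤ t := by positivity
  have key : ∀ S : ℂ, lam * N < ‖S‖ →
      Real.exp (lam ^ 2 / 2) ≤ Real.exp (t * max |S.re| |S.im|) := by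
    intro S hS
    set y := max |S.re| |S.im| with hy
    have hy0 : 0 ≤ y := le_max_of_le_left (abs_nonneg _)
    have h1 : ‖S‖ ≤ Real.sqrt 2 * y := by
      refine (pow_le_pow_iff_left₀ (norm_nonneg _) (by positivity) two_ne_zero).mp ?_
      rw [mul_pow, hs2]
      exact Sub_sq_le S
    refine Real.exp_le_exp.mpr ?_
    have h2 : lam * N ≤ Real.sqrt 2 * y := hS.le.trans h1
    have h3 : t * y = lam * (Real.sqrt 2 * y) / (2 * N) := by
      rw [htdef]
      field_simp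
      rw [hs2]
      ring
    rw [h3, le_div_iff₀ (by positivity)]
    nlinarith [mul_le_mul_of_nonneg_left h2 hlam]
  refine (pb_mono fun ξ h => key _ h).trans ?_
  refine (markov (fun ξ : ι → ZMod q =>
    Real.exp (t * max |(∑ a, ec (ξ a) * u a).re| |(∑ a, ec (ξ a) * u a).im|))
    (fun ξ => (Real.exp_pos _).le) (Real.exp_pos _)).trans ?_
  have h4 := Sub_E4 hq u t
  have h5 : t ^ 2 * nrm u ^ 2 / 2 = lam ^ 2 / 4 := by
    rw [← hNdef, htdef, div_pow, mul_pow, hs2]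
    field_simp
    norm_num
  rw [h5] at h4
  rw [div_le_iff₀ (Real.exp_pos _)]
  refine h4.trans (le_of_eq ?_)
  rw [mul_assoc, ← Real.exp_add]
  congr 2
  ring

end Pool.Agent.Lib.MP_8a52c3_lc.Ac0
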